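import Pool.Agent.H32R2.KH.Chain

set_option autoImplicit false

namespace Pool.Agent.H32R2.KH

open Finset

/-- supersolution -/
noncomputable def PP : ℕ → ℝ
  | 0 => 29 / 243
  | 1 => 1629 / 2000 * (29 / 243)
  | _ + 2 => 1 / 4 * (29 / 243)

lemma PP_pos (i : ℕ) : 0 < PP i := by
  rcases i with _ | _ | i <;> norm_num [PP]

lemma PP_le (i : ℕ) : PP (i + 1) ≤ 1629 / 2000 * (29 / 243) := by
  rcases i with _ | i <;> norm_num [PP]

lemma PP_super (i : ℕ) :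
    (2 * (i : ℝ) + 1) * (2 * i) * PP (i - 1) + (4 * i + 3) / 3 * PP i + 1 / 9 * PP (i + 1)
      ≤ 3 ^ (2 * i + 1) * (727 / 2000) * PP i := by
  rcases i with _ | _ | t
  · norm_num [PP]
  · norm_num [PP]
  · have h1 : PP (t + 1) ≤ 1629 / 2000 * (29 / 243) := PP_le t
    have h2 : PP (t + 2) = 1 / 4 * (29 / 243) := rfl
    have h3 : PP (t + 2 + 1) = 1 / 4 * (29 / 243) := rfl
    show (2 * ((t + 2 : ℕ) : ℝ) + 1) * (2 * ((t + 2 : ℕ) : ℝ)) * PP (t + 1)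
      + (4 * ((t + 2 : ℕ) : ℝ) + 3) / 3 * PP (t + 2) + 1 / 9 * PP (t + 2 + 1)
      ≤ 3 ^ (2 * (t + 2) + 1) * (727 / 2000) * PP (t + 2)
    rw [h2, h3]
    have h4 : (1 : ℝ) + t * 2 ≤ 3 ^ t := by
      have := one_add_mul_le_pow (a := (2 : ℝ)) (by norm_num) t
      norm_num at this ⊢
      linarith
    have ht : (0 : ℝ) ≤ t := Nat.cast_nonneg t
    have h5 : (1 + (t : ℝ) * 2) ^ 2 ≤ (3 ^ t) ^ 2 := pow_le_pow_left₀ (by positivity) h4 2
    have h6 : (3 : ℝ) ^ (2 * (t + 2) + 1) = 243 * (3 ^ t) ^ 2 := by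
      rw [← pow_mul, show 2 * (t + 2) + 1 = t * 2 + 5 by ring, pow_add]; ring
    rw [h6]
    push_cast
    have h7 : (2 * ((t : ℝ) + 2) + 1) * (2 * (t + 2)) * PP (t + 1)
        ≤ (2 * ((t : ℝ) + 2) + 1) * (2 * (t + 2)) * (1629 / 2000 * (29 / 243)) :=
      mul_le_mul_of_nonneg_left h1 (by positivity)
    nlinarith [mul_nonneg ht ht]

lemma X1 (s : ℕ) : Xr 0 1 s = if s = 1 then 3 else 0 := by
  have h : Xr 0 1 s = 0 * Xr 0 0 s + s * om 0 * Xr 0 0 (s - 1) + 1 / (3 * om 0) * Xr 0 0 (s + 1) :=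
    rfl
  rw [h]
  rcases s with _ | _ | s
  · simp [Xr]
  · simp [Xr, om, lev]
  · simp [Xr]

lemma X3_1 : Xr 0 3 1 = 3 := by
  have h := Xr_two 1 le_rfl 1
  norm_num [X1] at h
  exact h

lemma X3_3 : Xr 0 3 3 = 162 := by
  have h := Xr_two 1 le_rfl 3
  norm_num [X1] at h
  exact h

lemma X5_1 : Xr 0 5 1 = 29 / 9 := by
  have h := Xr_two 2 (by norm_num) 1
  norm_num [X3_1, X3_3] at h
  exact h

lemma X5_3 : Xr 0 5 3 = 1836 := by
  have h := Xr_two 2 (by norm_num) 3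
  have h5 : Xr 0 3 5 = 0 := Xr_zero _ _ _ (by norm_num)
  norm_num [X3_1, X3_3, h5] at h
  exact h

lemma X5_5 : Xr 0 5 5 = 262440 := by
  have h := Xr_two 2 (by norm_num) 5
  have h5 : Xr 0 3 5 = 0 := Xr_zero _ _ _ (by norm_num)
  have h7 : Xr 0 3 7 = 0 := Xr_zero _ _ _ (by norm_num)
  norm_num [X3_3, h5, h7] at h
  exact h

theorem Xr_bound (m i : ℕ) :
    Xr 0 (2 * (m + 3) - 1) (2 * i + 1)
      ≤ 3 ^ ((m + 3) * (2 * i + 1)) * PP i * (727 / 2000) ^ m := by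
  induction m generalizing i with
  | zero =>
    show Xr 0 5 (2 * i + 1) ≤ _
    rcases i with _ | _ | _ | i
    · norm_num [PP, X5_1]
    · norm_num [PP, X5_3]
    · norm_num [PP, X5_5]
    · rw [Xr_zero 0 5 _ (by omega)]
      have := PP_pos (i + 1 + 1 + 1)
      positivity
  | succ m ih =>
    obtain ⟨n, hn⟩ : ∃ n, n = m + 3 := ⟨_, rfl⟩
    have hn1 : 2 * (m + 1 + 3) - 1 = 2 * n + 1 := by omega
    have hn2 : m + 1 + 3 = n + 1 := by omega
    rw [hn1, hn2, Xr_two n (by omega)]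
    rw [← hn] at ih
    set L : ℝ := (727 / 2000) ^ m with hL
    have hL0 : 0 < L := by positivity
    have e1 := ih i
    have e2 := ih (i + 1)
    have e3 : (2 * (i : ℝ) + 1) * (2 * i) * 9 ^ n * Xr 0 (2 * n - 1) (2 * i + 1 - 2)
        ≤ 3 ^ (n * (2 * i + 1)) * L * ((2 * (i : ℝ) + 1) * (2 * i) * PP (i - 1)) := by
      rcases i with _ | i
      · simp
      · have e4 := ih i
        have e5 : 2 * (i + 1) + 1 - 2 = 2 * i + 1 := by omega
        have e6 : i + 1 - 1 = i := rfl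
        rw [e5, e6]
        have e7 : (3 : ℝ) ^ (n * (2 * (i + 1) + 1)) = 9 ^ n * 3 ^ (n * (2 * i + 1)) := by
          rw [show (9 : ℝ) = 3 ^ 2 by norm_num, ← pow_mul, ← pow_add]
          congr 1; ring
        rw [e7]
        have e8 := mul_le_mul_of_nonneg_left e4
          (by positivity : (0 : ℝ) ≤ (2 * ((i + 1 : ℕ) : ℝ) + 1) * (2 * ((i + 1 : ℕ) : ℝ)) * 9 ^ n)
        refine e8.trans (le_of_eq ?_)
        ring
    have e9 : 1 / (9 * 9 ^ n) * Xr 0 (2 * n - 1) (2 * i + 1 + 2)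
        ≤ 3 ^ (n * (2 * i + 1)) * L * (1 / 9 * PP (i + 1)) := by
      have e10 : 2 * i + 1 + 2 = 2 * (i + 1) + 1 := by ring
      rw [e10]
      have e11 : (3 : ℝ) ^ (n * (2 * (i + 1) + 1)) = 9 ^ n * 3 ^ (n * (2 * i + 1)) := by
        rw [show (9 : ℝ) = 3 ^ 2 by norm_num, ← pow_mul, ← pow_add]
        congr 1; ring
      rw [e11] at e2
      have e12 := mul_le_mul_of_nonneg_left e2 (by positivity : (0 : ℝ) ≤ 1 / (9 * 9 ^ n))
      refine e12.trans (le_of_eq ?_)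
      field_simp
    have e13 := mul_le_mul_of_nonneg_left e1 (by positivity : (0 : ℝ) ≤ (4 * (i : ℝ) + 3) / 3)
    have e14 := mul_le_mul_of_nonneg_left (PP_super i)
      (by positivity : (0 : ℝ) ≤ 3 ^ (n * (2 * i + 1)) * L)
    have e15 : (3 : ℝ) ^ ((n + 1) * (2 * i + 1)) = 3 ^ (n * (2 * i + 1)) * 3 ^ (2 * i + 1) := by
      rw [← pow_add]; congr 1; ring
    rw [e15, pow_succ (727 / 2000 : ℝ) m, ← hL]
    have ec : ((2 * i + 1 : ℕ) : ℝ) = 2 * (i : ℝ) + 1 := by push_cast; ring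
    rw [ec]
    have e16 : (2 * (i : ℝ) + 1) * (2 * i + 1 - 1) = (2 * (i : ℝ) + 1) * (2 * i) := by ring
    have e17 : (2 * (2 * (i : ℝ) + 1) + 1) / 3 = (4 * i + 3) / 3 := by ring
    rw [e16, e17]
    nlinarith

/-- the number of weighted perfect matchings of the chain -/
theorem MF_bound (n : ℕ) (hn : 3 ≤ n) :
    MF 0 (Ch n) (range (2 * n)) ≤ 29 / 243 * (727 / 2000) ^ (n - 3) := by
  obtain ⟨m, rfl⟩ : ∃ m, n = m + 3 := ⟨n - 3, by omega⟩
  rw [MF_Ch 0 (m + 3) (by omega)]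
  have h := Xr_bound m 0
  simp only [mul_zero, zero_add, mul_one] at h
  rw [zero_mul, zero_add, Nat.add_sub_cancel]
  have h2 : (0 : ℝ) < 1 / 3 ^ (m + 3) := by positivity
  have h3 := mul_le_mul_of_nonneg_left h h2.le
  refine h3.trans (le_of_eq ?_)
  rw [show PP 0 = 29 / 243 from rfl]
  field_simp

end Pool.Agent.H32R2.KH
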