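import Pool.Agent.H32R2.KH.MF

set_option autoImplicit false

namespace Pool.Agent.H32R2.KH

open Finset

/-- level of a vertex -/
def lev (x : ℕ) : ℕ := max 1 ((x + 1) / 2)

/-- weight of a vertex -/
noncomputable def om (x : ℕ) : ℝ := 3 ^ lev x

lemma om_pos (x : ℕ) : 0 < om x := by unfold om; positivity

lemma om_ne (x : ℕ) : om x ≠ 0 := (om_pos x).ne'

/-- the infinite chain -/
noncomputable def be (x y : ℕ) : ℝ := if x = y then 0 else om (min x y) / (3 * om (max x y))

/-- the chain with `2 n` vertices -/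
noncomputable def Ch (n : ℕ) (x y : ℕ) : ℝ :=
  if x = y then 0 else
    if max x y = 2 * n - 1 then om (min x y) / om (max x y) else om (min x y) / (3 * om (max x y))

lemma be_symm (x y : ℕ) : be x y = be y x := by
  unfold be; rw [min_comm, max_comm]
  by_cases h : x = y
  · rw [if_pos h, if_pos h.symm]
  · rw [if_neg h, if_neg (Ne.symm h)]

lemma Ch_symm (n x y : ℕ) : Ch n x y = Ch n y x := by
  unfold Ch; rw [min_comm, max_comm]
  by_cases h : x = y
  · rw [if_pos h, if_pos h.symm]
  · rw [if_neg h, if_neg (Ne.symm h)]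

lemma be_nonneg (x y : ℕ) : 0 ≤ be x y := by
  unfold be
  have := om_pos (min x y)
  have := om_pos (max x y)
  split_ifs <;> positivity

lemma Ch_nonneg (n x y : ℕ) : 0 ≤ Ch n x y := by
  unfold Ch
  have := om_pos (min x y)
  have := om_pos (max x y)
  split_ifs <;> positivity

/-- iterated weighted removal of a vertex -/
noncomputable def Ai : ℕ → (Finset ℕ → ℝ) → Finset ℕ → ℝ
  | 0, g, U => g U
  | s + 1, g, U => ∑ x ∈ U, om x * Ai s g (U.erase x)

lemma Ai_insert (z : ℝ) (s : ℕ) (a : ℕ) (U : Finset ℕ) (ha : ∀ x ∈ U, x < a) :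
    Ai s (MF z be) (insert a U) = z * Ai s (MF z be) U + s * om a * Ai (s - 1) (MF z be) U
      + 1 / (3 * om a) * Ai (s + 1) (MF z be) U := by
  have haU : ∀ W : Finset ℕ, (∀ x ∈ W, x < a) → a ∉ W := fun W h h' => lt_irrefl _ (h a h')
  induction s generalizing U with
  | zero =>
    simp only [Ai, Nat.cast_zero, zero_mul, add_zero]
    rw [MF_vertex z be be_symm _ (mem_insert_self a U), Finset.erase_insert (haU U ha),
      Finset.mul_sum]
    congr 1
    refine Finset.sum_congr rfl fun c hc => ?_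
    have hca := ha c hc
    have e1 : insert a U \ {a, c} = U.erase c := by
      ext x
      simp only [mem_sdiff, mem_insert, mem_singleton, not_or, mem_erase]
      constructor
      · rintro ⟨h | h, h1, h2⟩
        · exact absurd h h1
        · exact ⟨h2, h⟩
      · rintro ⟨h1, h2⟩
        exact ⟨Or.inr h2, fun h => haU U ha (h ▸ h2), h1⟩
    rw [e1]
    have e2 : be a c = 1 / (3 * om a) * om c := by
      unfold be
      rw [if_neg (ne_of_gt hca), min_eq_right hca.le, max_eq_left hca.le]
      have := om_ne a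
      field_simp
    rw [e2]; ring
  | succ s ih =>
    show ∑ x ∈ insert a U, om x * Ai s (MF z be) ((insert a U).erase x) = _
    rw [Finset.sum_insert (haU U ha), Finset.erase_insert (haU U ha)]
    have h1 : ∀ x ∈ U, om x * Ai s (MF z be) ((insert a U).erase x)
        = z * (om x * Ai s (MF z be) (U.erase x))
          + s * om a * (om x * Ai (s - 1) (MF z be) (U.erase x))
          + 1 / (3 * om a) * (om x * Ai (s + 1) (MF z be) (U.erase x)) := by
      intro x hx
      have e1 : (insert a U).erase x = insert a (U.erase x) := by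
        rw [Finset.erase_insert_of_ne (ne_of_gt (ha x hx))]
      rw [e1, ih (U.erase x) (fun y hy => ha y (mem_of_mem_erase hy))]
      ring
    rw [Finset.sum_congr rfl h1, Finset.sum_add_distrib, Finset.sum_add_distrib, ← Finset.mul_sum,
      ← Finset.mul_sum, ← Finset.mul_sum]
    have h2 : (s : ℝ) * om a * ∑ x ∈ U, om x * Ai (s - 1) (MF z be) (U.erase x)
        = s * om a * Ai s (MF z be) U := by
      rcases s with _ | s
      · simp
      · rfl
    rw [h2]
    show _ = z * (∑ x ∈ U, om x * Ai s (MF z be) (U.erase x))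
      + ((s + 1 : ℕ) : ℝ) * om a * Ai s (MF z be) U
      + 1 / (3 * om a) * ∑ x ∈ U, om x * Ai (s + 1) (MF z be) (U.erase x)
    push_cast
    ring

/-- the numbers computed by the recursion -/
noncomputable def Xr (z : ℝ) : ℕ → ℕ → ℝ
  | 0, 0 => 1
  | 0, _ + 1 => 0
  | N + 1, s => z * Xr z N s + s * om N * Xr z N (s - 1) + 1 / (3 * om N) * Xr z N (s + 1)

lemma Ai_empty (z : ℝ) (s : ℕ) : Ai s (MF z be) ∅ = Xr z 0 s := by
  rcases s with _ | s
  · simp [Ai, Xr, MF_empty]
  · simp [Ai, Xr]

lemma Ai_range (z : ℝ) (N s : ℕ) : Ai s (MF z be) (range N) = Xr z N s := by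
  induction N generalizing s with
  | zero => exact Ai_empty z s
  | succ N ih =>
    rw [Finset.range_add_one, Ai_insert z s N (range N) (fun x hx => mem_range.1 hx), ih, ih, ih]
    rfl

lemma MF_Ch (z : ℝ) (n : ℕ) (hn : 1 ≤ n) :
    MF z (Ch n) (range (2 * n)) = z * Xr z (2 * n - 1) 0 + 1 / 3 ^ n * Xr z (2 * n - 1) 1 := by
  obtain ⟨m, hm⟩ : ∃ m, 2 * n = m + 1 := ⟨2 * n - 1, by omega⟩
  have hm1 : 2 * n - 1 = m := by omega
  rw [hm1]
  have hmem : m ∈ range (2 * n) := mem_range.2 (by omega)
  have her : (range (2 * n)).erase m = range m := by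
    rw [hm, Finset.range_add_one, Finset.erase_insert (by simp)]
  have hom : om m = 3 ^ n := by
    unfold om lev
    congr 1
    have : (m + 1) / 2 = n := by omega
    rw [this, max_eq_right hn]
  have hcong : ∀ x ∈ range m, ∀ y ∈ range m, Ch n x y = be x y := by
    intro x hx y hy
    rw [mem_range] at hx hy
    unfold Ch be
    split_ifs with h1 h2
    · rfl
    · exfalso
      rw [hm1] at h2
      have := max_lt hx hy
      omega
    · rfl
  rw [MF_vertex z (Ch n) (Ch_symm n) _ hmem, her, MF_congr z _ _ _ hcong]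
  have h0 : MF z be (range m) = Xr z m 0 := by
    rw [← Ai_range]; rfl
  rw [h0]
  congr 1
  have h1 : ∀ c ∈ range m, Ch n m c * MF z (Ch n) (range (2 * n) \ {m, c})
      = 1 / 3 ^ n * (om c * MF z be ((range m).erase c)) := by
    intro c hc
    have hcm := mem_range.1 hc
    have e1 : range (2 * n) \ {m, c} = (range m).erase c := by
      ext x
      simp only [mem_sdiff, mem_insert, mem_singleton, not_or, mem_erase, mem_range]
      omega
    rw [e1, MF_congr z (Ch n) be]
    · unfold Ch
      rw [if_neg (ne_of_gt hcm), max_eq_left hcm.le, if_pos hm1.symm, min_eq_right hcm.le, hom]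
      ring
    · intro x hx y hy
      exact hcong x (mem_of_mem_erase hx) y (mem_of_mem_erase hy)
  rw [Finset.sum_congr rfl h1, ← Finset.mul_sum]
  congr 1
  rw [← Ai_range]
  rfl

lemma Xr_cont (N s : ℕ) : Continuous fun z => Xr z N s := by
  induction N generalizing s with
  | zero =>
    rcases s with _ | s
    · simpa [Xr] using continuous_const
    · simpa [Xr] using continuous_const
  | succ N ih =>
    have h1 := ih s
    have h2 := ih (s - 1)
    have h3 := ih (s + 1)
    show Continuous fun z => z * Xr z N s + s * om N * Xr z N (s - 1)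
      + 1 / (3 * om N) * Xr z N (s + 1)
    fun_prop

lemma Xr_zero (z : ℝ) (N s : ℕ) (h : N < s) : Xr z N s = 0 := by
  induction N generalizing s with
  | zero =>
    rcases s with _ | s
    · omega
    · rfl
  | succ N ih =>
    show z * Xr z N s + s * om N * Xr z N (s - 1) + 1 / (3 * om N) * Xr z N (s + 1) = 0
    rw [ih s (by omega), ih (s - 1) (by omega), ih (s + 1) (by omega)]
    ring

lemma Xr_nonneg (z : ℝ) (hz : 0 ≤ z) (N s : ℕ) : 0 ≤ Xr z N s := by
  induction N generalizing s with
  | zero =>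
    rcases s with _ | s
    · simp [Xr]
    · simp [Xr]
  | succ N ih =>
    show 0 ≤ z * Xr z N s + s * om N * Xr z N (s - 1) + 1 / (3 * om N) * Xr z N (s + 1)
    have h1 := ih s
    have h2 := ih (s - 1)
    have h3 := ih (s + 1)
    have := om_pos N
    positivity

/-- the two step recursion at `z = 0` -/
lemma Xr_two (j : ℕ) (hj : 1 ≤ j) (s : ℕ) :
    Xr 0 (2 * j + 1) s = s * (s - 1) * 9 ^ j * Xr 0 (2 * j - 1) (s - 2)
      + (2 * s + 1) / 3 * Xr 0 (2 * j - 1) s + 1 / (9 * 9 ^ j) * Xr 0 (2 * j - 1) (s + 2) := by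
  obtain ⟨m, hm⟩ : ∃ m, 2 * j = m + 1 := ⟨2 * j - 1, by omega⟩
  have hm1 : 2 * j - 1 = m := by omega
  have o1 : om m = 3 ^ j := by
    unfold om lev; congr 1
    have : (m + 1) / 2 = j := by omega
    rw [this, max_eq_right hj]
  have o2 : om (m + 1) = 3 ^ j := by
    unfold om lev; congr 1
    have : (m + 1 + 1) / 2 = j := by omega
    rw [this, max_eq_right hj]
  rw [hm1, hm]
  have r1 : ∀ t, Xr 0 (m + 1) t = t * 3 ^ j * Xr 0 m (t - 1) + 1 / (3 * 3 ^ j) * Xr 0 m (t + 1) := by
    intro t
    show 0 * Xr 0 m t + t * om m * Xr 0 m (t - 1) + 1 / (3 * om m) * Xr 0 m (t + 1) = _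
    rw [o1]; ring
  show 0 * Xr 0 (m + 1) s + s * om (m + 1) * Xr 0 (m + 1) (s - 1)
    + 1 / (3 * om (m + 1)) * Xr 0 (m + 1) (s + 1) = _
  rw [o2, r1 (s - 1), r1 (s + 1), zero_mul, zero_add]
  have e9 : (9 : ℝ) ^ j = 3 ^ j * 3 ^ j := by rw [← mul_pow]; norm_num
  rcases s with _ | s
  · simp only [Nat.cast_zero, zero_mul, zero_add, Nat.reduceAdd, Nat.reduceSub]
    rw [e9]
    push_cast
    field_simp
    ring
  · have e1 : s + 1 - 1 = s := rfl
    have e2 : s + 1 - 2 = s - 1 := by omega
    have e3 : s + 1 + 1 - 1 = s + 1 := rfl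
    rw [e1, e2, e3, e9]
    push_cast
    field_simp
    ring

end Pool.Agent.H32R2.KH
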