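import Mathlib

set_option autoImplicit false

namespace Pool.Agent.H32R2.KH

open Finset

variable {V : Type*} [DecidableEq V]

/-- One step of the ordered matching recursion. -/
def T (b : V → V → ℝ) (g : Finset V → ℝ) (U : Finset V) : ℝ :=
  ∑ p ∈ U.offDiag, b p.1 p.2 * g (U \ {p.1, p.2})

/-- Ordered matching sums: `H b k U = 2^k k! haf_k (b restricted to U)`. -/
def H (b : V → V → ℝ) : ℕ → Finset V → ℝ
  | 0, _ => 1
  | k + 1, U => T b (H b k) U

/-- Iterates of `T`. -/
def Ti (b : V → V → ℝ) : ℕ → (Finset V → ℝ) → Finset V → ℝ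
  | 0, g, U => g U
  | k + 1, g, U => T b (Ti b k g) U

/-- General removal operator. -/
def X {ι : Type*} (I : Finset ι) (m : ι → Finset V) (ψ : ι → ℝ) (g : Finset V → ℝ)
    (U : Finset V) : ℝ :=
  ∑ i ∈ I with m i ⊆ U, ψ i * g (U \ m i)

lemma H_eq_Ti (b : V → V → ℝ) (k : ℕ) (U : Finset V) : H b k U = Ti b k (fun _ => 1) U := by
  induction k generalizing U with
  | zero => rfl
  | succ k ih =>
    simp only [H, Ti, T]
    refine Finset.sum_congr rfl fun p _ => ?_
    rw [ih]

lemma X_comm {ι κ : Type*} (I : Finset ι) (m : ι → Finset V) (ψ : ι → ℝ)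
    (K : Finset κ) (m' : κ → Finset V) (φ : κ → ℝ) (g : Finset V → ℝ) (U : Finset V) :
    X I m ψ (X K m' φ g) U = X K m' φ (X I m ψ g) U := by
  unfold X
  simp only [Finset.mul_sum]
  rw [Finset.sum_comm' (s := I.filter fun i => m i ⊆ U)
    (t := fun i => K.filter fun j => m' j ⊆ U \ m i)
    (t' := K.filter fun j => m' j ⊆ U) (s' := fun j => I.filter fun i => m i ⊆ U \ m' j)]
  · refine Finset.sum_congr rfl fun j _ => Finset.sum_congr rfl fun i _ => ?_
    rw [show (U \ m i) \ m' j = (U \ m' j) \ m i by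
      rw [sdiff_sdiff_left, sdiff_sdiff_left, sup_comm]]
    ring
  · intro i j
    simp only [Finset.mem_filter, Finset.subset_sdiff]
    constructor
    · rintro ⟨⟨h1, h2⟩, h3, h4, h5⟩
      exact ⟨⟨h1, h2, h5.symm⟩, h3, h4⟩
    · rintro ⟨⟨h1, h2, h5⟩, h3, h4⟩
      exact ⟨⟨h1, h2⟩, h3, h4, h5.symm⟩

section fintype

variable [Fintype V]

lemma T_eq_X (b : V → V → ℝ) (g : Finset V → ℝ) (U : Finset V) :
    T b g U = X (univ : Finset V).offDiag (fun p => {p.1, p.2}) (fun p => b p.1 p.2) g U := by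
  unfold T X
  refine Finset.sum_congr ?_ fun _ _ => rfl
  ext p
  simp only [mem_offDiag, mem_filter, mem_univ, true_and, Finset.insert_subset_iff,
    Finset.singleton_subset_iff]
  tauto

lemma T_eq_X' (b : V → V → ℝ) (g : Finset V → ℝ) :
    T b g = X (univ : Finset V).offDiag (fun p => {p.1, p.2}) (fun p => b p.1 p.2) g :=
  funext fun U => T_eq_X b g U

lemma Ti_X {ι : Type*} (b : V → V → ℝ) (I : Finset ι) (m : ι → Finset V) (ψ : ι → ℝ)
    (g : Finset V → ℝ) (r : ℕ) (U : Finset V) :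
    Ti b r (X I m ψ g) U = X I m ψ (Ti b r g) U := by
  induction r generalizing U with
  | zero => rfl
  | succ r ih =>
    have h : Ti b r (X I m ψ g) = X I m ψ (Ti b r g) := funext ih
    show T b (Ti b r (X I m ψ g)) U = X I m ψ (T b (Ti b r g)) U
    rw [h, T_eq_X, X_comm, T_eq_X']

lemma Ti_T (b c : V → V → ℝ) (g : Finset V → ℝ) (r : ℕ) (U : Finset V) :
    Ti b r (T c g) U = T c (Ti b r g) U := by
  rw [T_eq_X', Ti_X, T_eq_X]

end fintype

lemma Ti_succ' (b : V → V → ℝ) (g : Finset V → ℝ) (r : ℕ) (U : Finset V) :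
    Ti b (r + 1) g U = Ti b r (T b g) U := by
  induction r generalizing U with
  | zero => rfl
  | succ r ih =>
    show T b (Ti b (r + 1) g) U = T b (Ti b r (T b g)) U
    exact Finset.sum_congr rfl fun p _ => by rw [ih]

/-- `Ti` only sees sets of cardinality `|U| - 2r`. -/
lemma Ti_mono (b : V → V → ℝ) (hb : ∀ a c, 0 ≤ b a c) (g g' : Finset V → ℝ) (r : ℕ)
    (U : Finset V) (h : ∀ W, W ⊆ U → W.card + 2 * r = U.card → g W ≤ g' W) :
    Ti b r g U ≤ Ti b r g' U := by
  induction r generalizing U with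
  | zero => exact h U (Finset.Subset.refl U) (by simp)
  | succ r ih =>
    show T b (Ti b r g) U ≤ T b (Ti b r g') U
    unfold T
    refine Finset.sum_le_sum fun p hp => mul_le_mul_of_nonneg_left ?_ (hb _ _)
    refine ih _ fun W hW hc => ?_
    rw [mem_offDiag] at hp
    have hsub : ({p.1, p.2} : Finset V) ⊆ U := by
      intro x hx
      simp only [mem_insert, mem_singleton] at hx
      rcases hx with rfl | rfl
      · exact hp.1
      · exact hp.2.1
    have hcard : (U \ {p.1, p.2}).card + 2 = U.card := by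
      rw [← Finset.card_sdiff_add_card_eq_card hsub, Finset.card_pair hp.2.2]
    exact h W (hW.trans Finset.sdiff_subset) (by omega)

lemma Ti_congr (b : V → V → ℝ) (g g' : Finset V → ℝ) (r : ℕ)
    (U : Finset V) (h : ∀ W, W ⊆ U → W.card + 2 * r = U.card → g W = g' W) :
    Ti b r g U = Ti b r g' U := by
  induction r generalizing U with
  | zero => exact h U (Finset.Subset.refl U) (by simp)
  | succ r ih =>
    show T b (Ti b r g) U = T b (Ti b r g') U
    unfold T
    refine Finset.sum_congr rfl fun p hp => ?_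
    congr 1
    refine ih _ fun W hW hc => ?_
    rw [mem_offDiag] at hp
    have hsub : ({p.1, p.2} : Finset V) ⊆ U := by
      intro x hx
      simp only [mem_insert, mem_singleton] at hx
      rcases hx with rfl | rfl
      · exact hp.1
      · exact hp.2.1
    have hcard : (U \ {p.1, p.2}).card + 2 = U.card := by
      rw [← Finset.card_sdiff_add_card_eq_card hsub, Finset.card_pair hp.2.2]
    exact h W (hW.trans Finset.sdiff_subset) (by omega)

lemma Ti_add (b : V → V → ℝ) (g g' : Finset V → ℝ) (r : ℕ) (U : Finset V) :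
    Ti b r (fun W => g W + g' W) U = Ti b r g U + Ti b r g' U := by
  induction r generalizing U with
  | zero => rfl
  | succ r ih =>
    show T b (Ti b r _) U = T b (Ti b r g) U + T b (Ti b r g') U
    unfold T
    rw [← Finset.sum_add_distrib]
    exact Finset.sum_congr rfl fun p _ => by rw [ih]; ring

lemma Ti_smul (b : V → V → ℝ) (c : ℝ) (g : Finset V → ℝ) (r : ℕ) (U : Finset V) :
    Ti b r (fun W => c * g W) U = c * Ti b r g U := by
  induction r generalizing U with
  | zero => rfl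
  | succ r ih =>
    show T b (Ti b r _) U = c * T b (Ti b r g) U
    unfold T
    rw [Finset.mul_sum]
    exact Finset.sum_congr rfl fun p _ => by rw [ih]; ring

lemma H_nonneg (b : V → V → ℝ) (hb : ∀ a c, 0 ≤ b a c) (k : ℕ) (U : Finset V) :
    0 ≤ H b k U := by
  induction k generalizing U with
  | zero => simp [H]
  | succ k ih => exact Finset.sum_nonneg fun p _ => mul_nonneg (hb _ _) (ih _)

lemma offDiag_erase_split (U : Finset V) {a : V} (ha : a ∈ U) (f : V × V → ℝ) :
    ∑ p ∈ U.offDiag, f p = ∑ p ∈ (U.erase a).offDiag, f p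
      + ∑ c ∈ U.erase a, (f (a, c) + f (c, a)) := by
  have h : U.offDiag = (U.erase a).offDiag ∪ ((U.erase a).image (fun c => (a, c)) ∪
      (U.erase a).image (fun c => (c, a))) := by
    ext ⟨x, y⟩
    simp only [mem_offDiag, mem_union, mem_image, mem_erase, Prod.mk.injEq]
    constructor
    · rintro ⟨hx, hy, hxy⟩
      by_cases h1 : x = a
      · right; left; exact ⟨y, ⟨fun h => hxy (h1.trans h.symm), hy⟩, h1.symm, rfl⟩
      · by_cases h2 : y = a
        · right; right; exact ⟨x, ⟨h1, hx⟩, rfl, h2.symm⟩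
        · left; exact ⟨⟨h1, hx⟩, ⟨h2, hy⟩, hxy⟩
    · rintro (⟨⟨_, hx⟩, ⟨_, hy⟩, hxy⟩ | ⟨c, ⟨hc, hcU⟩, rfl, rfl⟩ | ⟨c, ⟨hc, hcU⟩, rfl, rfl⟩)
      · exact ⟨hx, hy, hxy⟩
      · exact ⟨ha, hcU, Ne.symm hc⟩
      · exact ⟨hcU, ha, hc⟩
  have hd1 : Disjoint (U.erase a).offDiag ((U.erase a).image (fun c => (a, c)) ∪
      (U.erase a).image (fun c => (c, a))) := by
    rw [Finset.disjoint_left]
    rintro ⟨x, y⟩ h1 h2
    simp only [mem_offDiag, mem_union, mem_image, mem_erase, Prod.mk.injEq] at h1 h2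
    rcases h2 with ⟨c, _, rfl, _⟩ | ⟨c, _, _, rfl⟩
    · exact h1.1.1 rfl
    · exact h1.2.1.1 rfl
  have hd2 : Disjoint ((U.erase a).image (fun c => (a, c))) ((U.erase a).image (fun c => (c, a))) := by
    rw [Finset.disjoint_left]
    rintro ⟨x, y⟩ h1 h2
    simp only [mem_image, mem_erase, Prod.mk.injEq] at h1 h2
    obtain ⟨c, ⟨hc, _⟩, rfl, rfl⟩ := h1
    obtain ⟨d, ⟨hd, _⟩, hd1, _⟩ := h2
    exact hd hd1
  rw [h, Finset.sum_union hd1, Finset.sum_union hd2, Finset.sum_image, Finset.sum_image,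
    Finset.sum_add_distrib]
  · intro x _ y _ hxy; simpa using hxy
  · intro x _ y _ hxy; simpa using hxy

/-- The vertex recursion. -/
lemma H_vertex (b : V → V → ℝ) (hs : ∀ a c, b a c = b c a) (k : ℕ) (U : Finset V) {a : V}
    (ha : a ∈ U) :
    H b (k + 1) U = H b (k + 1) (U.erase a)
      + 2 * (k + 1) * ∑ c ∈ U.erase a, b a c * H b k (U \ {a, c}) := by
  induction k generalizing U with
  | zero =>
    show T b (H b 0) U = T b (H b 0) (U.erase a) + _
    unfold T
    rw [offDiag_erase_split U ha, Finset.mul_sum]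
    simp only [H]
    congr 1
    refine Finset.sum_congr rfl fun c _ => ?_
    rw [hs c a]; push_cast; ring
  | succ k ih =>
    show T b (H b (k + 1)) U = T b (H b (k + 1)) (U.erase a) + _
    unfold T
    rw [offDiag_erase_split U ha]
    -- the pairs avoiding a
    have h1 : ∀ p ∈ (U.erase a).offDiag, b p.1 p.2 * H b (k + 1) (U \ {p.1, p.2})
        = b p.1 p.2 * H b (k + 1) (U.erase a \ {p.1, p.2})
          + 2 * (k + 1) * ∑ c ∈ (U.erase a) \ {p.1, p.2},
              b p.1 p.2 * (b a c * H b k ((U \ {a, c}) \ {p.1, p.2})) := by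
      intro p hp
      rw [mem_offDiag, mem_erase, mem_erase] at hp
      have ha' : a ∈ U \ {p.1, p.2} := by
        simp only [mem_sdiff, mem_insert, mem_singleton, not_or]
        exact ⟨ha, fun h => hp.1.1 h.symm, fun h => hp.2.1.1 h.symm⟩
      rw [ih _ ha', mul_add]
      have e1 : (U \ {p.1, p.2}).erase a = U.erase a \ {p.1, p.2} := by
        ext x; simp only [mem_erase, mem_sdiff]; tauto
      rw [e1]
      congr 1
      rw [← Finset.mul_sum]
      have : ∀ c, (U \ {p.1, p.2}) \ {a, c} = (U \ {a, c}) \ {p.1, p.2} := by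
        intro c; rw [sdiff_sdiff_left, sdiff_sdiff_left, sup_comm]
      simp only [this]
      ring
    rw [Finset.sum_congr rfl h1, Finset.sum_add_distrib, ← Finset.mul_sum]
    have h2 : ∑ p ∈ (U.erase a).offDiag, ∑ c ∈ (U.erase a) \ {p.1, p.2},
              b p.1 p.2 * (b a c * H b k ((U \ {a, c}) \ {p.1, p.2}))
        = ∑ c ∈ U.erase a, b a c * H b (k + 1) (U \ {a, c}) := by
      rw [Finset.sum_comm' (s' := fun c => (U \ {a, c}).offDiag) (t' := U.erase a)]
      · refine Finset.sum_congr rfl fun c _ => ?_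
        show _ = b a c * T b (H b k) (U \ {a, c})
        unfold T
        rw [Finset.mul_sum]
        exact Finset.sum_congr rfl fun p _ => by ring
      · rintro ⟨x, y⟩ c
        simp only [mem_offDiag, mem_erase, mem_sdiff, mem_insert, mem_singleton, not_or]
        constructor
        · rintro ⟨⟨⟨h1, h2⟩, ⟨h3, h4⟩, h5⟩, ⟨h6, h7⟩, h8, h9⟩
          exact ⟨⟨⟨h2, h1, Ne.symm h8⟩, ⟨h4, h3, Ne.symm h9⟩, h5⟩, h6, h7⟩
        · rintro ⟨⟨⟨h2, h1, h8⟩, ⟨h4, h3, h9⟩, h5⟩, h6, h7⟩
          exact ⟨⟨⟨h1, h2⟩, ⟨h3, h4⟩, h5⟩, ⟨h6, h7⟩, Ne.symm h8, Ne.symm h9⟩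
    rw [h2]
    have h3 : ∑ c ∈ U.erase a, (b (a, c).1 (a, c).2 * H b (k + 1) (U \ {(a, c).1, (a, c).2})
        + b (c, a).1 (c, a).2 * H b (k + 1) (U \ {(c, a).1, (c, a).2}))
        = 2 * ∑ c ∈ U.erase a, b a c * H b (k + 1) (U \ {a, c}) := by
      rw [Finset.mul_sum]
      refine Finset.sum_congr rfl fun c _ => ?_
      simp only
      rw [hs c a, Finset.pair_comm c a]; ring
    rw [h3]
    push_cast
    ring

end Pool.Agent.H32R2.KH
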