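import Pool.Agent.H32R2.KH.Perf

set_option autoImplicit false

namespace Pool.Agent.H32R2.KH

open Finset

/-- truncation -/
noncomputable def tr (n : ℕ) (B : ℕ → ℕ → ℝ) : ℕ → ℕ → ℝ :=
  fun i k => if i < 2 * n ∧ k < 2 * n then B i k else 0

/-- shift -/
noncomputable def sh (m : ℕ) (B : ℕ → ℕ → ℝ) : ℕ → ℕ → ℝ :=
  fun i k => if 2 * m ≤ i ∧ 2 * m ≤ k then B (i - 2 * m) (k - 2 * m) else 0

/-- direct sum -/
noncomputable def ds (m : ℕ) (B C : ℕ → ℕ → ℝ) : ℕ → ℕ → ℝ :=
  fun i k => if i < 2 * m ∧ k < 2 * m then B i k else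
    if 2 * m ≤ i ∧ 2 * m ≤ k then C (i - 2 * m) (k - 2 * m) else 0

lemma PMon_ds (m n : ℕ) {A C : ℕ → ℕ → ℝ} (hA : A ∈ PMon (range (2 * m)))
    (hC : C ∈ PMon (range (2 * n))) : A + sh m C ∈ PMon (range (2 * (m + n))) := by
  obtain ⟨σ, h, rfl⟩ := hA
  obtain ⟨τ, g, rfl⟩ := hC
  simp only [mem_range] at h g
  refine ⟨fun i => if i < 2 * m then σ i else τ (i - 2 * m) + 2 * m, ?_, ?_⟩
  · intro i hi
    simp only [mem_range] at hi ⊢
    by_cases h1 : i < 2 * m
    · obtain ⟨h2, h3, h4⟩ := h i h1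
      simp only [h1, h2, if_true]
      exact ⟨by omega, h3, h4⟩
    · obtain ⟨h2, h3, h4⟩ := g (i - 2 * m) (by omega)
      simp only [h1, if_false]
      rw [if_neg (by omega), Nat.add_sub_cancel, h3]
      exact ⟨by omega, by omega, by omega⟩
  · funext i j
    simp only [Pi.add_apply, sh, mem_range]
    by_cases h1 : i < 2 * m
    · have h2 : ¬ 2 * m ≤ i := by omega
      have h3 : i < 2 * (m + n) := by omega
      simp only [h1, h2, h3, if_true, false_and, if_false, add_zero, true_and]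
    · by_cases h4 : 2 * m ≤ j
      · have h2 : 2 * m ≤ i := by omega
        simp only [h1, h2, h4, false_and, true_and, if_false, if_true, zero_add, and_self]
        refine if_congr ?_ rfl rfl
        constructor
        · rintro ⟨h5, h6⟩; exact ⟨by omega, by omega⟩
        · rintro ⟨h5, h6⟩; exact ⟨by omega, by omega⟩
      · simp only [h1, h4, false_and, and_false, if_false, add_zero]
        rw [if_neg]
        rintro ⟨h5, h6⟩
        omega

lemma KK_ds (m n : ℕ) {A C : ℕ → ℕ → ℝ} (hA : A ∈ KK (range (2 * m)))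
    (hC : C ∈ KK (range (2 * n))) : A + sh m C ∈ KK (range (2 * (m + n))) := by
  have step1 : ∀ C ∈ PMon (range (2 * n)), A + sh m C ∈ KK (range (2 * (m + n))) := by
    intro C hC
    have h1 : Convex ℝ {A : ℕ → ℕ → ℝ | A + sh m C ∈ KK (range (2 * (m + n)))} := by
      intro A hA B hB s t hs ht hst
      have h2 : s • (A + sh m C) + t • (B + sh m C) ∈ KK (range (2 * (m + n))) :=
        (convex_convexHull ℝ _) hA hB hs ht hst
      have e : s • A + t • B + sh m C = s • (A + sh m C) + t • (B + sh m C) := by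
        rw [smul_add, smul_add, add_add_add_comm, ← add_smul, hst, one_smul]
      show s • A + t • B + sh m C ∈ KK _
      rw [e]
      exact h2
    refine convexHull_min (fun B hB => ?_) h1 hA
    show B + sh m C ∈ KK _
    exact subset_convexHull ℝ _ (PMon_ds m n hB hC)
  have h1 : Convex ℝ {C : ℕ → ℕ → ℝ | A + sh m C ∈ KK (range (2 * (m + n)))} := by
    intro B hB C hC s t hs ht hst
    have h2 : s • (A + sh m B) + t • (A + sh m C) ∈ KK (range (2 * (m + n))) :=
      (convex_convexHull ℝ _) hB hC hs ht hst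
    have e : A + sh m (s • B + t • C) = s • (A + sh m B) + t • (A + sh m C) := by
      rw [smul_add, smul_add, add_add_add_comm, ← add_smul, hst, one_smul]
      congr 1
      funext i k
      simp only [sh, Pi.add_apply, Pi.smul_apply, smul_eq_mul]
      split_ifs <;> ring
    show A + sh m (s • B + t • C) ∈ KK _
    rw [e]
    exact h2
  exact convexHull_min (fun B hB => step1 B hB) h1 hC

lemma tr_ds (m n : ℕ) (B C : ℕ → ℕ → ℝ) :
    tr (m + n) (ds m B C) = tr m B + sh m (tr n C) := by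
  funext i k
  simp only [tr, ds, sh, Pi.add_apply]
  by_cases h1 : i < 2 * m ∧ k < 2 * m
  · have h2 : i < 2 * (m + n) ∧ k < 2 * (m + n) := by omega
    have h3 : ¬ (2 * m ≤ i ∧ 2 * m ≤ k) := by omega
    simp only [h1, h2, h3, and_self, if_true, if_false, add_zero]
  · by_cases h3 : 2 * m ≤ i ∧ 2 * m ≤ k
    · by_cases h4 : i < 2 * (m + n) ∧ k < 2 * (m + n)
      · have h5 : i - 2 * m < 2 * n ∧ k - 2 * m < 2 * n := by omega
        simp only [h1, h3, h4, h5, and_self, if_true, if_false, zero_add]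
      · have h5 : ¬ (i - 2 * m < 2 * n ∧ k - 2 * m < 2 * n) := by omega
        simp only [h1, h3, h4, h5, and_self, if_true, if_false, zero_add]
    · simp only [h1, h3, if_false, ite_self, add_zero]

/-- good functions -/
structure Nice (n : ℕ) (B : ℕ → ℕ → ℝ) : Prop where
  symm : ∀ a c, B a c = B c a
  nonneg : ∀ a c, 0 ≤ B a c
  mem : tr n B ∈ KK (range (2 * n))

lemma Nice.rest {n : ℕ} {B : ℕ → ℕ → ℝ} (h : Nice n B) :
    Pool.Agent.H32R2.KH.rest n B ∈ Psi n := by
  have h := rest_mem h.mem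
  have e : Pool.Agent.H32R2.KH.rest n (tr n B) = Pool.Agent.H32R2.KH.rest n B := by
    funext i k
    show (if (i : ℕ) < 2 * n ∧ (k : ℕ) < 2 * n then B i k else 0) = B i k
    rw [if_pos ⟨i.2, k.2⟩]
  rw [e] at h
  exact h

lemma Nice.ds {m n : ℕ} {B C : ℕ → ℕ → ℝ} (hB : Nice m B) (hC : Nice n C) :
    Nice (m + n) (ds m B C) := by
  refine ⟨fun a c => ?_, fun a c => ?_, ?_⟩
  · unfold Pool.Agent.H32R2.KH.ds
    rw [hB.symm a c, hC.symm (a - 2 * m) (c - 2 * m)]
    refine if_congr and_comm rfl (if_congr and_comm rfl rfl)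
  · unfold Pool.Agent.H32R2.KH.ds
    split_ifs
    · exact hB.nonneg _ _
    · exact hC.nonneg _ _
    · exact le_rfl
  · rw [tr_ds]
    exact KK_ds m n hB.mem hC.mem

lemma MF_ds (z : ℝ) {m n : ℕ} {B C : ℕ → ℕ → ℝ} (hB : Nice m B) (hC : Nice n C) :
    MF z (ds m B C) (range (2 * (m + n))) = MF z B (range (2 * m)) * MF z C (range (2 * n)) := by
  have h1 : range (2 * (m + n))
      = range (2 * m) ∪ (range (2 * n)).map (addRightEmbedding (2 * m)) := by
    ext x
    simp only [mem_union, mem_range, mem_map, addRightEmbedding_apply]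
    constructor
    · intro h
      by_cases hx : x < 2 * m
      · exact Or.inl hx
      · exact Or.inr ⟨x - 2 * m, by omega, by omega⟩
    · rintro (h | ⟨y, hy, rfl⟩) <;> omega
  have h2 : Disjoint (range (2 * m)) ((range (2 * n)).map (addRightEmbedding (2 * m))) := by
    rw [Finset.disjoint_left]
    intro x hx h
    simp only [mem_range, mem_map, addRightEmbedding_apply] at hx h
    obtain ⟨y, hy, rfl⟩ := h
    omega
  rw [h1, MF_union z _ (hB.ds hC).symm _ _ h2, MF_map]
  · congr 1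
    · refine MF_congr z _ _ _ fun a ha c hc => ?_
      rw [mem_range] at ha hc
      unfold ds
      rw [if_pos ⟨ha, hc⟩]
    · refine MF_congr z _ _ _ fun a ha c hc => ?_
      simp only [addRightEmbedding_apply]
      unfold ds
      rw [if_neg (by omega), if_pos (by omega), Nat.add_sub_cancel, Nat.add_sub_cancel]
  · intro a ha c hc
    simp only [mem_range, mem_map, addRightEmbedding_apply] at ha hc
    obtain ⟨y, hy, rfl⟩ := hc
    unfold ds
    rw [if_neg (by omega), if_neg (by omega)]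

lemma Nice_Ch (n : ℕ) (hn : 1 ≤ n) : Nice n (Ch n) :=
  ⟨Ch_symm n, Ch_nonneg n, Ch_KK n hn⟩

lemma Nice_zero : Nice 0 (fun _ _ => 0) := by
  refine ⟨fun _ _ => rfl, fun _ _ => le_rfl, subset_convexHull ℝ _ ⟨id, ?_, ?_⟩⟩
  · intro i hi; simp at hi
  · funext i j; simp [tr]

lemma MF_edge (z : ℝ) : MF z (Ch 1) (range (2 * 1)) = 1 + z ^ 2 := by
  rw [MF_Ch z 1 le_rfl]
  simp [Xr, om, lev]
  ring

lemma exists_edges (r : ℕ) : ∃ B, Nice r B ∧ ∀ z, MF z B (range (2 * r)) = (1 + z ^ 2) ^ r := by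
  induction r with
  | zero =>
    refine ⟨_, Nice_zero, fun z => ?_⟩
    simp [MF_empty]
  | succ r ih =>
    obtain ⟨B, h1, h2⟩ := ih
    refine ⟨ds 1 (Ch 1) B, ?_, fun z => ?_⟩
    · have := (Nice_Ch 1 le_rfl).ds h1
      rwa [add_comm 1 r] at this
    · rw [add_comm r 1, MF_ds z (Nice_Ch 1 le_rfl) h1, MF_edge, h2, add_comm 1 r, pow_succ]
      ring

lemma exists_blocks (m : ℕ) (hm : 1 ≤ m) (q r : ℕ) : ∃ B, Nice (m * q + r) B ∧
    ∀ z, MF z B (range (2 * (m * q + r)))
      = MF z (Ch m) (range (2 * m)) ^ q * (1 + z ^ 2) ^ r := by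
  induction q with
  | zero =>
    obtain ⟨B, h1, h2⟩ := exists_edges r
    refine ⟨B, by simpa using h1, fun z => ?_⟩
    simp [h2]
  | succ q ih =>
    obtain ⟨B, h1, h2⟩ := ih
    have e : m * (q + 1) + r = m + (m * q + r) := by ring
    refine ⟨ds m (Ch m) B, ?_, fun z => ?_⟩
    · rw [e]; exact (Nice_Ch m hm).ds h1
    · rw [e, MF_ds z (Nice_Ch m hm) h1, h2, pow_succ]
      ring

end Pool.Agent.H32R2.KH
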