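import Mathlib

set_option autoImplicit false

namespace Pool.Agent.H32R2.KH

open Finset

/-- The `k`-matchings of the complete graph on `Fin N`: the sets of exactly `k` pairwise
disjoint edges, an edge being written as the pair `(i, j)` of its ends with `i < j`. -/
def matchings (N k : ℕ) : Finset (Finset (Fin N × Fin N)) :=
  univ.filter fun M => M.card = k ∧ (∀ e ∈ M, e.1 < e.2) ∧
    ∀ e ∈ M, ∀ f ∈ M, e ≠ f → e.1 ≠ f.1 ∧ e.1 ≠ f.2 ∧ e.2 ≠ f.1 ∧ e.2 ≠ f.2

/-- The `k`-hafnian: the sum over all `k`-matchings of the product of the entries on the edges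
of the matching. -/
def khaf {N : ℕ} (k : ℕ) (B : Matrix (Fin N) (Fin N) ℝ) : ℝ :=
  ∑ M ∈ matchings N k, ∏ e ∈ M, B e.1 e.2

/-- The adjacency matrices of the perfect matchings of the complete graph on `Fin N`; a perfect
matching is given by the involution without fixed points which sends each vertex to its
partner. -/
def perfectMatchings (N : ℕ) : Set (Matrix (Fin N) (Fin N) ℝ) :=
  {A | ∃ σ : Fin N → Fin N, (∀ i, σ (σ i) = i) ∧ (∀ i, σ i ≠ i) ∧
    A = fun i j => if σ i = j then 1 else 0}

/-- The perfect matching polytope of the complete graph on `2 n` vertices. -/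
def Psi (n : ℕ) : Set (Matrix (Fin (2 * n)) (Fin (2 * n)) ℝ) :=
  convexHull ℝ (perfectMatchings (2 * n))

/-- The matrix `J`: zero on the diagonal and `1 / (2 n - 1)` off the diagonal. -/
noncomputable def J (n : ℕ) : Matrix (Fin (2 * n)) (Fin (2 * n)) ℝ :=
  fun i j => if i = j then 0 else 1 / (2 * (n : ℝ) - 1)

end Pool.Agent.H32R2.KH
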