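import Pool.Agent.H32R2.KH.Quad2

set_option autoImplicit false

namespace Pool.Agent.H32R2.KH

open Finset

variable {V : Type*} [DecidableEq V]

lemma sum_offDiag_eq (U : Finset V) (f : V × V → ℝ) :
    ∑ p ∈ U.offDiag, f p = ∑ a ∈ U, ∑ c ∈ U.erase a, f (a, c) := by
  rw [Finset.sum_sigma']
  refine Finset.sum_nbij' (fun p => ⟨p.1, p.2⟩) (fun q => (q.1, q.2)) ?_ ?_ ?_ ?_ ?_
  · rintro ⟨a, c⟩ h
    simp only [mem_offDiag] at h
    simp only [mem_sigma, mem_erase]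
    exact ⟨h.1, Ne.symm h.2.2, h.2.1⟩
  · rintro ⟨a, c⟩ h
    simp only [mem_sigma, mem_erase] at h
    simp only [mem_offDiag]
    exact ⟨h.1, h.2.2, Ne.symm h.2.1⟩
  · rintro ⟨a, c⟩ _; rfl
  · rintro ⟨a, c⟩ _; rfl
  · rintro ⟨a, c⟩ _; rfl

/-- The four point operator. -/
def W (b E : V → V → ℝ) (g : Finset V → ℝ) (U : Finset V) : ℝ :=
  ∑ a ∈ U, ∑ c ∈ U.erase a, ∑ x ∈ U \ {a, c}, ∑ y ∈ U \ {a, c, x},
    E a c * (b a x * b c y) * g (U \ {a, c, x, y})

lemma W_one (b E : V → V → ℝ) (U : Finset V) : W b E (fun _ => 1) U = Q0 b E U := by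
  unfold W Q0
  simp only [mul_one]

section fintype

variable [Fintype V]

/-- index set of the four point operator -/
def I4 (V : Type*) [DecidableEq V] [Fintype V] : Finset (V × V × V × V) :=
  univ.filter fun q => q.1 ≠ q.2.1 ∧ q.1 ≠ q.2.2.1 ∧ q.2.1 ≠ q.2.2.1 ∧ q.1 ≠ q.2.2.2 ∧
    q.2.1 ≠ q.2.2.2 ∧ q.2.2.1 ≠ q.2.2.2

lemma W_eq_X (b E : V → V → ℝ) (g : Finset V → ℝ) (U : Finset V) :
    W b E g U = X (I4 V) (fun q => {q.1, q.2.1, q.2.2.1, q.2.2.2})
      (fun q => E q.1 q.2.1 * (b q.1 q.2.2.1 * b q.2.1 q.2.2.2)) g U := by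
  unfold W X I4
  rw [Finset.sum_sigma', Finset.sum_sigma', Finset.sum_sigma']
  refine Finset.sum_nbij' (fun p => (p.1.1.1, p.1.1.2, p.1.2, p.2))
    (fun q => ⟨⟨⟨q.1, q.2.1⟩, q.2.2.1⟩, q.2.2.2⟩) ?_ ?_ ?_ ?_ ?_
  · rintro ⟨⟨⟨a, c⟩, x⟩, y⟩ h
    simp only [mem_sigma, mem_erase, mem_sdiff, mem_insert, mem_singleton, not_or] at h
    obtain ⟨⟨⟨h1, h2, h3⟩, h4, h5, h6⟩, h7, h8, h9, h10⟩ := h
    simp only [mem_filter, mem_univ, true_and, Finset.insert_subset_iff,
      Finset.singleton_subset_iff]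
    exact ⟨⟨Ne.symm h2, Ne.symm h5, Ne.symm h6, Ne.symm h8, Ne.symm h9, Ne.symm h10⟩,
      h1, h3, h4, h7⟩
  · rintro ⟨a, c, x, y⟩ h
    simp only [mem_filter, mem_univ, true_and, Finset.insert_subset_iff,
      Finset.singleton_subset_iff] at h
    obtain ⟨⟨h2, h5, h6, h8, h9, h10⟩, h1, h3, h4, h7⟩ := h
    simp only [mem_sigma, mem_erase, mem_sdiff, mem_insert, mem_singleton, not_or]
    exact ⟨⟨⟨h1, Ne.symm h2, h3⟩, h4, Ne.symm h5, Ne.symm h6⟩, h7, Ne.symm h8, Ne.symm h9,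
      Ne.symm h10⟩
  · rintro ⟨⟨⟨a, c⟩, x⟩, y⟩ _; rfl
  · rintro ⟨a, c, x, y⟩ _; rfl
  · rintro ⟨⟨⟨a, c⟩, x⟩, y⟩ _; rfl

lemma Ti_Q0 (b E : V → V → ℝ) (r : ℕ) (U : Finset V) :
    Ti b r (Q0 b E) U = W b E (H b r) U := by
  have h1 : Q0 b E = X (I4 V) (fun q => {q.1, q.2.1, q.2.2.1, q.2.2.2})
      (fun q => E q.1 q.2.1 * (b q.1 q.2.2.1 * b q.2.1 q.2.2.2)) (fun _ => 1) := by
    funext U
    rw [← W_one, W_eq_X]
  have h2 : Ti b r (fun _ => 1) = H b r := funext fun U => (H_eq_Ti b r U).symm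
  rw [h1, Ti_X, h2, ← W_eq_X]

lemma Ti_pair (b E : V → V → ℝ) (r : ℕ) (U : Finset V) :
    Ti b r (T E (fun _ => 1)) U = T E (H b r) U := by
  have h2 : Ti b r (fun _ => 1) = H b r := funext fun U => (H_eq_Ti b r U).symm
  rw [Ti_T, h2]

lemma S3_rot (g : V → V → V → ℝ) :
    ∑ a, ∑ c ∈ univ.erase a, ∑ y ∈ univ \ {a, c}, g a c y
      = ∑ c, ∑ y ∈ univ.erase c, ∑ a ∈ univ \ {c, y}, g a c y := by
  rw [Finset.sum_comm' (t' := univ) (s' := fun c => univ.erase c)]
  · refine Finset.sum_congr rfl fun c _ => ?_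
    rw [Finset.sum_comm' (t' := univ.erase c) (s' := fun y => univ \ {c, y})]
    intro a y
    simp only [mem_erase, mem_univ, and_true, mem_sdiff, mem_insert, mem_singleton, not_or,
      true_and]
    constructor
    · rintro ⟨h1, h2, h3⟩; exact ⟨⟨h1, Ne.symm h2⟩, h3⟩
    · rintro ⟨⟨h1, h2⟩, h3⟩; exact ⟨h1, Ne.symm h2, h3⟩
  · intro a c
    simp only [mem_erase, mem_univ, and_true, true_and]
    exact ne_comm

lemma expand1 (b E : V → V → ℝ) (hs : ∀ a c, b a c = b c a) 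
    (h0 : ∀ a, ∑ c, E a c = 0) (hd : ∀ a, E a a = 0) (r : ℕ) :
    T E (H b (r + 1)) univ = -(2 * (r + 1)) *
      ∑ c, ∑ y ∈ univ.erase c, ∑ a ∈ univ \ {c, y}, b c y * (E a c * H b r (univ \ {a, c, y})) := by
  have hz : ∀ a, ∑ c ∈ univ.erase a, E a c = 0 := fun a => by
    rw [Finset.sum_erase _ (hd a), h0]
  have e0 : ∀ a, ∀ c ∈ univ.erase a, H b (r + 1) (univ \ {a, c}) = H b (r + 1) (univ.erase a)
      - 2 * (r + 1) * ∑ y ∈ univ \ {a, c}, b c y * H b r (univ \ {a, c, y}) := by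
    intro a c hc
    have h1 := H_vertex b hs r (univ.erase a) hc
    have e1 : (univ.erase a).erase c = univ \ {a, c} := by
      ext x; simp only [mem_erase, mem_univ, mem_sdiff, mem_insert, mem_singleton]; tauto
    have e2 : ∀ y, (univ.erase a) \ {c, y} = univ \ {a, c, y} := by
      intro y
      ext x; simp only [mem_erase, mem_univ, mem_sdiff, mem_insert, mem_singleton]; tauto
    rw [e1] at h1
    simp only [e2] at h1
    linarith
  unfold T
  rw [sum_offDiag_eq]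
  have e3 : ∀ a ∈ (univ : Finset V), ∑ c ∈ univ.erase a, E (a, c).1 (a, c).2
        * H b (r + 1) (univ \ {(a, c).1, (a, c).2})
      = -(2 * (r + 1)) * ∑ c ∈ univ.erase a, ∑ y ∈ univ \ {a, c},
          b c y * (E a c * H b r (univ \ {a, c, y})) := by
    intro a _
    have e4 : ∀ c ∈ univ.erase a, E (a, c).1 (a, c).2
        * H b (r + 1) (univ \ {(a, c).1, (a, c).2})
        = E a c * H b (r + 1) (univ.erase a) + -(2 * (r + 1)) * ∑ y ∈ univ \ {a, c},
          b c y * (E a c * H b r (univ \ {a, c, y})) := by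
      intro c hc
      simp only
      rw [e0 a c hc]
      have : ∑ y ∈ univ \ {a, c}, b c y * (E a c * H b r (univ \ {a, c, y}))
          = E a c * ∑ y ∈ univ \ {a, c}, b c y * H b r (univ \ {a, c, y}) := by
        rw [Finset.mul_sum]
        exact Finset.sum_congr rfl fun y _ => by ring
      rw [this]; ring
    rw [Finset.sum_congr rfl e4, Finset.sum_add_distrib, ← Finset.sum_mul, hz a, ← Finset.mul_sum]
    ring
  rw [Finset.sum_congr rfl e3, ← Finset.mul_sum, S3_rot]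

lemma expand_one (b E : V → V → ℝ) (hs : ∀ a c, b a c = b c a) (hE : ∀ a c, E a c = E c a)
    (h0 : ∀ a, ∑ c, E a c = 0) (hd : ∀ a, E a a = 0) :
    T E (H b 1) univ = 2 * T (fun a c => b a c * E a c) (H b 0) univ := by
  rw [expand1 b E hs h0 hd 0]
  have e1 : ∀ c, ∀ y ∈ univ.erase c, ∑ a ∈ univ \ {c, y}, b c y * (E a c * H b 0 (univ \ {a, c, y}))
      = -(b c y * E c y) := by
    intro c y hy
    have h1 : ∑ a ∈ univ \ {c, y}, E a c = - E c y := by
      rw [sum_sdiff_pair univ (fun a => E a c) (mem_univ _) (mem_univ _) (Ne.symm (mem_erase.1 hy).1)]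
      simp only [hE _ c, h0, hd]; ring
    simp only [H, mul_one, ← Finset.mul_sum]
    rw [h1]; ring
  rw [Finset.sum_congr rfl fun c _ => Finset.sum_congr rfl (e1 c)]
  unfold T
  rw [sum_offDiag_eq]
  simp only [H, Finset.sum_neg_distrib, mul_one]
  push_cast
  ring

lemma expand2 (b E : V → V → ℝ) (hs : ∀ a c, b a c = b c a) (hE : ∀ a c, E a c = E c a)
    (h0 : ∀ a, ∑ c, E a c = 0) (hd : ∀ a, E a a = 0) (s : ℕ) :
    T E (H b (s + 2)) univ = 2 * (s + 2) * T (fun a c => b a c * E a c) (H b (s + 1)) univ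
      + 4 * (s + 2) * (s + 1) * W b E (H b s) univ := by
  rw [expand1 b E hs h0 hd (s + 1)]
  have e1 : ∀ c, ∀ y ∈ univ.erase c,
      ∑ a ∈ univ \ {c, y}, b c y * (E a c * H b (s + 1) (univ \ {a, c, y}))
      = -(b c y * E c y * H b (s + 1) (univ \ {c, y}))
        - 2 * (s + 1) * ∑ a ∈ univ \ {c, y}, ∑ x ∈ univ \ {a, c, y},
            E a c * (b a x * b c y) * H b s (univ \ {a, c, x, y}) := by
    intro c y hy
    have h1 : ∑ a ∈ univ \ {c, y}, E a c = - E c y := by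
      rw [sum_sdiff_pair univ (fun a => E a c) (mem_univ _) (mem_univ _) (Ne.symm (mem_erase.1 hy).1)]
      simp only [hE _ c, h0, hd]; ring
    have h2 : ∀ a ∈ univ \ {c, y}, b c y * (E a c * H b (s + 1) (univ \ {a, c, y}))
        = b c y * H b (s + 1) (univ \ {c, y}) * E a c
          + -(2 * (s + 1)) * ∑ x ∈ univ \ {a, c, y},
            E a c * (b a x * b c y) * H b s (univ \ {a, c, x, y}) := by
      intro a ha
      have h3 := H_vertex b hs s (univ \ {c, y}) ha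
      have e2 : (univ \ {c, y}).erase a = univ \ {a, c, y} := by
        ext x; simp only [mem_erase, mem_univ, mem_sdiff, mem_insert, mem_singleton]; tauto
      have e3 : ∀ x, (univ \ {c, y}) \ {a, x} = univ \ {a, c, x, y} := by
        intro x
        ext z; simp only [mem_univ, mem_sdiff, mem_insert, mem_singleton]; tauto
      rw [e2] at h3
      simp only [e3] at h3
      have e4 : ∑ x ∈ univ \ {a, c, y}, E a c * (b a x * b c y) * H b s (univ \ {a, c, x, y})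
          = E a c * b c y * ∑ x ∈ univ \ {a, c, y}, b a x * H b s (univ \ {a, c, x, y}) := by
        rw [Finset.mul_sum]
        exact Finset.sum_congr rfl fun x _ => by ring
      rw [e4]
      have h5 : H b (s + 1) (univ \ {a, c, y}) = H b (s + 1) (univ \ {c, y})
        - 2 * (s + 1) * ∑ x ∈ univ \ {a, c, y}, b a x * H b s (univ \ {a, c, x, y}) := by
        linarith
      rw [h5]; ring
    rw [Finset.sum_congr rfl h2, Finset.sum_add_distrib, ← Finset.mul_sum, h1, ← Finset.mul_sum]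
    ring
  rw [Finset.sum_congr rfl fun c _ => Finset.sum_congr rfl (e1 c)]
  simp only [Finset.sum_sub_distrib, Finset.sum_neg_distrib]
  have e5 : ∑ c, ∑ y ∈ univ.erase c, 2 * ((s : ℝ) + 1) * ∑ a ∈ univ \ {c, y},
      ∑ x ∈ univ \ {a, c, y}, E a c * (b a x * b c y) * H b s (univ \ {a, c, x, y})
      = 2 * (s + 1) * W b E (H b s) univ := by
    simp only [← Finset.mul_sum]
    congr 1
    rw [← S3_rot (fun a c y => ∑ x ∈ univ \ {a, c, y}, E a c * (b a x * b c y)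
      * H b s (univ \ {a, c, x, y}))]
    unfold W
    refine Finset.sum_congr rfl fun a _ => Finset.sum_congr rfl fun c _ => ?_
    rw [Finset.sum_comm' (t' := univ \ {a, c}) (s' := fun x => univ \ {a, c, x})]
    intro y x
    simp only [mem_univ, mem_sdiff, mem_insert, mem_singleton, not_or, true_and]
    constructor
    · rintro ⟨⟨h1, h2⟩, h3, h4, h5⟩; exact ⟨⟨h1, h2, Ne.symm h5⟩, h3, h4⟩
    · rintro ⟨⟨h1, h2, h5⟩, h3, h4⟩; exact ⟨⟨h1, h2⟩, h3, h4, Ne.symm h5⟩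
  have e6 : ∑ c, ∑ y ∈ univ.erase c, b c y * E c y * H b (s + 1) (univ \ {c, y})
      = T (fun a c => b a c * E a c) (H b (s + 1)) univ := by
    unfold T
    rw [sum_offDiag_eq]
  rw [e5, e6]
  push_cast
  ring

end fintype

end Pool.Agent.H32R2.KH
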