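import Pool.Agent.H32R2.KH.Defs
import Pool.Agent.H32R2.KH.Core

set_option autoImplicit false

namespace Pool.Agent.H32R2.KH

open Finset

variable {N : ℕ}

/-- `M` is a `k`-matching inside `U`. -/
def MatIn (U : Finset (Fin N)) (k : ℕ) (M : Finset (Fin N × Fin N)) : Prop :=
  (M.card = k ∧ (∀ e ∈ M, e.1 < e.2) ∧
    ∀ e ∈ M, ∀ f ∈ M, e ≠ f → e.1 ≠ f.1 ∧ e.1 ≠ f.2 ∧ e.2 ≠ f.1 ∧ e.2 ≠ f.2) ∧
    ∀ e ∈ M, e.1 ∈ U ∧ e.2 ∈ U

instance (U : Finset (Fin N)) (k : ℕ) : DecidablePred (MatIn U k) := fun M => by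
  unfold MatIn; infer_instance

/-- hafnian restricted to `U` -/
def hU (k : ℕ) (B : Matrix (Fin N) (Fin N) ℝ) (U : Finset (Fin N)) : ℝ :=
  ∑ M ∈ univ.filter (MatIn U k), ∏ e ∈ M, B e.1 e.2

lemma hU_univ (k : ℕ) (B : Matrix (Fin N) (Fin N) ℝ) : hU k B univ = khaf k B := by
  unfold hU khaf matchings
  refine Finset.sum_congr ?_ fun _ _ => rfl
  ext M
  simp [MatIn]

lemma MatIn_insert {U : Finset (Fin N)} {k : ℕ} {M : Finset (Fin N × Fin N)}
    {e : Fin N × Fin N} (he : e.1 < e.2) (h1 : e.1 ∈ U) (h2 : e.2 ∈ U)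
    (h : MatIn (U \ {e.1, e.2}) k M) : e ∉ M ∧ MatIn U (k + 1) (insert e M) := by
  obtain ⟨⟨hc, hlt, hd⟩, hU⟩ := h
  simp only [mem_sdiff, mem_insert, mem_singleton, not_or] at hU
  have hne : e ∉ M := fun h => (hU e h).1.2.1 rfl
  refine ⟨hne, ⟨by rw [Finset.card_insert_of_notMem hne, hc], ?_, ?_⟩, ?_⟩
  · intro f hf
    rcases mem_insert.1 hf with rfl | hf
    · exact he
    · exact hlt f hf
  · intro f hf g hg hfg
    rcases mem_insert.1 hf with hf' | hf' <;> rcases mem_insert.1 hg with hg' | hg'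
    · exact absurd (hf'.trans hg'.symm) hfg
    · have := hU g hg'
      rw [hf']
      exact ⟨Ne.symm this.1.2.1, Ne.symm this.2.2.1, Ne.symm this.1.2.2, Ne.symm this.2.2.2⟩
    · have := hU f hf'
      rw [hg']
      exact ⟨this.1.2.1, this.1.2.2, this.2.2.1, this.2.2.2⟩
    · exact hd f hf' g hg' hfg
  · intro f hf
    rcases mem_insert.1 hf with rfl | hf'
    · exact ⟨h1, h2⟩
    · exact ⟨(hU f hf').1.1, (hU f hf').2.1⟩

lemma MatIn_erase {U : Finset (Fin N)} {k : ℕ} {M : Finset (Fin N × Fin N)}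
    {e : Fin N × Fin N} (he : e ∈ M) (h : MatIn U (k + 1) M) :
    MatIn (U \ {e.1, e.2}) k (M.erase e) := by
  obtain ⟨⟨hc, hlt, hd⟩, hU⟩ := h
  refine ⟨⟨by rw [Finset.card_erase_of_mem he, hc]; rfl, ?_, ?_⟩, ?_⟩
  · intro f hf; exact hlt f (mem_of_mem_erase hf)
  · intro f hf g hg hfg; exact hd f (mem_of_mem_erase hf) g (mem_of_mem_erase hg) hfg
  · intro f hf
    have h1 := mem_erase.1 hf
    have h2 := hd f h1.2 e he h1.1
    have h3 := hU f h1.2
    simp only [mem_sdiff, mem_insert, mem_singleton, not_or]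
    exact ⟨⟨h3.1, h2.1, h2.2.1⟩, h3.2, h2.2.2.1, h2.2.2.2⟩

lemma hU_succ_lt (k : ℕ) (B : Matrix (Fin N) (Fin N) ℝ) (U : Finset (Fin N)) :
    ((k : ℝ) + 1) * hU (k + 1) B U
      = ∑ p ∈ U.offDiag with p.1 < p.2, B p.1 p.2 * hU k B (U \ {p.1, p.2}) := by
  have h1 : ((k : ℝ) + 1) * hU (k + 1) B U
      = ∑ M ∈ univ.filter (MatIn U (k + 1)), ∑ e ∈ M, ∏ f ∈ M, B f.1 f.2 := by
    unfold hU
    rw [Finset.mul_sum]
    refine Finset.sum_congr rfl fun M hM => ?_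
    have hc : M.card = k + 1 := ((mem_filter.1 hM).2).1.1
    rw [Finset.sum_const, hc, nsmul_eq_mul]
    push_cast
    ring
  have h2 : ∑ p ∈ U.offDiag with p.1 < p.2, B p.1 p.2 * hU k B (U \ {p.1, p.2})
      = ∑ p ∈ U.offDiag with p.1 < p.2, ∑ M ∈ univ.filter (MatIn (U \ {p.1, p.2}) k),
          B p.1 p.2 * ∏ f ∈ M, B f.1 f.2 := by
    refine Finset.sum_congr rfl fun p _ => ?_
    unfold hU
    rw [Finset.mul_sum]
  rw [h1, h2, Finset.sum_sigma', Finset.sum_sigma']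
  refine Finset.sum_nbij' (fun x => ⟨x.2, x.1.erase x.2⟩) (fun y => ⟨insert y.1 y.2, y.1⟩)
    ?_ ?_ ?_ ?_ ?_
  · rintro ⟨M, e⟩ h
    simp only [mem_sigma, mem_filter, mem_univ, true_and] at h
    simp only [mem_sigma, mem_filter, mem_univ, true_and, mem_offDiag]
    have hlt := h.1.1.2.1 e h.2
    exact ⟨⟨⟨(h.1.2 e h.2).1, (h.1.2 e h.2).2, ne_of_lt hlt⟩, hlt⟩, MatIn_erase h.2 h.1⟩
  · rintro ⟨e, M⟩ h
    simp only [mem_sigma, mem_filter, mem_univ, true_and, mem_offDiag] at h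
    simp only [mem_sigma, mem_filter, mem_univ, true_and]
    exact ⟨(MatIn_insert h.1.2 h.1.1.1 h.1.1.2.1 h.2).2, mem_insert_self _ _⟩
  · rintro ⟨M, e⟩ h
    simp only [mem_sigma, mem_filter, mem_univ, true_and] at h
    simp only [Finset.insert_erase h.2]
  · rintro ⟨e, M⟩ h
    simp only [mem_sigma, mem_filter, mem_univ, true_and, mem_offDiag] at h
    have := (MatIn_insert h.1.2 h.1.1.1 h.1.1.2.1 h.2).1
    simp only [Finset.erase_insert this]
  · rintro ⟨M, e⟩ h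
    simp only [mem_sigma, mem_filter, mem_univ, true_and] at h
    simp only
    rw [← Finset.mul_prod_erase M (fun f => B f.1 f.2) h.2]

lemma offDiag_symm_sum (U : Finset (Fin N)) (f : Fin N × Fin N → ℝ)
    (hf : ∀ a c, f (a, c) = f (c, a)) :
    ∑ p ∈ U.offDiag, f p = 2 * ∑ p ∈ U.offDiag with p.1 < p.2, f p := by
  rw [← Finset.sum_filter_add_sum_filter_not U.offDiag (fun p => p.1 < p.2), two_mul]
  congr 1
  refine Finset.sum_nbij' (fun p => (p.2, p.1)) (fun p => (p.2, p.1)) ?_ ?_ ?_ ?_ ?_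
  · rintro ⟨a, c⟩ h
    simp only [mem_filter, mem_offDiag, not_lt] at h ⊢
    exact ⟨⟨h.1.2.1, h.1.1, Ne.symm h.1.2.2⟩, lt_of_le_of_ne h.2 (Ne.symm h.1.2.2)⟩
  · rintro ⟨a, c⟩ h
    simp only [mem_filter, mem_offDiag, not_lt] at h ⊢
    exact ⟨⟨h.1.2.1, h.1.1, Ne.symm h.1.2.2⟩, h.2.le⟩
  · rintro ⟨a, c⟩ _; rfl
  · rintro ⟨a, c⟩ _; rfl
  · rintro ⟨a, c⟩ _; exact hf a c

/-- The link between the ordered and unordered matching sums. -/
theorem H_eq_hU (B : Matrix (Fin N) (Fin N) ℝ) (hs : ∀ a c, B a c = B c a) (k : ℕ)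
    (U : Finset (Fin N)) : H B k U = 2 ^ k * (k.factorial : ℝ) * hU k B U := by
  induction k generalizing U with
  | zero =>
    have : (univ.filter (MatIn U 0) : Finset (Finset (Fin N × Fin N))) = {∅} := by
      ext M
      simp only [mem_filter, mem_univ, true_and, mem_singleton]
      constructor
      · intro h; exact Finset.card_eq_zero.1 h.1.1
      · rintro rfl; simp [MatIn]
    simp [H, hU, this]
  | succ k ih =>
    show T B (H B k) U = _
    unfold T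
    rw [Finset.sum_congr rfl fun p _ => by rw [ih], offDiag_symm_sum, Nat.factorial_succ]
    · have h1 : ∑ p ∈ U.offDiag with p.1 < p.2, B p.1 p.2
          * (2 ^ k * (k.factorial : ℝ) * hU k B (U \ {p.1, p.2}))
          = 2 ^ k * (k.factorial : ℝ) * ∑ p ∈ U.offDiag with p.1 < p.2, B p.1 p.2
          * hU k B (U \ {p.1, p.2}) := by
        rw [Finset.mul_sum]
        exact Finset.sum_congr rfl fun p _ => by ring
      rw [h1, ← hU_succ_lt]
      push_cast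
      ring
    · intro a c
      simp only
      rw [hs a c, Finset.pair_comm a c]

theorem H_eq_khaf (B : Matrix (Fin N) (Fin N) ℝ) (hs : ∀ a c, B a c = B c a) (k : ℕ) :
    H B k univ = 2 ^ k * (k.factorial : ℝ) * khaf k B := by
  rw [H_eq_hU B hs, hU_univ]

end Pool.Agent.H32R2.KH
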