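import Pool.Agent.H32R2.KH.Expand

set_option autoImplicit false

namespace Pool.Agent.H32R2.KH

open Finset

variable {V : Type*} [DecidableEq V] [Fintype V]

/-- Symmetric nonnegative matrix with zero diagonal and row sums one, with its deviation from
the constant matrix. -/
structure Full (b E : V → V → ℝ) (w : ℝ) : Prop where
  bs : ∀ a c, b a c = b c a
  bn : ∀ a c, 0 ≤ b a c
  bd : ∀ a, b a a = 0
  row : ∀ a, ∑ c, b a c = 1
  Ed : ∀ a, E a a = 0
  Eb : ∀ a c, a ≠ c → b a c = E a c + w
  hw : w * ((Fintype.card V : ℝ) - 1) = 1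
  hw0 : 0 < w

section

variable {b E : V → V → ℝ} {w : ℝ}

lemma Full.data (h : Full b E w) (U : Finset V) : Data U b E w where
  bs := h.bs
  bn := h.bn
  bd := h.bd
  row a _ := by
    rw [← h.row a]
    exact Finset.sum_le_sum_of_subset_of_nonneg (Finset.subset_univ U) fun c _ _ => h.bn a c
  Ed := h.Ed
  Eb := h.Eb

lemma Full.Es (h : Full b E w) (a c : V) : E a c = E c a := (h.data univ).Es a c

lemma Full.Erow (h : Full b E w) (a : V) : ∑ c, E a c = 0 := by
  have h1 := (h.data univ).beta (Finset.mem_univ a)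
  rw [h.row a, Finset.card_univ, h.hw] at h1
  linarith

lemma Full.sumb (h : Full b E w) (U : Finset V) :
    2 * (U.card : ℝ) - Fintype.card V ≤ ∑ a ∈ U, ∑ c ∈ U, b a c := by
  have h1 : ∀ a ∈ U, ∑ c ∈ U, b a c = 1 - ∑ c ∈ Uᶜ, b a c := by
    intro a _
    rw [← h.row a, ← Finset.sum_add_sum_compl U (fun c => b a c)]
    ring
  rw [Finset.sum_congr rfl h1, Finset.sum_sub_distrib, Finset.sum_const, nsmul_eq_mul,
    Finset.sum_comm]
  have h2 : ∑ c ∈ Uᶜ, ∑ a ∈ U, b a c ≤ ∑ c ∈ Uᶜ, (1 : ℝ) := by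
    refine Finset.sum_le_sum fun c _ => ?_
    rw [← h.row c]
    refine (Finset.sum_le_sum_of_subset_of_nonneg (Finset.subset_univ U)
      fun a _ _ => h.bn a c).trans (le_of_eq (Finset.sum_congr rfl fun a _ => h.bs a c))
  rw [Finset.sum_const, nsmul_eq_mul, Finset.card_compl,
    Nat.cast_sub (Finset.card_le_univ U)] at h2
  linarith

lemma T_one_eq (f : V → V → ℝ) (hd : ∀ a, f a a = 0) (U : Finset V) :
    T f (fun _ => 1) U = ∑ a ∈ U, ∑ c ∈ U, f a c := by
  unfold T
  rw [sum_offDiag_eq]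
  refine Finset.sum_congr rfl fun a _ => ?_
  simp only [mul_one]
  exact Finset.sum_erase _ (hd a)

lemma Full.T_b (h : Full b E w) (U : Finset V) :
    T b (fun _ => 1) U = w * (U.card * (U.card - 1)) + T E (fun _ => 1) U := by
  rw [T_one_eq b h.bd, T_one_eq E h.Ed,
    Finset.sum_congr rfl fun a ha => (h.data U).beta ha, Finset.sum_add_distrib, Finset.sum_const,
      nsmul_eq_mul]
  ring

lemma H_zero_fun (b : V → V → ℝ) : H b 0 = fun _ => 1 := rfl

lemma Ti_one (b : V → V → ℝ) (r : ℕ) : Ti b r (fun _ => 1) = H b r :=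
  funext fun U => (H_eq_Ti b r U).symm

/-- ratio bound -/
lemma Full.ratio (h : Full b E w) (m : ℕ) (U : Finset V) (hU : U.card + 2 = Fintype.card V) :
    ((Fintype.card V : ℝ) - 4 * (m + 1)) * H b m U ≤ H b (m + 1) U := by
  have h1 : H b (m + 1) U = Ti b m (T b (fun _ => 1)) U := by
    rw [H_eq_Ti, Ti_succ']
  have h2 : ((Fintype.card V : ℝ) - 4 * (m + 1)) * H b m U
      = Ti b m (fun W => ((Fintype.card V : ℝ) - 4 * (m + 1)) * 1) U := by
    rw [Ti_smul, Ti_one]
  rw [h1, h2]
  refine Ti_mono b h.bn _ _ m U fun W _ hW => ?_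
  rw [T_one_eq b h.bd]
  have h3 := h.sumb W
  have h4 : (W.card : ℝ) + 2 * m + 2 = Fintype.card V := by
    have : W.card + 2 * m + 2 = Fintype.card V := by omega
    exact_mod_cast this
  linarith

lemma T_mono' (f : V → V → ℝ) (hf : ∀ a c, 0 ≤ f a c) (g g' : Finset V → ℝ) 
    (hg : ∀ U : Finset V, U.card + 2 = Fintype.card V → g U ≤ g' U) :
    T f g univ ≤ T f g' univ := by
  refine Finset.sum_le_sum fun p hp => mul_le_mul_of_nonneg_left (hg _ ?_) (hf _ _)
  rw [mem_offDiag] at hp
  rw [← Finset.card_pair hp.2.2, Finset.card_sdiff_add_card_eq_card (Finset.subset_univ _),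
    Finset.card_univ]

lemma T_smul' (f : V → V → ℝ) (c : ℝ) (g : Finset V → ℝ) (U : Finset V) :
    T f (fun W => c * g W) U = c * T f g U := by
  unfold T
  rw [Finset.mul_sum]
  exact Finset.sum_congr rfl fun p _ => by ring

lemma T_nonneg' (f : V → V → ℝ) (hf : ∀ a c, 0 ≤ f a c) (g : Finset V → ℝ) 
    (hg : ∀ U : Finset V, 0 ≤ g U) (U : Finset V) : 0 ≤ T f g U :=
  Finset.sum_nonneg fun _ _ => mul_nonneg (hf _ _) (hg _)

lemma Full.T_bE (h : Full b E w) (g : Finset V → ℝ) (U : Finset V) :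
    T (fun a c => b a c * E a c) g U
      = T (fun a c => E a c ^ 2) g U + w * T E g U := by
  unfold T
  rw [Finset.mul_sum, ← Finset.sum_add_distrib]
  refine Finset.sum_congr rfl fun p hp => ?_
  rw [mem_offDiag] at hp
  simp only
  rw [h.Eb _ _ hp.2.2]
  ring

/-- The key inequality. -/
theorem Full.key (h : Full b E w) (r : ℕ) (hr : 10 * r ≤ Fintype.card V + 10) :
    0 ≤ T E (H b r) univ := by
  have hE2 : ∀ a c, 0 ≤ E a c ^ 2 := fun a c => sq_nonneg _
  induction r using Nat.strong_induction_on with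
  | _ r ih =>
    match r, ih, hr with
    | 0, _, _ =>
      rw [H_zero_fun, T_one_eq E h.Ed]
      simp [h.Erow]
    | 1, _, _ =>
      rw [expand_one b E h.bs h.Es h.Erow h.Ed, h.T_bE, H_zero_fun, T_one_eq E h.Ed]
      simp only [h.Erow, Finset.sum_const_zero, mul_zero, add_zero]
      exact mul_nonneg (by norm_num) (T_nonneg' _ hE2 _ (fun _ => zero_le_one) _)
    | s + 2, ih, hr =>
      have hN : 10 * s + 10 ≤ Fintype.card V := by omega
      have hNr : (10 : ℝ) * s + 10 ≤ Fintype.card V := by exact_mod_cast hN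
      have i1 := ih (s + 1) (by omega) (by omega)
      have i0 := ih s (by omega) (by omega)
      rw [expand2 b E h.bs h.Es h.Erow h.Ed s, h.T_bE]
      set N : ℝ := (Fintype.card V : ℝ) with hNdef
      set κ : ℝ := w ^ 2 * (N - 2 * s - 2) * (N - 2 * s - 3) with hκ
      have hκ0 : 0 ≤ κ := by
        have hs0 : (0 : ℝ) ≤ s := Nat.cast_nonneg s
        have h1 : 0 ≤ N - 2 * s - 2 := by linarith
        have h2 : 0 ≤ N - 2 * s - 3 := by linarith
        positivity
      have hW : κ * T E (H b s) univ + -3 * T (fun a c => E a c ^ 2) (H b s) univ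
          ≤ W b E (H b s) univ := by
        rw [← Ti_Q0]
        have e1 : κ * T E (H b s) univ + -3 * T (fun a c => E a c ^ 2) (H b s) univ
            = Ti b s (fun U => κ * T E (fun _ => 1) U
              + -3 * T (fun a c => E a c ^ 2) (fun _ => 1) U) univ := by
          rw [Ti_add, Ti_smul, Ti_smul, Ti_T, Ti_T, Ti_one]
        rw [e1]
        refine Ti_mono b h.bn _ _ s univ fun U _ hU => ?_
        rw [T_one_eq E h.Ed, T_one_eq (fun a c => E a c ^ 2) (fun a => by simp [h.Ed])]
        rw [Finset.card_univ] at hU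
        have hU' : (U.card : ℝ) = N - 2 * s := by
          have : (U.card : ℝ) + 2 * s = N := by rw [hNdef]; exact_mod_cast hU
          linarith
        have h5 := (h.data U).Q0_ge (2 * s) h.hw0 (by
            have := h.hw
            rw [← hNdef] at this
            rw [hU']; linear_combination this) (by positivity) (by rw [hU']; linarith) (by
            have := h.sumb U
            rw [← hNdef] at this
            rw [hU'] at this ⊢
            linarith)
        rw [hU'] at h5
        have e2 : κ * ∑ a ∈ U, ∑ c ∈ U, E a c + -3 * ∑ a ∈ U, ∑ c ∈ U, E a c ^ 2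
            = w ^ 2 * (N - 2 * s - 2) * (N - 2 * s - 3) * ∑ a ∈ U, ∑ c ∈ U, E a c
              - 3 * ∑ a ∈ U, ∑ c ∈ U, E a c ^ 2 := by
          rw [hκ]; ring
        rw [e2]; exact h5
      have hR : 6 * (s + 1) * T (fun a c => E a c ^ 2) (H b s) univ
          ≤ T (fun a c => E a c ^ 2) (H b (s + 1)) univ := by
        rw [← T_smul']
        refine T_mono' _ hE2 _ _ fun U hU => ?_
        have h6 := h.ratio s U hU
        have h7 := H_nonneg b h.bn s U
        refine le_trans (mul_le_mul_of_nonneg_right ?_ h7) h6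
        rw [← hNdef]; linarith
      have hs0 : (0 : ℝ) ≤ s := Nat.cast_nonneg s
      have hκ1 := mul_nonneg hκ0 i0
      have hw1 := mul_nonneg h.hw0.le i1
      have hA : 4 * (s + 2) * (s + 1) * (κ * T E (H b s) univ
          + -3 * T (fun a c => E a c ^ 2) (H b s) univ)
          ≤ 4 * (s + 2) * (s + 1) * W b E (H b s) univ :=
        mul_le_mul_of_nonneg_left hW (by positivity)
      have hB : 2 * ((s : ℝ) + 2) * (6 * (s + 1) * T (fun a c => E a c ^ 2) (H b s) univ)
          ≤ 2 * ((s : ℝ) + 2) * T (fun a c => E a c ^ 2) (H b (s + 1)) univ :=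
        mul_le_mul_of_nonneg_left hR (by positivity)
      have hC : 0 ≤ 4 * ((s : ℝ) + 2) * (s + 1) * (κ * T E (H b s) univ) := by positivity
      have hD : 0 ≤ 2 * ((s : ℝ) + 2) * (w * T E (H b (s + 1)) univ) := by positivity
      nlinarith

/-- The one step recursion. -/
theorem Full.step (h : Full b E w) (r : ℕ) :
    H b (r + 1) univ = w * (((Fintype.card V : ℝ) - 2 * r) * ((Fintype.card V : ℝ) - 2 * r - 1))
      * H b r univ + T E (H b r) univ := by
  have h1 : H b (r + 1) univ = Ti b r (T b (fun _ => 1)) univ := by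
    rw [H_eq_Ti, Ti_succ']
  have h2 : Ti b r (T b (fun _ => 1)) univ
      = Ti b r (fun U => w * (((Fintype.card V : ℝ) - 2 * r) * ((Fintype.card V : ℝ) - 2 * r - 1))
          * 1 + T E (fun _ => 1) U) univ := by
    refine Ti_congr b _ _ r univ fun U _ hU => ?_
    rw [Finset.card_univ] at hU
    have hU' : (U.card : ℝ) = Fintype.card V - 2 * r := by
      have : (U.card : ℝ) + 2 * r = Fintype.card V := by exact_mod_cast hU
      linarith
    rw [h.T_b, hU']
    ring
  rw [h1, h2, Ti_add, Ti_smul, Ti_T, Ti_one]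

/-- The sum of the squared deviations. -/
theorem Full.two (h : Full b E w) :
    T E (H b 1) univ = 2 * ∑ a, ∑ c, E a c ^ 2 := by
  rw [expand_one b E h.bs h.Es h.Erow h.Ed, h.T_bE, H_zero_fun, T_one_eq E h.Ed,
    T_one_eq (fun a c => E a c ^ 2) (fun a => by simp [h.Ed])]
  simp [h.Erow]

/-- product of the first factors -/
noncomputable def cr (N : ℕ) (r : ℕ) : ℝ :=
  (1 / ((N : ℝ) - 1)) * (((N : ℝ) - 2 * r) * ((N : ℝ) - 2 * r - 1))

theorem Full.w_eq (h : Full b E w) : w = 1 / ((Fintype.card V : ℝ) - 1) := by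
  have h1 := h.hw
  have h2 : (Fintype.card V : ℝ) - 1 ≠ 0 := by
    intro h3; rw [h3] at h1; simp at h1
  field_simp
  exact h1

theorem cr_pos (N r : ℕ) (h : 2 * r + 1 < N) : 0 < cr N r := by
  have h1 : (2 : ℝ) * r + 1 < N := by exact_mod_cast h
  have h0 : (0 : ℝ) ≤ r := Nat.cast_nonneg r
  unfold cr
  have h2 : 0 < (N : ℝ) - 1 := by linarith
  have h3 : 0 < (N : ℝ) - 2 * r := by linarith
  have h4 : 0 < (N : ℝ) - 2 * r - 1 := by linarith
  positivity

/-- Lower bound with the strict term: for `k ≥ 2`. -/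
theorem Full.lower (h : Full b E w) (k : ℕ) (hk : 2 ≤ k) (hkN : 2 * k ≤ Fintype.card V)
    (h10 : 10 * k ≤ Fintype.card V + 20) :
    (∏ r ∈ range k, cr (Fintype.card V) r)
      + (∏ r ∈ Ico 2 k, cr (Fintype.card V) r) * (2 * ∑ a, ∑ c, E a c ^ 2) ≤ H b k univ := by
  induction k, hk using Nat.le_induction with
  | base =>
    have s1 := h.step 1
    have s0 := h.step 0
    rw [h.two] at s1
    have t0 : T E (H b 0) univ = 0 := by
      rw [H_zero_fun, T_one_eq E h.Ed]
      simp [h.Erow]
    rw [t0] at s0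
    rw [s1, s0]
    simp only [Finset.prod_range_succ, Finset.prod_range_zero, Finset.Ico_self,
      Finset.prod_empty, H]
    unfold cr
    rw [← h.w_eq]
    push_cast
    apply le_of_eq
    ring
  | succ k hk ih =>
    have ih' := ih (by omega) (by omega)
    have s := h.step k
    have ky := h.key k (by omega)
    have c0 := cr_pos (Fintype.card V) k (by omega)
    have e1 : cr (Fintype.card V) k
        = w * (((Fintype.card V : ℝ) - 2 * k) * ((Fintype.card V : ℝ) - 2 * k - 1)) := by
      unfold cr; rw [← h.w_eq]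
    rw [← e1] at s
    rw [s, Finset.prod_range_succ, Finset.prod_Ico_succ_top hk]
    have h2 := mul_le_mul_of_nonneg_left ih' c0.le
    nlinarith

end

end Pool.Agent.H32R2.KH
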