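import Pool.Agent.H32R2.KH.Defs
import Pool.Agent.H32R2.KH.Main
import Pool.Agent.H32R2.KH.Link

set_option autoImplicit false

namespace Pool.Agent.H32R2.KH

open Finset

/-- conjugates of the reversal matching -/
noncomputable def AA {N : ℕ} (π : Equiv.Perm (Fin N)) : Matrix (Fin N) (Fin N) ℝ :=
  fun i j => if π (Fin.rev (π.symm i)) = j then 1 else 0

lemma rev_ne {n : ℕ} (i : Fin (2 * n)) : Fin.rev i ≠ i := by
  intro h
  have := congrArg Fin.val h
  rw [Fin.val_rev] at this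
  have h2 := i.2
  omega

lemma AA_mem {n : ℕ} (π : Equiv.Perm (Fin (2 * n))) : AA π ∈ perfectMatchings (2 * n) := by
  refine ⟨fun i => π (Fin.rev (π.symm i)), ?_, ?_, rfl⟩
  · intro i; simp
  · intro i h
    have := congrArg π.symm h
    simp only [Equiv.symm_apply_apply] at this
    exact rev_ne _ this

/-- sum of the conjugates -/
noncomputable def SA {N : ℕ} (i j : Fin N) : ℝ := ∑ π : Equiv.Perm (Fin N), AA π i j

lemma SA_perm {N : ℕ} (τ : Equiv.Perm (Fin N)) (i j : Fin N) : SA (τ i) (τ j) = SA i j := by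
  unfold SA
  rw [← Equiv.sum_comp (Equiv.mulLeft τ)]
  refine Finset.sum_congr rfl fun π _ => ?_
  show (if (τ * π) (Fin.rev ((τ * π).symm (τ i))) = τ j then (1 : ℝ) else 0)
    = if π (Fin.rev (π.symm i)) = j then 1 else 0
  have h1 : (τ * π).symm (τ i) = π.symm i := by
    rw [Equiv.symm_apply_eq]; simp
  have h2 : (τ * π) (Fin.rev ((τ * π).symm (τ i))) = τ (π (Fin.rev (π.symm i))) := by
    rw [h1]; rfl
  refine if_congr ?_ rfl rfl
  rw [h2]
  exact τ.apply_eq_iff_eq

lemma SA_const {N : ℕ} (i j i' j' : Fin N) (h : i ≠ j) (h' : i' ≠ j') : SA i j = SA i' j' := by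
  set τ : Equiv.Perm (Fin N) := Equiv.swap (Equiv.swap i i' j) j' * Equiv.swap i i' with hτ
  have h1 : τ i = i' := by
    rw [hτ, Equiv.Perm.mul_apply, Equiv.swap_apply_left]
    refine Equiv.swap_apply_of_ne_of_ne ?_ h'
    intro hh
    have : Equiv.swap i i' i = Equiv.swap i i' j := by rw [Equiv.swap_apply_left]; exact hh
    exact h ((Equiv.swap i i').injective this)
  have h2 : τ j = j' := by
    rw [hτ, Equiv.Perm.mul_apply, Equiv.swap_apply_left]
  rw [← SA_perm τ i j, h1, h2]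

lemma SA_diag {n : ℕ} (i : Fin (2 * n)) : SA i i = 0 := by
  unfold SA
  refine Finset.sum_eq_zero fun π _ => ?_
  unfold AA
  rw [if_neg]
  intro h
  have := congrArg π.symm h
  simp only [Equiv.symm_apply_apply] at this
  exact rev_ne _ this

lemma SA_row {N : ℕ} (i : Fin N) : ∑ j, SA i j = (N.factorial : ℝ) := by
  unfold SA
  rw [Finset.sum_comm]
  have : ∀ π : Equiv.Perm (Fin N), ∑ j, AA π i j = 1 := by
    intro π
    unfold AA
    rw [Finset.sum_ite_eq univ]
    simp
  rw [Finset.sum_congr rfl fun π _ => this π, Finset.sum_const, Finset.card_univ,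
    Fintype.card_perm, Fintype.card_fin]
  simp

lemma SA_eq {n : ℕ} (i j : Fin (2 * n)) :
    SA i j = ((2 * n).factorial : ℝ) * J n i j := by
  by_cases h : i = j
  · rw [h, SA_diag]; simp [J]
  · have h1 : ∑ c, SA i c = ∑ c ∈ univ.erase i, SA i j := by
      rw [← Finset.sum_erase univ (SA_diag i)]
      exact Finset.sum_congr rfl fun c hc => SA_const _ _ _ _ (Ne.symm (mem_erase.1 hc).1) h
    rw [SA_row, Finset.sum_const, Finset.card_erase_of_mem (mem_univ _), Finset.card_univ,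
      Fintype.card_fin, nsmul_eq_mul] at h1
    have h2 := i.2
    have h3 := j.2
    have h4 : 1 ≤ 2 * n := by omega
    have hn : (1 : ℝ) ≤ n := by
      have : 1 ≤ n := by omega
      exact_mod_cast this
    rw [Nat.cast_sub h4] at h1
    push_cast at h1
    unfold J
    rw [if_neg h, h1]
    have : (2 * (n : ℝ) - 1) ≠ 0 := by
      intro h5; linarith
    field_simp

theorem J_mem (n : ℕ) : J n ∈ Psi n := by
  have hfac : ((2 * n).factorial : ℝ) ≠ 0 := by exact_mod_cast (Nat.factorial_pos _).ne'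
  have h1 : J n = ∑ π : Equiv.Perm (Fin (2 * n)), (1 / ((2 * n).factorial : ℝ)) • AA π := by
    ext i j
    rw [Matrix.sum_apply]
    simp only [Matrix.smul_apply, smul_eq_mul]
    rw [← Finset.mul_sum]
    show J n i j = 1 / ((2 * n).factorial : ℝ) * SA i j
    rw [SA_eq]
    field_simp
  rw [h1]
  refine (convex_convexHull ℝ _).sum_mem (fun _ _ => by positivity) ?_ fun π _ =>
    subset_convexHull ℝ _ (AA_mem π)
  rw [Finset.sum_const, Finset.card_univ, Fintype.card_perm, Fintype.card_fin, nsmul_eq_mul]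
  field_simp

/-- Basic inequalities of the polytope. -/
theorem Psi_basic {n : ℕ} {B : Matrix (Fin (2 * n)) (Fin (2 * n)) ℝ} (hB : B ∈ Psi n) :
    (∀ a c, B a c = B c a) ∧ (∀ a c, 0 ≤ B a c) ∧ (∀ a, B a a = 0) ∧ ∀ a, ∑ c, B a c = 1 := by
  have hconv : Convex ℝ {B : Matrix (Fin (2 * n)) (Fin (2 * n)) ℝ |
      (∀ a c, B a c = B c a) ∧ (∀ a c, 0 ≤ B a c) ∧ (∀ a, B a a = 0) ∧ ∀ a, ∑ c, B a c = 1} := by
    rintro A ⟨a1, a2, a3, a4⟩ C ⟨c1, c2, c3, c4⟩ s t hs ht hst
    refine ⟨fun a c => ?_, fun a c => ?_, fun a => ?_, fun a => ?_⟩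
    · simp only [Matrix.add_apply, Matrix.smul_apply, smul_eq_mul]; rw [a1, c1]
    · simp only [Matrix.add_apply, Matrix.smul_apply, smul_eq_mul]
      have := a2 a c
      have := c2 a c
      positivity
    · simp only [Matrix.add_apply, Matrix.smul_apply, smul_eq_mul]; rw [a3, c3]; ring
    · simp only [Matrix.add_apply, Matrix.smul_apply, smul_eq_mul]
      rw [Finset.sum_add_distrib, ← Finset.mul_sum, ← Finset.mul_sum, a4, c4]
      linarith
  refine convexHull_min ?_ hconv hB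
  rintro A ⟨σ, h1, h2, rfl⟩
  refine ⟨fun a c => ?_, fun a c => ?_, fun a => ?_, fun a => ?_⟩
  · by_cases h : σ a = c
    · have h' : σ c = a := by rw [← h, h1]
      simp [h, h']
    · have h' : σ c ≠ a := fun hh => h (by rw [← hh, h1])
      simp [h, h']
  · show 0 ≤ (if σ a = c then (1 : ℝ) else 0)
    split_ifs <;> norm_num
  · show (if σ a = a then (1 : ℝ) else 0) = 0
    rw [if_neg (h2 a)]
  · show ∑ c, (if σ a = c then (1 : ℝ) else 0) = 1
    rw [Finset.sum_ite_eq univ]; simp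

/-- deviation -/
noncomputable def Ed (n : ℕ) (B : Matrix (Fin (2 * n)) (Fin (2 * n)) ℝ) :
    Fin (2 * n) → Fin (2 * n) → ℝ := fun a c => B a c - J n a c

theorem Psi_full {n : ℕ} (hn : 1 ≤ n) {B : Matrix (Fin (2 * n)) (Fin (2 * n)) ℝ}
    (hB : B ∈ Psi n) : Full B (Ed n B) (1 / (2 * (n : ℝ) - 1)) := by
  obtain ⟨h1, h2, h3, h4⟩ := Psi_basic hB
  have hn' : (1 : ℝ) ≤ n := by exact_mod_cast hn
  have hpos : 0 < 2 * (n : ℝ) - 1 := by linarith
  refine ⟨h1, h2, h3, h4, fun a => ?_, fun a c hac => ?_, ?_, ?_⟩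
  · simp [Ed, J, h3]
  · simp [Ed, J, hac]
  · rw [Fintype.card_fin]; push_cast; field_simp
  · positivity

end Pool.Agent.H32R2.KH
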