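import Pool.Agent.H32R2.KH.JMem

set_option autoImplicit false

namespace Pool.Agent.H32R2.KH

open Finset

lemma prod_cr (n k : ℕ) (hk : k ≤ n) (hn : 1 ≤ n) :
    ∏ r ∈ range k, cr (2 * n) r
      = ((2 * n).factorial : ℝ) / ((2 * n - 2 * k).factorial * (2 * (n : ℝ) - 1) ^ k) := by
  have hn' : (1 : ℝ) ≤ n := by exact_mod_cast hn
  have hpos : 0 < 2 * (n : ℝ) - 1 := by linarith
  induction k with
  | zero =>
    have : ((2 * n).factorial : ℝ) ≠ 0 := by exact_mod_cast (Nat.factorial_pos _).ne'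
    simp [this]
  | succ k ih =>
    rw [Finset.prod_range_succ, ih (by omega)]
    have h1 : 2 * n - 2 * k = (2 * n - 2 * (k + 1)) + 1 + 1 := by omega
    have h2 : (2 * n - 2 * k).factorial
        = (2 * n - 2 * k) * ((2 * n - 2 * k - 1) * (2 * n - 2 * (k + 1)).factorial) := by
      rw [h1, Nat.factorial_succ, Nat.factorial_succ]
      rfl
    have hk2 : (k : ℝ) + 1 ≤ n := by exact_mod_cast hk
    have h3 : ((2 * n - 2 * k : ℕ) : ℝ) = 2 * n - 2 * k := by
      rw [Nat.cast_sub (by omega)]; push_cast; ring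
    have h4 : ((2 * n - 2 * k - 1 : ℕ) : ℝ) = 2 * n - 2 * k - 1 := by
      rw [Nat.cast_sub (by omega), h3]; push_cast; ring
    rw [h2]
    push_cast
    rw [h3, h4]
    have h5 : (0 : ℝ) < 2 * n - 2 * k := by linarith
    have h6 : (0 : ℝ) < 2 * n - 2 * k - 1 := by linarith
    have h7 : ((2 * n - 2 * (k + 1)).factorial : ℝ) ≠ 0 := by
      exact_mod_cast (Nat.factorial_pos _).ne'
    unfold cr
    push_cast
    rw [pow_succ]
    have h8 : (n : ℝ) - k ≠ 0 := by linarith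
    field_simp
    exact div_self (by intro h; linarith)

lemma sq_sum_zero {n : ℕ} (E : Fin (2 * n) → Fin (2 * n) → ℝ)
    (h : ∑ a, ∑ c, E a c ^ 2 = 0) (a c : Fin (2 * n)) : E a c = 0 := by
  have h1 := (Finset.sum_eq_zero_iff_of_nonneg (fun a _ =>
    Finset.sum_nonneg fun c _ => sq_nonneg (E a c))).1 h a (mem_univ a)
  have h2 := (Finset.sum_eq_zero_iff_of_nonneg (fun c _ => sq_nonneg (E a c))).1 h1 c (mem_univ c)
  exact pow_eq_zero_iff (two_ne_zero) |>.1 h2

theorem H_J (n k : ℕ) (hk : k ≤ n) (hn : 1 ≤ n) :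
    H (J n) k univ = ∏ r ∈ range k, cr (2 * n) r := by
  have hf := Psi_full hn (J_mem n)
  have hE : ∀ g : Finset (Fin (2 * n)) → ℝ, T (Ed n (J n)) g univ = 0 := by
    intro g
    unfold T
    refine Finset.sum_eq_zero fun p _ => ?_
    simp [Ed]
  induction k with
  | zero => simp [H]
  | succ k ih =>
    have h1 := hf.step k
    rw [hE, add_zero, ih (by omega)] at h1
    rw [h1, Finset.prod_range_succ, mul_comm]
    congr 1
    unfold cr
    rw [Fintype.card_fin]
    push_cast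
    ring

/-- value at `J` -/
noncomputable def val (n k : ℕ) : ℝ :=
  ((2 * n).factorial : ℝ) / ((2 * n - 2 * k).factorial * 2 ^ k * k.factorial
    * (2 * (n : ℝ) - 1) ^ k)

theorem khaf_J (n k : ℕ) (hk : k ≤ n) (hn : 1 ≤ n) : khaf k (J n) = val n k := by
  have h1 := H_eq_khaf (J n) (Psi_basic (J_mem n)).1 k
  rw [H_J n k hk hn, prod_cr n k hk hn] at h1
  have hn' : (1 : ℝ) ≤ n := by exact_mod_cast hn
  have hpos : 0 < 2 * (n : ℝ) - 1 := by linarith
  have h2 : (k.factorial : ℝ) ≠ 0 := by exact_mod_cast (Nat.factorial_pos _).ne'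
  have h3 : ((2 * n - 2 * k).factorial : ℝ) ≠ 0 := by exact_mod_cast (Nat.factorial_pos _).ne'
  unfold val
  field_simp at h1 ⊢
  rw [h1]

theorem small (n k : ℕ) (h2 : 2 ≤ k) (hk : k ≤ n) (h5 : 5 * k ≤ n + 10)
    {B : Matrix (Fin (2 * n)) (Fin (2 * n)) ℝ} (hB : B ∈ Psi n) :
    khaf k (J n) ≤ khaf k B ∧ (khaf k B = khaf k (J n) → B = J n) := by
  have hn : 1 ≤ n := by omega
  have hf := Psi_full hn hB
  have hl := hf.lower k h2 (by rw [Fintype.card_fin]; omega) (by rw [Fintype.card_fin]; omega)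
  rw [Fintype.card_fin, H_eq_khaf B (Psi_basic hB).1 k, ← H_J n k hk hn,
    H_eq_khaf (J n) (Psi_basic (J_mem n)).1 k] at hl
  have hc : 0 < ∏ r ∈ Ico 2 k, cr (2 * n) r := by
    refine Finset.prod_pos fun r hr => cr_pos _ _ ?_
    rw [Finset.mem_Ico] at hr; omega
  have hs : 0 ≤ ∑ a, ∑ c, Ed n B a c ^ 2 :=
    Finset.sum_nonneg fun a _ => Finset.sum_nonneg fun c _ => sq_nonneg _
  have hp : (0 : ℝ) < 2 ^ k * k.factorial := by
    have : (0 : ℝ) < k.factorial := by exact_mod_cast Nat.factorial_pos _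
    positivity
  constructor
  · have h6 : 2 ^ k * (k.factorial : ℝ) * khaf k (J n) ≤ 2 ^ k * (k.factorial : ℝ) * khaf k B := by
      have := mul_nonneg hc.le (mul_nonneg (by norm_num : (0:ℝ) ≤ 2) hs)
      linarith
    exact le_of_mul_le_mul_left h6 hp
  · intro he
    rw [he] at hl
    have h7 : (∏ r ∈ Ico 2 k, cr (2 * n) r) * (2 * ∑ a, ∑ c, Ed n B a c ^ 2) ≤ 0 := by linarith
    have h8 : ∑ a, ∑ c, Ed n B a c ^ 2 = 0 := by
      have h9 : 2 * ∑ a, ∑ c, Ed n B a c ^ 2 ≤ 0 := by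
        by_contra hcon
        push Not at hcon
        have := mul_pos hc hcon
        linarith
      linarith
    ext a c
    have := sq_sum_zero _ h8 a c
    unfold Ed at this
    linarith

end Pool.Agent.H32R2.KH
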