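import Pool.Agent.H32R2.KH.Core

set_option autoImplicit false

namespace Pool.Agent.H32R2.KH

open Finset

variable {V : Type*} [DecidableEq V]

/-- the unordered matching sum -/
noncomputable def hh (b : V → V → ℝ) (k : ℕ) (U : Finset V) : ℝ :=
  H b k U / (2 ^ k * (k.factorial : ℝ))

lemma hh_zero (b : V → V → ℝ) (U : Finset V) : hh b 0 U = 1 := by
  simp [hh, H]

lemma fac_ne (k : ℕ) : (2 ^ k * (k.factorial : ℝ)) ≠ 0 := by
  have : (k.factorial : ℝ) ≠ 0 := by exact_mod_cast (Nat.factorial_pos _).ne'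
  positivity

lemma hh_nonneg (b : V → V → ℝ) (hb : ∀ a c, 0 ≤ b a c) (k : ℕ) (U : Finset V) :
    0 ≤ hh b k U := by
  have := H_nonneg b hb k U
  unfold hh
  positivity

lemma H_eq_zero (b : V → V → ℝ) (k : ℕ) (U : Finset V) (h : U.card < 2 * k) : H b k U = 0 := by
  induction k generalizing U with
  | zero => omega
  | succ k ih =>
    show T b (H b k) U = 0
    unfold T
    refine Finset.sum_eq_zero fun p hp => ?_
    rw [mem_offDiag] at hp
    have hsub : ({p.1, p.2} : Finset V) ⊆ U := by
      intro x hx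
      simp only [mem_insert, mem_singleton] at hx
      rcases hx with rfl | rfl
      · exact hp.1
      · exact hp.2.1
    have hcard : (U \ {p.1, p.2}).card + 2 = U.card := by
      rw [← Finset.card_sdiff_add_card_eq_card hsub, Finset.card_pair hp.2.2]
    rw [ih _ (by omega), mul_zero]

lemma hh_eq_zero (b : V → V → ℝ) (k : ℕ) (U : Finset V) (h : U.card < 2 * k) : hh b k U = 0 := by
  unfold hh
  rw [H_eq_zero b k U h, zero_div]

lemma hh_vertex (b : V → V → ℝ) (hs : ∀ a c, b a c = b c a) (k : ℕ) (U : Finset V) {a : V}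
    (ha : a ∈ U) :
    hh b (k + 1) U = hh b (k + 1) (U.erase a)
      + ∑ c ∈ U.erase a, b a c * hh b k (U \ {a, c}) := by
  unfold hh
  rw [H_vertex b hs k U ha, add_div]
  congr 1
  have h1 : ∑ c ∈ U.erase a, b a c * (H b k (U \ {a, c}) / (2 ^ k * (k.factorial : ℝ)))
      = (∑ c ∈ U.erase a, b a c * H b k (U \ {a, c})) / (2 ^ k * (k.factorial : ℝ)) := by
    rw [Finset.sum_div]
    exact Finset.sum_congr rfl fun c _ => by ring
  rw [h1, Nat.factorial_succ]
  have h2 := fac_ne k
  have h3 : ((k : ℝ) + 1) ≠ 0 := by positivity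
  push_cast
  have h4 : (k.factorial : ℝ) ≠ 0 := by exact_mod_cast (Nat.factorial_pos _).ne'
  field_simp
  ring

/-- generating function of matchings by the number of uncovered vertices -/
noncomputable def MF (z : ℝ) (b : V → V → ℝ) (U : Finset V) : ℝ :=
  ∑ k ∈ range (U.card + 1), hh b k U * z ^ (U.card - 2 * k)

lemma MF_eq (z : ℝ) (b : V → V → ℝ) (U : Finset V) (m : ℕ) (hm : U.card < 2 * m) :
    MF z b U = ∑ k ∈ range m, hh b k U * z ^ (U.card - 2 * k) := by
  unfold MF
  rcases le_total (U.card + 1) m with h | h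
  · refine Finset.sum_subset (Finset.range_subset_range.2 h) fun k _ hk => ?_
    rw [mem_range, not_lt] at hk
    rw [hh_eq_zero b k U (by omega), zero_mul]
  · symm
    refine Finset.sum_subset (Finset.range_subset_range.2 h) fun k _ hk => ?_
    rw [mem_range, not_lt] at hk
    rw [hh_eq_zero b k U (by omega), zero_mul]

lemma MF_empty (z : ℝ) (b : V → V → ℝ) : MF z b ∅ = 1 := by
  simp [MF, hh_zero]

lemma MF_vertex (z : ℝ) (b : V → V → ℝ) (hs : ∀ a c, b a c = b c a) (U : Finset V) {a : V}
    (ha : a ∈ U) :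
    MF z b U = z * MF z b (U.erase a) + ∑ c ∈ U.erase a, b a c * MF z b (U \ {a, c}) := by
  obtain ⟨n, hn⟩ : ∃ n, U.card = n + 1 :=
    ⟨U.card - 1, by have := Finset.card_pos.2 ⟨a, ha⟩; omega⟩
  have hn1 : (U.erase a).card = n := by rw [Finset.card_erase_of_mem ha, hn]; rfl
  have hn2 : ∀ c ∈ U.erase a, (U \ {a, c}).card + 1 = n := by
    intro c hc
    rw [mem_erase] at hc
    have hsub : ({a, c} : Finset V) ⊆ U := by
      intro x hx
      simp only [mem_insert, mem_singleton] at hx
      rcases hx with rfl | rfl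
      · exact ha
      · exact hc.2
    have := Finset.card_sdiff_add_card_eq_card hsub
    rw [Finset.card_pair (Ne.symm hc.1), hn] at this
    omega
  rw [MF_eq z b U (n + 2) (by omega), Finset.sum_range_succ', hh_zero, hn]
  have h1 : ∀ k ∈ range (n + 1), hh b (k + 1) U * z ^ (n + 1 - 2 * (k + 1))
      = hh b (k + 1) (U.erase a) * z ^ (n + 1 - 2 * (k + 1))
        + ∑ c ∈ U.erase a, b a c * (hh b k (U \ {a, c}) * z ^ (n + 1 - 2 * (k + 1))) := by
    intro k _
    rw [hh_vertex b hs k U ha, add_mul, Finset.sum_mul]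
    congr 1
    exact Finset.sum_congr rfl fun c _ => by ring
  rw [Finset.sum_congr rfl h1, Finset.sum_add_distrib, Finset.sum_comm]
  have h2 : ∑ c ∈ U.erase a, ∑ k ∈ range (n + 1),
      b a c * (hh b k (U \ {a, c}) * z ^ (n + 1 - 2 * (k + 1)))
      = ∑ c ∈ U.erase a, b a c * MF z b (U \ {a, c}) := by
    refine Finset.sum_congr rfl fun c hc => ?_
    have h3 := hn2 c hc
    rw [MF_eq z b (U \ {a, c}) (n + 1) (by omega), Finset.mul_sum]
    refine Finset.sum_congr rfl fun k _ => ?_
    have : n + 1 - 2 * (k + 1) = (U \ {a, c}).card - 2 * k := by omega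
    rw [this]
  have h4 : z * MF z b (U.erase a) = ∑ k ∈ range (n + 1),
      hh b (k + 1) (U.erase a) * z ^ (n + 1 - 2 * (k + 1)) + 1 * z ^ (n + 1 - 2 * 0) := by
    rw [MF_eq z b (U.erase a) (n + 2) (by omega), Finset.sum_range_succ', hh_zero, hn1, mul_add,
      Finset.mul_sum]
    congr 1
    · refine Finset.sum_congr rfl fun k _ => ?_
      by_cases hk : n < 2 * (k + 1)
      · rw [hh_eq_zero b (k + 1) _ (by omega)]; ring
      · have : n + 1 - 2 * (k + 1) = (n - 2 * (k + 1)) + 1 := by omega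
        rw [this, pow_succ]; ring
    · simp only [Nat.mul_zero, Nat.sub_zero, one_mul, pow_succ]; ring
  rw [h2, h4]
  ring

lemma hh_le_MF (z : ℝ) (hz : 0 ≤ z) (b : V → V → ℝ) (hb : ∀ a c, 0 ≤ b a c) (U : Finset V)
    (k : ℕ) : hh b k U * z ^ (U.card - 2 * k) ≤ MF z b U := by
  rw [MF_eq z b U (U.card + 1 + k) (by omega)]
  refine Finset.single_le_sum (f := fun k => hh b k U * z ^ (U.card - 2 * k)) (fun i _ => ?_)
    (mem_range.2 (by omega))
  exact mul_nonneg (hh_nonneg b hb i U) (pow_nonneg hz _)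

/-- invariance under embeddings -/
lemma H_map {V' : Type*} [DecidableEq V'] (f : V' ↪ V) (b : V → V → ℝ) (k : ℕ)
    (U : Finset V') : H b k (U.map f) = H (fun i j => b (f i) (f j)) k U := by
  induction k generalizing U with
  | zero => rfl
  | succ k ih =>
    show T b (H b k) (U.map f) = T _ (H _ k) U
    unfold T
    symm
    refine Finset.sum_bij (fun p _ => (f p.1, f p.2)) ?_ ?_ ?_ ?_
    · intro p hp
      simp only [mem_offDiag, mem_map'] at hp ⊢
      exact ⟨hp.1, hp.2.1, fun h => hp.2.2 (f.injective h)⟩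
    · rintro ⟨a, c⟩ _ ⟨a', c'⟩ _ h
      simp only [Prod.mk.injEq, EmbeddingLike.apply_eq_iff_eq] at h
      rw [h.1, h.2]
    · rintro ⟨a, c⟩ h
      simp only [mem_offDiag, mem_map] at h
      obtain ⟨⟨a', ha', rfl⟩, ⟨c', hc', rfl⟩, hne⟩ := h
      exact ⟨(a', c'), by
        simp only [mem_offDiag]; exact ⟨ha', hc', fun h => hne (by rw [h])⟩, rfl⟩
    · rintro ⟨a, c⟩ _
      simp only
      rw [← ih]
      congr 2
      ext x
      simp only [mem_map, mem_sdiff, mem_insert, mem_singleton]
      constructor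
      · rintro ⟨y, ⟨hy, h2⟩, rfl⟩
        refine ⟨⟨y, hy, rfl⟩, fun h => h2 ?_⟩
        rcases h with h | h
        · exact Or.inl (f.injective h)
        · exact Or.inr (f.injective h)
      · rintro ⟨⟨y, hy, rfl⟩, h2⟩
        exact ⟨y, ⟨hy, fun h => h2 (by rcases h with rfl | rfl <;> simp)⟩, rfl⟩

lemma hh_map {V' : Type*} [DecidableEq V'] (f : V' ↪ V) (b : V → V → ℝ) (k : ℕ)
    (U : Finset V') : hh b k (U.map f) = hh (fun i j => b (f i) (f j)) k U := by
  unfold hh; rw [H_map]

lemma MF_map {V' : Type*} [DecidableEq V'] (z : ℝ) (f : V' ↪ V) (b : V → V → ℝ)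
    (U : Finset V') : MF z b (U.map f) = MF z (fun i j => b (f i) (f j)) U := by
  unfold MF
  simp only [hh_map, Finset.card_map]

lemma H_congr (b b' : V → V → ℝ) (k : ℕ) (U : Finset V)
    (h : ∀ a ∈ U, ∀ c ∈ U, b a c = b' a c) : H b k U = H b' k U := by
  induction k generalizing U with
  | zero => rfl
  | succ k ih =>
    show T b (H b k) U = T b' (H b' k) U
    unfold T
    refine Finset.sum_congr rfl fun p hp => ?_
    rw [mem_offDiag] at hp
    rw [h _ hp.1 _ hp.2.1, ih]
    intro a ha c hc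
    exact h a (mem_sdiff.1 ha).1 c (mem_sdiff.1 hc).1

lemma MF_congr (z : ℝ) (b b' : V → V → ℝ) (U : Finset V)
    (h : ∀ a ∈ U, ∀ c ∈ U, b a c = b' a c) : MF z b U = MF z b' U := by
  unfold MF hh
  exact Finset.sum_congr rfl fun k _ => by rw [H_congr b b' k U h]

/-- product formula -/
lemma MF_union (z : ℝ) (b : V → V → ℝ) (hs : ∀ a c, b a c = b c a) (U U' : Finset V)
    (hd : Disjoint U U') (h0 : ∀ a ∈ U, ∀ c ∈ U', b a c = 0) :
    MF z b (U ∪ U') = MF z b U * MF z b U' := by
  induction U using Finset.strongInduction with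
  | _ U ih =>
    rcases U.eq_empty_or_nonempty with rfl | ⟨a, ha⟩
    · rw [Finset.empty_union, MF_empty, one_mul]
    · rw [MF_vertex z b hs (U ∪ U') (mem_union_left _ ha), MF_vertex z b hs U ha]
      have haU' : a ∉ U' := Finset.disjoint_left.1 hd ha
      have e1 : (U ∪ U').erase a = U.erase a ∪ U' := by
        rw [Finset.erase_union_distrib, Finset.erase_eq_of_notMem haU']
      have hss : U.erase a ⊂ U := Finset.erase_ssubset ha
      rw [e1, ih _ hss (hd.mono_left (Finset.erase_subset _ _))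
        (fun x hx c hc => h0 x (mem_of_mem_erase hx) c hc)]
      have hd' : Disjoint (U.erase a) U' := hd.mono_left (Finset.erase_subset _ _)
      rw [Finset.sum_union hd', Finset.sum_eq_zero (s := U')
        (fun c hc => by rw [h0 a ha c hc, zero_mul]), add_zero, add_mul, Finset.sum_mul, mul_assoc]
      congr 1
      refine Finset.sum_congr rfl fun c hc => ?_
      rw [mem_erase] at hc
      have hcU' : c ∉ U' := Finset.disjoint_left.1 hd hc.2
      have e2 : (U ∪ U') \ {a, c} = (U \ {a, c}) ∪ U' := by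
        ext x
        simp only [mem_sdiff, mem_union, mem_insert, mem_singleton, not_or]
        constructor
        · rintro ⟨h | h, h1, h2⟩
          · exact Or.inl ⟨h, h1, h2⟩
          · exact Or.inr h
        · rintro (⟨h, h1, h2⟩ | h)
          · exact ⟨Or.inl h, h1, h2⟩
          · exact ⟨Or.inr h, fun hh => haU' (hh ▸ h), fun hh => hcU' (hh ▸ h)⟩
      rw [e2, ih (U \ {a, c})]
      · ring
      · refine Finset.ssubset_of_subset_of_ssubset (s₂ := U.erase a) ?_ hss
        intro x hx
        simp only [mem_sdiff, mem_insert, mem_singleton, not_or] at hx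
        exact mem_erase.2 ⟨hx.2.1, hx.1⟩
      · exact hd.mono_left Finset.sdiff_subset
      · intro x hx y hy
        exact h0 x (mem_sdiff.1 hx).1 y hy

end Pool.Agent.H32R2.KH
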