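import Pool.Agent.H32R2.KH.Defs
import Pool.Agent.H32R2.KH.Chain

set_option autoImplicit false

namespace Pool.Agent.H32R2.KH

open Finset

/-- adjacency functions of the perfect matchings of `U` -/
def PMon (U : Finset ℕ) : Set (ℕ → ℕ → ℝ) :=
  {A | ∃ σ : ℕ → ℕ, (∀ i ∈ U, σ i ∈ U ∧ σ (σ i) = i ∧ σ i ≠ i) ∧
    A = fun i j => if i ∈ U ∧ σ i = j then 1 else 0}

/-- their hull -/
def KK (U : Finset ℕ) : Set (ℕ → ℕ → ℝ) := convexHull ℝ (PMon U)

/-- adjacency function of one pair -/
def pairM (p q i j : ℕ) : ℝ :=
  (if i = p ∧ j = q then 1 else 0) + (if i = q ∧ j = p then 1 else 0)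

lemma PMon_add {U : Finset ℕ} {A : ℕ → ℕ → ℝ} (hA : A ∈ PMon U) {p q : ℕ} (hp : p ∉ U)
    (hq : q ∉ U) (hpq : p ≠ q) : A + pairM p q ∈ PMon (insert p (insert q U)) := by
  obtain ⟨σ, h, rfl⟩ := hA
  refine ⟨fun i => if i = p then q else if i = q then p else σ i, ?_, ?_⟩
  · intro i hi
    rw [mem_insert, mem_insert] at hi
    rcases hi with rfl | rfl | hi
    · simp [hpq, Ne.symm hpq]
    · simp [hpq, Ne.symm hpq]
    · have h1 : i ≠ p := fun hh => hp (hh ▸ hi)
      have h2 : i ≠ q := fun hh => hq (hh ▸ hi)
      have h3 := h i hi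
      have h4 : σ i ≠ p := fun hh => hp (hh ▸ h3.1)
      have h5 : σ i ≠ q := fun hh => hq (hh ▸ h3.1)
      simp only [h1, h2, h4, h5, if_false, mem_insert, false_or]
      exact h3
  · funext i j
    simp only [Pi.add_apply, pairM, mem_insert]
    by_cases h1 : i = p
    · subst h1
      simp only [hp, hpq, false_and, if_false, true_and, true_or, if_true, zero_add]
      rw [add_zero]
      exact if_congr eq_comm rfl rfl
    · by_cases h2 : i = q
      · subst h2
        simp only [hq, h1, false_and, if_false, true_and, true_or, or_true, if_true, zero_add]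
        exact if_congr eq_comm rfl rfl
      · simp only [h1, h2, false_and, if_false, false_or, add_zero]

lemma KK_add {U : Finset ℕ} {A : ℕ → ℕ → ℝ} (hA : A ∈ KK U) {p q : ℕ} (hp : p ∉ U)
    (hq : q ∉ U) (hpq : p ≠ q) {U' : Finset ℕ} (hU' : U' = insert p (insert q U)) :
    A + pairM p q ∈ KK U' := by
  rw [hU']
  have h1 : Convex ℝ {A : ℕ → ℕ → ℝ | A + pairM p q ∈ KK (insert p (insert q U))} := by
    intro A hA B hB s t hs ht hst
    have h2 : s • (A + pairM p q) + t • (B + pairM p q) ∈ KK (insert p (insert q U)) :=
      (convex_convexHull ℝ (PMon (insert p (insert q U)))) hA hB hs ht hst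
    have e : s • A + t • B + pairM p q = s • (A + pairM p q) + t • (B + pairM p q) := by
      rw [smul_add, smul_add, add_add_add_comm, ← add_smul, hst, one_smul]
    show s • A + t • B + pairM p q ∈ KK _
    rw [e]
    exact h2
  refine convexHull_min (fun B hB => ?_) h1 hA
  show B + pairM p q ∈ KK _
  exact subset_convexHull ℝ _ (PMon_add hB hp hq hpq)

lemma KK_sum {U : Finset ℕ} (m : ℕ) (w : ℕ → ℝ) (D : ℕ → ℕ → ℕ → ℝ) (hw : ∀ x, 0 ≤ w x)
    (h1 : ∑ x ∈ range m, w x = 1) (hD : ∀ x < m, D x ∈ KK U) :
    (∑ x ∈ range m, w x • D x) ∈ KK U :=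
  (convex_convexHull ℝ _).sum_mem (fun _ _ => hw _) h1 fun x hx => hD x (mem_range.1 hx)

lemma sum_om (j : ℕ) (hj : 1 ≤ j) : ∑ x ∈ range (2 * j - 1), om x = 3 ^ j := by
  induction j, hj using Nat.le_induction with
  | base => simp [om, lev]
  | succ j hj ih =>
    obtain ⟨m, hm⟩ : ∃ m, 2 * j = m + 1 := ⟨2 * j - 1, by omega⟩
    have e1 : 2 * (j + 1) - 1 = m + 1 + 1 := by omega
    have e2 : 2 * j - 1 = m := by omega
    rw [e2] at ih
    rw [e1, Finset.sum_range_succ, Finset.sum_range_succ, ih]
    have o1 : om m = 3 ^ j := by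
      unfold om lev; congr 1
      have : (m + 1) / 2 = j := by omega
      rw [this, max_eq_right hj]
    have o2 : om (m + 1) = 3 ^ j := by
      unfold om lev; congr 1
      have : (m + 1 + 1) / 2 = j := by omega
      rw [this, max_eq_right hj]
    rw [o1, o2, pow_succ]; ring

lemma sum_pair_range (m : ℕ) (w : ℕ → ℝ) (a i k : ℕ) (ha : m ≤ a) :
    ∑ x ∈ range m, w x * pairM x a i k
      = (if i < m ∧ k = a then w i else 0) + (if k < m ∧ i = a then w k else 0) := by
  unfold pairM
  simp only [mul_add, Finset.sum_add_distrib]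
  congr 1
  · by_cases h : k = a
    · subst h
      simp only [and_true, mul_ite, mul_one, mul_zero]
      rw [Finset.sum_ite_eq (range m) i w]
      simp [mem_range]
    · simp [h]
  · by_cases h : i = a
    · subst h
      simp only [and_true, true_and, mul_ite, mul_one, mul_zero]
      rw [Finset.sum_ite_eq (range m) k w]
      simp [mem_range]
    · simp [h]

lemma fam (j : ℕ) (hj : 1 ≤ j) : ∃ D : ℕ → ℕ → ℕ → ℝ,
    (∀ x < 2 * j - 1, D x ∈ KK ((range (2 * j - 1)).erase x)) ∧
    ∀ i k, (if i < 2 * j - 1 ∧ k < 2 * j - 1 then be i k else 0)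
      = ∑ x ∈ range (2 * j - 1), om x / 3 ^ j * D x i k := by
  induction j, hj using Nat.le_induction with
  | base =>
    refine ⟨fun _ _ _ => 0, ?_, ?_⟩
    · intro x hx
      have hx0 : x = 0 := by omega
      subst hx0
      refine subset_convexHull ℝ _ ⟨id, ?_, ?_⟩
      · intro i hi; simp at hi
      · funext i j; simp
    · intro i k
      simp only [mul_zero, Finset.sum_const_zero]
      split_ifs with h
      · have h1 : i = 0 := by omega
        have h2 : k = 0 := by omega
        subst h1; subst h2; simp [be]
      · rfl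
  | succ j hj ih =>
    obtain ⟨D, hD1, hD2⟩ := ih
    obtain ⟨m, hm⟩ : ∃ m, 2 * j = m + 1 := ⟨2 * j - 1, by omega⟩
    have e1 : 2 * (j + 1) - 1 = m + 1 + 1 := by omega
    have e2 : 2 * j - 1 = m := by omega
    have hsum := sum_om j hj
    rw [e2] at hD1 hD2 hsum
    have o1 : om m = 3 ^ j := by
      unfold om lev; congr 1
      have : (m + 1) / 2 = j := by omega
      rw [this, max_eq_right hj]
    have o2 : om (m + 1) = 3 ^ j := by
      unfold om lev; congr 1
      have : (m + 1 + 1) / 2 = j := by omega
      rw [this, max_eq_right hj]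
    set w : ℕ → ℝ := fun x => om x / 3 ^ j with hw
    have hw0 : ∀ x, 0 ≤ w x := fun x => by
      have := om_pos x
      simp only [hw]; positivity
    have hw1 : ∑ x ∈ range m, w x = 1 := by
      simp only [hw]
      rw [← Finset.sum_div, hsum]
      field_simp
    set D' : ℕ → ℕ → ℕ → ℝ := fun x =>
      if x < m then D x + pairM m (m + 1)
      else if x = m then ∑ y ∈ range m, w y • (D y + pairM y (m + 1))
      else ∑ y ∈ range m, w y • (D y + pairM y m) with hD'
    refine ⟨D', ?_, ?_⟩
    · intro x hx
      rw [e1] at hx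
      rw [e1]
      by_cases h1 : x < m
      · have hx1 : D' x = D x + pairM m (m + 1) := by simp only [hD', if_pos h1]
        rw [hx1]
        refine KK_add (hD1 x h1) (by simp) (by simp) (by omega) ?_
        ext y
        simp only [mem_erase, mem_range, mem_insert]
        omega
      · by_cases h2 : x = m
        · have hx1 : D' x = ∑ y ∈ range m, w y • (D y + pairM y (m + 1)) := by
            simp only [hD', if_neg h1, if_pos h2]
          rw [hx1]
          refine KK_sum m w (fun y => D y + pairM y (m + 1)) hw0 hw1 fun y hy => ?_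
          refine KK_add (hD1 y hy) (by simp) (by simp) (by omega) ?_
          ext z
          simp only [mem_erase, mem_range, mem_insert]
          omega
        · have hx1 : D' x = ∑ y ∈ range m, w y • (D y + pairM y m) := by
            simp only [hD', if_neg h1, if_neg h2]
          rw [hx1]
          refine KK_sum m w (fun y => D y + pairM y m) hw0 hw1 fun y hy => ?_
          refine KK_add (hD1 y hy) (by simp) (by simp) (by omega) ?_
          ext z
          simp only [mem_erase, mem_range, mem_insert]
          omega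
    · intro i k
      rw [e1, Finset.sum_range_succ, Finset.sum_range_succ, o1, o2]
      have hS := hD2 i k
      set S : ℝ := if i < m ∧ k < m then be i k else 0 with hSdef
      have hS' : ∑ x ∈ range m, w x * D x i k = S := hS.symm
      have t1 : ∑ x ∈ range m, om x / 3 ^ (j + 1) * D' x i k
          = 1 / 3 * (S + pairM m (m + 1) i k) := by
        have : ∀ x ∈ range m, om x / 3 ^ (j + 1) * D' x i k
            = 1 / 3 * (w x * D x i k + w x * pairM m (m + 1) i k) := by
          intro x hx
          have hx1 : D' x = D x + pairM m (m + 1) := by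
            simp only [hD', if_pos (mem_range.1 hx)]
          rw [hx1]
          simp only [Pi.add_apply, hw, pow_succ]
          field_simp
        rw [Finset.sum_congr rfl this, ← Finset.mul_sum, Finset.sum_add_distrib, hS',
          ← Finset.sum_mul, hw1, one_mul]
      have t2 : D' m i k = S + ((if i < m ∧ k = m + 1 then w i else 0)
          + (if k < m ∧ i = m + 1 then w k else 0)) := by
        have hx1 : D' m = ∑ y ∈ range m, w y • (D y + pairM y (m + 1)) := by
          simp only [hD', if_neg (lt_irrefl m), if_true]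
        rw [hx1, ← sum_pair_range m w (m + 1) i k (by omega), ← hS', ← Finset.sum_add_distrib]
        simp only [Finset.sum_apply, Pi.smul_apply, Pi.add_apply, smul_eq_mul, mul_add]
      have t3 : D' (m + 1) i k = S + ((if i < m ∧ k = m then w i else 0)
          + (if k < m ∧ i = m then w k else 0)) := by
        have hx1 : D' (m + 1) = ∑ y ∈ range m, w y • (D y + pairM y m) := by
          simp only [hD', if_neg (by omega : ¬ m + 1 < m), if_neg (by omega : ¬ m + 1 = m)]
        rw [hx1, ← sum_pair_range m w m i k le_rfl, ← hS', ← Finset.sum_add_distrib]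
        simp only [Finset.sum_apply, Pi.smul_apply, Pi.add_apply, smul_eq_mul, mul_add]
      rw [t1, t2, t3]
      have h3 : (3 : ℝ) ^ j / 3 ^ (j + 1) = 1 / 3 := by
        rw [pow_succ]; field_simp
      rw [h3, hSdef]
      have h3j : (3 : ℝ) ^ j ≠ 0 := by positivity
      have hi : i < m ∨ i = m ∨ i = m + 1 ∨ m + 1 < i := by omega
      have hk : k < m ∨ k = m ∨ k = m + 1 ∨ m + 1 < k := by omega
      have hbe : ∀ x y : ℕ, x < m → y = m ∨ y = m + 1 → be x y = w x / 3 := by
        intro x y hx hy
        have hxy : x < y := by omega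
        unfold be
        rw [if_neg hxy.ne, min_eq_left hxy.le, max_eq_right hxy.le]
        have : om y = 3 ^ j := by rcases hy with rfl | rfl <;> assumption
        rw [this]
        simp only [hw]
        field_simp
      have hbem : be m (m + 1) = 1 / 3 := by
        unfold be
        rw [if_neg (by omega), min_eq_left (by omega), max_eq_right (by omega), o1, o2]
        field_simp
      have hbed : ∀ x, be x x = 0 := fun x => by simp [be]
      rcases hi with hi | hi | hi | hi <;> rcases hk with hk | hk | hk | hk
      · have a1 : i < m + 1 + 1 := by omega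
        have a2 : k < m + 1 + 1 := by omega
        have a3 : i ≠ m := by omega
        have a4 : i ≠ m + 1 := by omega
        have a5 : k ≠ m := by omega
        have a6 : k ≠ m + 1 := by omega
        simp [pairM, hi, hk, a1, a2, a3, a4, a5, a6]
        ring
      · have a1 : i < m + 1 + 1 := by omega
        have a2 : i ≠ m := by omega
        have a3 : i ≠ m + 1 := by omega
        have hb := hbe i (m) hi (by omega)
        simp [pairM, hi, hk, a1, a2, a3, hb]
        try ring
      · have a1 : i < m + 1 + 1 := by omega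
        have a2 : i ≠ m := by omega
        have a3 : i ≠ m + 1 := by omega
        have hb := hbe i (m + 1) hi (by omega)
        simp [pairM, hi, hk, a1, a2, a3, hb]
        try ring
      · have a1 : i < m + 1 + 1 := by omega
        have a2 : i ≠ m := by omega
        have a3 : i ≠ m + 1 := by omega
        have b1 : ¬ k < m + 1 + 1 := by omega
        have b2 : k ≠ m := by omega
        have b3 : k ≠ m + 1 := by omega
        have b4 : ¬ k < m := by omega
        simp [pairM, hi, a1, a2, a3, b1, b2, b3, b4]
      · have b1 : k < m + 1 + 1 := by omega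
        have b2 : k ≠ m := by omega
        have b3 : k ≠ m + 1 := by omega
        have hb := hbe k (m) hk (by omega)
        rw [be_symm] at hb
        simp [pairM, hi, hk, b1, b2, b3, hb]
        try ring
      · simp [pairM, hi, hk, hbed]
      · simp [pairM, hi, hk, hbem]
      · have b1 : ¬ k < m + 1 + 1 := by omega
        have b2 : k ≠ m := by omega
        have b3 : k ≠ m + 1 := by omega
        have b4 : ¬ k < m := by omega
        simp [pairM, hi, b1, b2, b3, b4]
      · have b1 : k < m + 1 + 1 := by omega
        have b2 : k ≠ m := by omega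
        have b3 : k ≠ m + 1 := by omega
        have hb := hbe k (m + 1) hk (by omega)
        rw [be_symm] at hb
        simp [pairM, hi, hk, b1, b2, b3, hb]
        try ring
      · have hb := hbem
        rw [be_symm] at hb
        simp [pairM, hi, hk, hb]
      · simp [pairM, hi, hk, hbed]
      · have b1 : ¬ k < m + 1 + 1 := by omega
        have b2 : k ≠ m := by omega
        have b3 : k ≠ m + 1 := by omega
        have b4 : ¬ k < m := by omega
        simp [pairM, hi, b1, b2, b3, b4]
      · have a1 : ¬ i < m + 1 + 1 := by omega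
        have a2 : i ≠ m := by omega
        have a3 : i ≠ m + 1 := by omega
        have a4 : ¬ i < m := by omega
        have b1 : k < m + 1 + 1 := by omega
        have b2 : k ≠ m := by omega
        have b3 : k ≠ m + 1 := by omega
        simp [pairM, hk, a1, a2, a3, a4, b1, b2, b3]
      · have a1 : ¬ i < m + 1 + 1 := by omega
        have a2 : i ≠ m := by omega
        have a3 : i ≠ m + 1 := by omega
        have a4 : ¬ i < m := by omega
        simp [pairM, hk, a1, a2, a3, a4]
      · have a1 : ¬ i < m + 1 + 1 := by omega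
        have a2 : i ≠ m := by omega
        have a3 : i ≠ m + 1 := by omega
        have a4 : ¬ i < m := by omega
        simp [pairM, hk, a1, a2, a3, a4]
      · have a1 : ¬ i < m + 1 + 1 := by omega
        have a2 : i ≠ m := by omega
        have a3 : i ≠ m + 1 := by omega
        have a4 : ¬ i < m := by omega
        have b1 : ¬ k < m + 1 + 1 := by omega
        have b2 : k ≠ m := by omega
        have b3 : k ≠ m + 1 := by omega
        have b4 : ¬ k < m := by omega
        simp [pairM, a1, a2, a3, a4, b1, b2, b3, b4]

/-- restriction to `Fin (2 n)` -/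
def rest (n : ℕ) (B : ℕ → ℕ → ℝ) : Matrix (Fin (2 * n)) (Fin (2 * n)) ℝ :=
  fun i j => B i j

lemma rest_mem {n : ℕ} {B : ℕ → ℕ → ℝ} (hB : B ∈ KK (range (2 * n))) : rest n B ∈ Psi n := by
  have h1 : Convex ℝ {A : ℕ → ℕ → ℝ | rest n A ∈ Psi n} := by
    intro A hA B hB s t hs ht hst
    exact (convex_convexHull ℝ (perfectMatchings (2 * n))) hA hB hs ht hst
  refine convexHull_min ?_ h1 hB
  rintro A ⟨σ, h, rfl⟩
  refine subset_convexHull ℝ _ ⟨fun i => ⟨σ i, ?_⟩, ?_, ?_, ?_⟩
  · exact mem_range.1 (h i (mem_range.2 i.2)).1
  · intro i; exact Fin.ext (h i (mem_range.2 i.2)).2.1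
  · intro i hi
    exact (h i (mem_range.2 i.2)).2.2 (congrArg Fin.val hi)
  · funext i j
    show (if (i : ℕ) ∈ range (2 * n) ∧ σ i = j then (1 : ℝ) else 0) = _
    refine if_congr ?_ rfl rfl
    constructor
    · rintro ⟨_, h2⟩; exact Fin.ext h2
    · intro h2; exact ⟨mem_range.2 i.2, congrArg Fin.val h2⟩

lemma Ch_KK (n : ℕ) (hn : 1 ≤ n) :
    (fun i k => if i < 2 * n ∧ k < 2 * n then Ch n i k else 0) ∈ KK (range (2 * n)) := by
  obtain ⟨D, hD1, hD2⟩ := fam n hn
  obtain ⟨m, hm⟩ : ∃ m, 2 * n = m + 1 := ⟨2 * n - 1, by omega⟩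
  have e2 : 2 * n - 1 = m := by omega
  have hsum := sum_om n hn
  rw [e2] at hD1 hD2 hsum
  have o1 : om m = 3 ^ n := by
    unfold om lev; congr 1
    have : (m + 1) / 2 = n := by omega
    rw [this, max_eq_right hn]
  set w : ℕ → ℝ := fun x => om x / 3 ^ n with hw
  have hw0 : ∀ x, 0 ≤ w x := fun x => by
    have := om_pos x
    simp only [hw]; positivity
  have hw1 : ∑ x ∈ range m, w x = 1 := by
    simp only [hw]
    rw [← Finset.sum_div, hsum]
    field_simp
  have hmem : (∑ y ∈ range m, w y • (D y + pairM y m)) ∈ KK (range (2 * n)) := by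
    refine KK_sum m w (fun y => D y + pairM y m) hw0 hw1 fun y hy => ?_
    refine KK_add (hD1 y hy) (by simp) (by simp) (by omega) ?_
    ext z
    simp only [mem_erase, mem_range, mem_insert]
    omega
  convert hmem using 1
  funext i k
  have hS : (if i < m ∧ k < m then be i k else 0) = ∑ x ∈ range m, w x * D x i k := hD2 i k
  have t2 : (∑ y ∈ range m, w y • (D y + pairM y m)) i k
      = (if i < m ∧ k < m then be i k else 0) + ((if i < m ∧ k = m then w i else 0)
          + (if k < m ∧ i = m then w k else 0)) := by
    rw [hS, ← sum_pair_range m w m i k le_rfl, ← Finset.sum_add_distrib]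
    simp only [Finset.sum_apply, Pi.smul_apply, Pi.add_apply, smul_eq_mul, mul_add]
  rw [t2]
  have hCh : ∀ x y : ℕ, x < m → y < m → Ch n x y = be x y := by
    intro x y hx hy
    unfold Ch be
    split_ifs with h1 h2
    · rfl
    · exfalso
      rw [e2] at h2
      have := max_lt hx hy
      omega
    · rfl
  have hCm : ∀ x : ℕ, x < m → Ch n x m = w x := by
    intro x hx
    unfold Ch
    rw [if_neg hx.ne, max_eq_right hx.le, min_eq_left hx.le, if_pos e2.symm, o1]
  have hCd : Ch n m m = 0 := by simp [Ch]
  have hi : i < m ∨ i = m ∨ m < i := by omega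
  have hk : k < m ∨ k = m ∨ m < k := by omega
  rw [hm]
  rcases hi with hi | hi | hi <;> rcases hk with hk | hk | hk
  · have a1 : i < m + 1 := by omega
    have a2 : k < m + 1 := by omega
    have a3 : i ≠ m := by omega
    have a4 : k ≠ m := by omega
    simp [hi, hk, a1, a2, a3, a4, hCh i k hi hk]
  · have a1 : i < m + 1 := by omega
    have a3 : i ≠ m := by omega
    simp [hi, hk, a1, a3, hCm i hi]
  · have a2 : ¬ k < m + 1 := by omega
    have a3 : ¬ k < m := by omega
    have a4 : k ≠ m := by omega
    simp [a2, a3, a4]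
  · have a1 : k < m + 1 := by omega
    have a3 : k ≠ m := by omega
    simp [hi, hk, a1, a3, Ch_symm n m k, hCm k hk]
  · simp [hi, hk, hCd]
  · have a2 : ¬ k < m + 1 := by omega
    have a3 : ¬ k < m := by omega
    have a4 : k ≠ m := by omega
    simp [a2, a3, a4]
  · have a2 : ¬ i < m + 1 := by omega
    have a3 : ¬ i < m := by omega
    have a4 : i ≠ m := by omega
    simp [a2, a3, a4]
  · have a2 : ¬ i < m + 1 := by omega
    have a3 : ¬ i < m := by omega
    have a4 : i ≠ m := by omega
    simp [a2, a3, a4]
  · have a2 : ¬ i < m + 1 := by omega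
    have a3 : ¬ i < m := by omega
    have a4 : i ≠ m := by omega
    simp [a2, a3, a4]

end Pool.Agent.H32R2.KH
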