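import Pool.Agent.H32R2.KH.DSum

set_option autoImplicit false

namespace Pool.Agent.H32R2.KH

open Finset

lemma MF_Ch_cont (n : ℕ) (hn : 1 ≤ n) : Continuous fun z => MF z (Ch n) (range (2 * n)) := by
  have : (fun z => MF z (Ch n) (range (2 * n)))
      = fun z => z * Xr z (2 * n - 1) 0 + 1 / 3 ^ n * Xr z (2 * n - 1) 1 :=
    funext fun z => MF_Ch z n hn
  rw [this]
  have h0 := Xr_cont (2 * n - 1) 0
  have h1 := Xr_cont (2 * n - 1) 1
  fun_prop

/-- a small positive activity for which the block is still small -/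
lemma exists_z : ∃ z : ℝ, 0 < z ∧ z ≤ 1 ∧
    MF z (Ch 100) (range (2 * 100)) < (367 / 1000) ^ 100 := by
  have h0 : MF 0 (Ch 100) (range (2 * 100)) < (367 / 1000) ^ 100 := by
    refine lt_of_le_of_lt (MF_bound 100 (by norm_num)) ?_
    norm_num
  have hc := (MF_Ch_cont 100 (by norm_num)).continuousAt (x := (0 : ℝ))
  have h1 := hc.eventually_lt continuousAt_const h0
  rw [Metric.eventually_nhds_iff] at h1
  obtain ⟨ε, hε, h2⟩ := h1
  refine ⟨min (ε / 2) 1, by positivity, min_le_right _ _, h2 ?_⟩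
  rw [Real.dist_eq, sub_zero, abs_of_pos (by positivity)]
  have := min_le_left (ε / 2) (1 : ℝ)
  linarith

lemma val_choose (n k : ℕ) (hk : k ≤ n) (hn : 1 ≤ n) :
    val n k = (n.choose k : ℝ)
      * ∏ i ∈ range k, ((2 * (n : ℝ) - 2 * i - 1) / (2 * n - 1)) := by
  have hn' : (1 : ℝ) ≤ n := by exact_mod_cast hn
  have hpos : 0 < 2 * (n : ℝ) - 1 := by linarith
  induction k with
  | zero =>
    have : ((2 * n).factorial : ℝ) ≠ 0 := by exact_mod_cast (Nat.factorial_pos _).ne'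
    simp [val, this]
  | succ k ih =>
    have ih' := ih (by omega)
    have hk2 : (k : ℝ) + 1 ≤ n := by exact_mod_cast hk
    have h5 : (0 : ℝ) < n - k := by linarith
    have h2 : (2 * n - 2 * k).factorial
        = (2 * n - 2 * k) * ((2 * n - 2 * k - 1) * (2 * n - 2 * (k + 1)).factorial) := by
      have h1 : 2 * n - 2 * k = (2 * n - 2 * (k + 1)) + 1 + 1 := by omega
      rw [h1, Nat.factorial_succ, Nat.factorial_succ]
      rfl
    have h3 : ((2 * n - 2 * k : ℕ) : ℝ) = 2 * n - 2 * k := by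
      rw [Nat.cast_sub (by omega)]; push_cast; ring
    have h4 : ((2 * n - 2 * k - 1 : ℕ) : ℝ) = 2 * n - 2 * k - 1 := by
      rw [Nat.cast_sub (by omega), h3]; push_cast; ring
    have hc : ((n.choose (k + 1) : ℕ) : ℝ) * (k + 1) = n.choose k * (n - k) := by
      have := Nat.choose_succ_right_eq n k
      have h6 : ((n.choose (k + 1) * (k + 1) : ℕ) : ℝ) = ((n.choose k * (n - k) : ℕ) : ℝ) := by
        rw [this]
      push_cast at h6
      rw [Nat.cast_sub (by omega)] at h6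
      exact h6
    have hv : val n (k + 1) * ((k + 1) * (2 * n - 1))
        = val n k * ((n - k) * (2 * n - 2 * k - 1)) := by
      unfold val
      rw [h2, Nat.factorial_succ k]
      push_cast
      rw [h3, h4, pow_succ, pow_succ]
      have h7 : ((2 * n - 2 * (k + 1)).factorial : ℝ) ≠ 0 := by
        exact_mod_cast (Nat.factorial_pos _).ne'
      have h8 : (k.factorial : ℝ) ≠ 0 := by exact_mod_cast (Nat.factorial_pos _).ne'
      have h9 : (k : ℝ) + 1 ≠ 0 := by positivity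
      have h10 : (2 * (n : ℝ) - 2 * k - 1) ≠ 0 := by
        have : (0 : ℝ) < 2 * n - 2 * k - 1 := by linarith
        exact this.ne'
      have h11 : (2 * (n : ℝ) - 2 * k) ≠ 0 := by
        have : (0 : ℝ) < 2 * n - 2 * k := by linarith
        exact this.ne'
      field_simp
      exact (div_self (by intro h; apply h10; linarith)).symm
    rw [Finset.prod_range_succ]
    have h9 : (k : ℝ) + 1 ≠ 0 := by positivity
    have e1 : val n (k + 1) = val n k * ((n - k) * (2 * n - 2 * k - 1)) / ((k + 1) * (2 * n - 1)) := by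
      rw [← hv]; field_simp
    have e2 : ((n.choose (k + 1) : ℕ) : ℝ) = n.choose k * (n - k) / (k + 1) := by
      rw [← hc]; field_simp
    rw [e1, e2, ih']
    field_simp

lemma val_ge (n k : ℕ) (hk : k ≤ n) (hn : 1 ≤ n) : val n n ≤ val n k := by
  have hn' : (1 : ℝ) ≤ n := by exact_mod_cast hn
  have hpos : 0 < 2 * (n : ℝ) - 1 := by linarith
  rw [val_choose n k hk hn, val_choose n n le_rfl hn, Nat.choose_self, Nat.cast_one, one_mul]
  have hf0 : ∀ i ∈ range n, 0 ≤ (2 * (n : ℝ) - 2 * i - 1) / (2 * n - 1) := by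
    intro i hi
    have : (i : ℝ) + 1 ≤ n := by exact_mod_cast mem_range.1 hi
    exact div_nonneg (by linarith) hpos.le
  have hf1 : ∀ i : ℕ, (2 * (n : ℝ) - 2 * i - 1) / (2 * n - 1) ≤ 1 := by
    intro i
    rw [div_le_one hpos]
    have : (0 : ℝ) ≤ i := Nat.cast_nonneg i
    linarith
  have h1 : ∏ i ∈ range n, ((2 * (n : ℝ) - 2 * i - 1) / (2 * n - 1))
      ≤ ∏ i ∈ range k, ((2 * (n : ℝ) - 2 * i - 1) / (2 * n - 1)) := by
    rw [← Finset.prod_range_mul_prod_Ico _ hk]
    refine mul_le_of_le_one_right (Finset.prod_nonneg fun i hi => hf0 i (mem_range.2 (by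
      have := mem_range.1 hi; omega))) (Finset.prod_le_one (fun i hi => hf0 i (mem_range.2 (by
      have := Finset.mem_Ico.1 hi; omega))) fun i _ => hf1 i)
  have h2 : 0 ≤ ∏ i ∈ range k, ((2 * (n : ℝ) - 2 * i - 1) / (2 * n - 1)) :=
    Finset.prod_nonneg fun i hi => hf0 i (mem_range.2 (by have := mem_range.1 hi; omega))
  have h3 : (1 : ℝ) ≤ n.choose k := by exact_mod_cast Nat.choose_pos hk
  nlinarith

lemma ratio_big (n : ℕ) (hn : 1000 ≤ n) :
    3675 / 10000 ≤ ((2 * (n : ℝ) - 1) / (2 * n + 1)) ^ n := by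
  refine ratio_of n (by omega) _ (by norm_num) ?_
  have hn' : (1000 : ℝ) ≤ n := by exact_mod_cast hn
  have e1 := Real.exp_one_lt_d9
  have e2 : (2 * (n : ℝ) - 1) / (2 * n - 2) ≤ 1999 / 1998 := by
    rw [div_le_div_iff₀ (by linarith) (by norm_num)]
    linarith
  have e3 : 0 ≤ (2 * (n : ℝ) - 1) / (2 * n - 2) :=
    div_nonneg (by linarith) (by linarith)
  calc Real.exp 1 * ((2 * (n : ℝ) - 1) / (2 * n - 2)) ≤ 2.7182818286 * (1999 / 1998) :=
        mul_le_mul e1.le e2 e3 (by norm_num)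
    _ ≤ 1 / (3675 / 10000) := by norm_num

lemma val_lower (t : ℕ) :
    val 1000 1000 * (3675 / 10000) ^ t ≤ val (1000 + t) (1000 + t) := by
  induction t with
  | zero => simp
  | succ t ih =>
    rw [show 1000 + (t + 1) = (1000 + t) + 1 by ring, val_succ (1000 + t) (by omega), pow_succ]
    have h1 := ratio_big (1000 + t) (by omega)
    have h2 : 0 < val 1000 1000 * (3675 / 10000 : ℝ) ^ t :=
      mul_pos (val_pos 1000 1000 (by norm_num)) (by positivity)
    calc val 1000 1000 * ((3675 / 10000 : ℝ) ^ t * (3675 / 10000))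
        = (val 1000 1000 * (3675 / 10000) ^ t) * (3675 / 10000) := by ring
      _ ≤ val (1000 + t) (1000 + t) * (3675 / 10000) :=
          mul_le_mul_of_nonneg_right ih (by norm_num)
      _ ≤ _ := mul_le_mul_of_nonneg_left h1 (h2.le.trans ih)

lemma val_lower' (n : ℕ) (hn : 1000 ≤ n) : val 1000 1000 * (3675 / 10000) ^ n ≤ val n n := by
  obtain ⟨t, rfl⟩ : ∃ t, n = 1000 + t := ⟨n - 1000, by omega⟩
  refine le_trans ?_ (val_lower t)
  refine mul_le_mul_of_nonneg_left ?_ (val_pos 1000 1000 (by norm_num)).le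
  rw [pow_add]
  have h1 : (0 : ℝ) ≤ (3675 / 10000) ^ t := by positivity
  have h2 : (3675 / 10000 : ℝ) ^ 1000 ≤ 1 := pow_le_one₀ (by norm_num) (by norm_num)
  have h3 := mul_le_mul_of_nonneg_right h2 h1
  linarith

/-- upper bound -/
lemma near_upper : ∃ M : ℕ, 0 < M ∧ ∃ C : ℝ, 0 < C ∧ ∀ n k : ℕ, 1 ≤ n → k ≤ n →
    M * (n - k) ≤ n → ∃ B ∈ Psi n, khaf k B ≤ C * (3672 / 10000) ^ n := by
  obtain ⟨z, hz0, hz1, hz⟩ := exists_z
  obtain ⟨M, hM⟩ := pow_unbounded_of_one_lt ((z ^ 2)⁻¹) (by norm_num : (1 : ℝ) < 3672 / 3670)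
  refine ⟨M + 1, by omega, (2 / (367 / 1000)) ^ 100, by positivity, fun n k hn hk hMk => ?_⟩
  obtain ⟨B, hB1, hB2⟩ := exists_blocks 100 (by norm_num) (n / 100) (n % 100)
  rw [Nat.div_add_mod] at hB1 hB2
  refine ⟨rest n B, hB1.rest, ?_⟩
  have h1 := khaf_le_MF n k hk B hB1.symm hB1.nonneg z hz0.le
  rw [hB2 z] at h1
  have hz2 : 0 < z ^ 2 := by positivity
  -- bound of the right side
  have hF0 : 0 ≤ MF z (Ch 100) (range (2 * 100)) := by
    refine Finset.sum_nonneg fun i _ => ?_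
    have := hh_nonneg (Ch 100) (Ch_nonneg 100) i (range (2 * 100))
    positivity
  have h2 : MF z (Ch 100) (range (2 * 100)) ^ (n / 100)
      ≤ ((367 / 1000) ^ 100) ^ (n / 100) := pow_le_pow_left₀ hF0 hz.le _
  have h3 : (1 + z ^ 2) ^ (n % 100) ≤ 2 ^ 100 := by
    have e1 : 1 + z ^ 2 ≤ 2 := by nlinarith
    have e2 : (1 + z ^ 2) ^ (n % 100) ≤ 2 ^ (n % 100) := pow_le_pow_left₀ (by positivity) e1 _
    refine e2.trans (pow_le_pow_right₀ (by norm_num) (Nat.mod_lt n (by norm_num)).le)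
  have h4 : (((367 : ℝ) / 1000) ^ 100) ^ (n / 100) * (367 / 1000) ^ 100 ≤ (367 / 1000) ^ n := by
    rw [← pow_mul, ← pow_add]
    refine pow_le_pow_of_le_one (by norm_num) (by norm_num) ?_
    have := Nat.div_add_mod n 100
    have := Nat.mod_lt n (by norm_num : 100 > 0)
    omega
  have h5 : khaf k (rest n B) ≤ ((z ^ 2)⁻¹) ^ (n - k) * ((((367 : ℝ) / 1000) ^ 100) ^ (n / 100)
      * 2 ^ 100) := by
    have e1 : khaf k (rest n B) * (z ^ 2) ^ (n - k)
        ≤ (((367 : ℝ) / 1000) ^ 100) ^ (n / 100) * 2 ^ 100 :=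
      h1.trans (mul_le_mul h2 h3 (by positivity) (by positivity))
    rw [inv_pow]
    have e2 : (0 : ℝ) < (z ^ 2) ^ (n - k) := by positivity
    rw [← div_eq_inv_mul, le_div_iff₀ e2]
    exact e1
  have h6 : ((z ^ 2)⁻¹) ^ (n - k) ≤ ((3672 : ℝ) / 3670) ^ n := by
    have e1 : ((z ^ 2)⁻¹) ^ (n - k) ≤ (((3672 : ℝ) / 3670) ^ M) ^ (n - k) :=
      pow_le_pow_left₀ (by positivity) hM.le _
    refine e1.trans ?_
    rw [← pow_mul]
    refine pow_le_pow_right₀ (by norm_num) ?_
    refine le_trans ?_ hMk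
    exact Nat.mul_le_mul_right _ (by omega)
  calc khaf k (rest n B) ≤ ((z ^ 2)⁻¹) ^ (n - k) * ((((367 : ℝ) / 1000) ^ 100) ^ (n / 100)
      * 2 ^ 100) := h5
    _ ≤ ((3672 : ℝ) / 3670) ^ n * ((((367 : ℝ) / 1000) ^ 100) ^ (n / 100) * 2 ^ 100) :=
        mul_le_mul_of_nonneg_right h6 (by positivity)
    _ ≤ ((3672 : ℝ) / 3670) ^ n * ((367 / 1000) ^ n / (367 / 1000) ^ 100 * 2 ^ 100) := by
        refine mul_le_mul_of_nonneg_left (mul_le_mul_of_nonneg_right ?_ (by positivity))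
          (by positivity)
        rw [le_div_iff₀ (by positivity)]
        exact h4
    _ = (2 / (367 / 1000)) ^ 100 * (3672 / 10000) ^ n := by
        rw [show (3672 : ℝ) / 10000 = 3672 / 3670 * (367 / 1000) by norm_num, mul_pow, div_pow]
        ring

theorem near : ∃ c : ℝ, 0 < c ∧ ∃ q : ℝ, 0 < q ∧ q < 1 ∧ ∃ n₀ : ℕ, ∀ n k : ℕ, n₀ ≤ n → k ≤ n →
    (1 - c) * n ≤ k → ∃ B ∈ Psi n, khaf k B ≤ q ^ n * khaf k (J n) := by
  obtain ⟨M, hM, C, hC, hup⟩ := near_upper
  have hv := val_pos 1000 1000 (by norm_num)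
  obtain ⟨L, hL⟩ := pow_unbounded_of_one_lt (C / val 1000 1000)
    (by norm_num : (1 : ℝ) < 36735 / 36720)
  refine ⟨1 / M, by positivity, 36735 / 36750, by norm_num, by norm_num, max L 1000,
    fun n k hn hk hc => ?_⟩
  have hn1 : 1000 ≤ n := le_trans (le_max_right _ _) hn
  have hnL : L ≤ n := le_trans (le_max_left _ _) hn
  have hM' : (0 : ℝ) < M := by exact_mod_cast hM
  have h1 : M * (n - k) ≤ n := by
    have e1 : ((M * (n - k) : ℕ) : ℝ) ≤ n := by
      rw [Nat.cast_mul, Nat.cast_sub hk]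
      have e2 : (n : ℝ) - k ≤ n / M := by
        have : (1 - 1 / (M : ℝ)) * n = n - n / M := by field_simp
        linarith
      calc (M : ℝ) * (n - k) ≤ M * (n / M) := mul_le_mul_of_nonneg_left e2 hM'.le
        _ = n := by field_simp
    exact_mod_cast e1
  obtain ⟨B, hB, hB2⟩ := hup n k (by omega) hk h1
  refine ⟨B, hB, hB2.trans ?_⟩
  rw [khaf_J n k hk (by omega)]
  have h2 : val 1000 1000 * (3675 / 10000) ^ n ≤ val n k :=
    (val_lower' n hn1).trans (val_ge n k hk (by omega))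
  have h3 : C ≤ val 1000 1000 * (36735 / 36720 : ℝ) ^ n := by
    have e1 : C / val 1000 1000 ≤ (36735 / 36720 : ℝ) ^ n :=
      hL.le.trans (pow_le_pow_right₀ (by norm_num) hnL)
    rw [div_le_iff₀ hv] at e1
    linarith
  calc C * (3672 / 10000) ^ n
      ≤ val 1000 1000 * (36735 / 36720 : ℝ) ^ n * (3672 / 10000) ^ n :=
        mul_le_mul_of_nonneg_right h3 (by positivity)
    _ = (36735 / 36750) ^ n * (val 1000 1000 * (3675 / 10000) ^ n) := by
        have : ((36735 : ℝ) / 36720) ^ n * (3672 / 10000) ^ n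
            = (36735 / 36750) ^ n * (3675 / 10000) ^ n := by
          rw [← mul_pow, ← mul_pow]; norm_num
        calc _ = val 1000 1000 * (((36735 : ℝ) / 36720) ^ n * (3672 / 10000) ^ n) := by ring
          _ = _ := by rw [this]; ring
    _ ≤ _ := mul_le_mul_of_nonneg_left h2 (by positivity)

end Pool.Agent.H32R2.KH
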