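import Pool.Agent.H32R2.KH.Member
import Pool.Agent.H32R2.KH.Bound
import Pool.Agent.H32R2.KH.JVal

set_option autoImplicit false

namespace Pool.Agent.H32R2.KH

open Finset

theorem khaf_rest (n k : ℕ) (B : ℕ → ℕ → ℝ) (hs : ∀ a c, B a c = B c a) :
    khaf k (rest n B) = hh B k (range (2 * n)) := by
  have h1 := H_eq_khaf (rest n B) (fun a c => hs a c) k
  have h2 := H_map (V := ℕ) (V' := Fin (2 * n)) Fin.valEmbedding B k univ
  have h3 : (univ : Finset (Fin (2 * n))).map Fin.valEmbedding = range (2 * n) := by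
    ext x
    simp only [mem_map, mem_univ, true_and, mem_range]
    constructor
    · rintro ⟨y, rfl⟩; exact y.2
    · intro h; exact ⟨⟨x, h⟩, rfl⟩
  rw [h3] at h2
  unfold hh
  rw [h2]
  have h4 : H (fun i j : Fin (2 * n) => B (Fin.valEmbedding i) (Fin.valEmbedding j)) k univ
      = H (rest n B) k univ := rfl
  rw [h4, h1]
  have := fac_ne k
  field_simp

theorem khaf_le_MF (n k : ℕ) (hk : k ≤ n) (B : ℕ → ℕ → ℝ) (hs : ∀ a c, B a c = B c a)
    (hb : ∀ a c, 0 ≤ B a c) (z : ℝ) (hz : 0 ≤ z) :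
    khaf k (rest n B) * (z ^ 2) ^ (n - k) ≤ MF z B (range (2 * n)) := by
  rw [khaf_rest n k B hs, ← pow_mul]
  have h := hh_le_MF z hz B hb (range (2 * n)) k
  rw [card_range] at h
  have : 2 * (n - k) = 2 * n - 2 * k := by omega
  rw [this]
  exact h

lemma rest_Ch (n : ℕ) (hn : 1 ≤ n) : rest n (Ch n) ∈ Psi n := by
  have h := rest_mem (Ch_KK n hn)
  have e : rest n (fun i k => if i < 2 * n ∧ k < 2 * n then Ch n i k else 0) = rest n (Ch n) := by
    funext i k
    show (if (i : ℕ) < 2 * n ∧ (k : ℕ) < 2 * n then Ch n i k else 0) = Ch n i k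
    rw [if_pos ⟨i.2, k.2⟩]
  rw [e] at h
  exact h

lemma exp_ratio (n : ℕ) (hn : 1 ≤ n) :
    ((2 * (n : ℝ) + 1) / (2 * n - 1)) ^ n ≤ Real.exp 1 * ((2 * n - 1) / (2 * n - 2)) ∨ n = 1 := by
  rcases Nat.lt_or_ge 1 n with h | h
  · left
    have hn' : (2 : ℝ) ≤ n := by exact_mod_cast h
    have h1 : 0 < 2 * (n : ℝ) - 1 := by linarith
    have h2 : 0 < 2 * (n : ℝ) - 2 := by linarith
    have e1 : (2 * (n : ℝ) + 1) / (2 * n - 1) = 2 / (2 * n - 1) + 1 := by
      field_simp; ring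
    have e2 : (2 / (2 * (n : ℝ) - 1) + 1) ^ n ≤ Real.exp (2 / (2 * (n : ℝ) - 1)) ^ n :=
      pow_le_pow_left₀ (by positivity) (Real.add_one_le_exp _) n
    have e3 : Real.exp (2 / (2 * (n : ℝ) - 1)) ^ n = Real.exp 1 * Real.exp (1 / (2 * n - 1)) := by
      rw [← Real.exp_nat_mul, ← Real.exp_add]
      congr 1
      have hne : 2 * (n : ℝ) - 1 ≠ 0 := h1.ne'
      rw [eq_comm, ← sub_eq_zero]
      have : 1 + 1 / (2 * (n : ℝ) - 1) - (n : ℝ) * (2 / (2 * n - 1))
          = (2 * n - 1) * (1 / (2 * n - 1)) + (1 - 2 * n) / (2 * n - 1) := by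
        rw [mul_one_div_cancel hne]; ring
      rw [this, mul_one_div_cancel hne, ← neg_sub, neg_div, div_self hne]
      norm_num
    have e4 : Real.exp (1 / (2 * (n : ℝ) - 1)) ≤ (2 * n - 1) / (2 * n - 2) := by
      have e5 : 1 - 1 / (2 * (n : ℝ) - 1) ≤ Real.exp (-(1 / (2 * (n : ℝ) - 1))) := by
        have := Real.add_one_le_exp (-(1 / (2 * (n : ℝ) - 1)))
        linarith
      rw [Real.exp_neg] at e5
      have e6 : 1 - 1 / (2 * (n : ℝ) - 1) = (2 * n - 2) / (2 * n - 1) := by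
        field_simp; ring
      rw [e6] at e5
      have e7 : 0 < (2 * (n : ℝ) - 2) / (2 * n - 1) := by positivity
      have e8 := (le_inv_comm₀ e7 (Real.exp_pos _)).1 e5
      rw [inv_div] at e8
      exact e8
    rw [e1]
    refine e2.trans ?_
    rw [e3]
    exact mul_le_mul_of_nonneg_left e4 (Real.exp_pos _).le
  · right; omega

/-- lower bound for the ratio from a bound on `e`. -/
lemma ratio_of (n : ℕ) (hn : 2 ≤ n) (c : ℝ) (hc : 0 < c)
    (h : Real.exp 1 * ((2 * (n : ℝ) - 1) / (2 * n - 2)) ≤ 1 / c) :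
    c ≤ ((2 * (n : ℝ) - 1) / (2 * n + 1)) ^ n := by
  have hn' : (2 : ℝ) ≤ n := by exact_mod_cast hn
  have h1 : 0 < 2 * (n : ℝ) - 1 := by linarith
  rcases exp_ratio n (by omega) with h2 | h2
  · have h3 := h2.trans h
    have h4 : ((2 * (n : ℝ) - 1) / (2 * n + 1)) ^ n = (((2 * (n : ℝ) + 1) / (2 * n - 1)) ^ n)⁻¹ := by
      rw [← inv_pow, inv_div]
    rw [h4]
    have h5 : 0 < ((2 * (n : ℝ) + 1) / (2 * n - 1)) ^ n := by positivity
    rw [one_div] at h3
    exact (le_inv_comm₀ h5 hc).1 h3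
  · omega

lemma ratio_all (n : ℕ) (hn : 3 ≤ n) : 727 / 2000 ≤ ((2 * (n : ℝ) - 1) / (2 * n + 1)) ^ n := by
  rcases Nat.lt_or_ge n 43 with h | h
  · interval_cases n <;> norm_num
  · refine ratio_of n (by omega) _ (by norm_num) ?_
    have hn' : (43 : ℝ) ≤ n := by exact_mod_cast h
    have e1 := Real.exp_one_lt_d9
    have e2 : (2 * (n : ℝ) - 1) / (2 * n - 2) ≤ 85 / 84 := by
      rw [div_le_div_iff₀ (by linarith) (by norm_num)]
      linarith
    have e3 : 0 ≤ (2 * (n : ℝ) - 1) / (2 * n - 2) :=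
      div_nonneg (by linarith) (by linarith)
    calc Real.exp 1 * ((2 * (n : ℝ) - 1) / (2 * n - 2)) ≤ 2.7182818286 * (85 / 84) :=
          mul_le_mul e1.le e2 e3 (by norm_num)
      _ ≤ 1 / (727 / 2000) := by norm_num

/-- the ratio of consecutive values of the hafnian at `J` -/
lemma val_succ (n : ℕ) (hn : 1 ≤ n) :
    val (n + 1) (n + 1) = val n n * ((2 * (n : ℝ) - 1) / (2 * n + 1)) ^ n := by
  have hn' : (1 : ℝ) ≤ n := by exact_mod_cast hn
  have h1 : 0 < 2 * (n : ℝ) - 1 := by linarith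
  have hf : (n.factorial : ℝ) ≠ 0 := by exact_mod_cast (Nat.factorial_pos _).ne'
  have hf2 : ((2 * n).factorial : ℝ) ≠ 0 := by exact_mod_cast (Nat.factorial_pos _).ne'
  unfold val
  have e1 : 2 * (n + 1) = 2 * n + 1 + 1 := by ring
  rw [Nat.sub_self, Nat.sub_self, e1, Nat.factorial_succ (2 * n + 1), Nat.factorial_succ (2 * n),
    Nat.factorial_succ n, Nat.factorial_zero]
  push_cast
  have e2 : 2 * ((n : ℝ) + 1) - 1 = 2 * n + 1 := by ring
  rw [e2, div_pow, pow_succ, pow_succ]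
  have h3 : (2 * (n : ℝ) - 1) ^ n ≠ 0 := by positivity
  have h4 : (2 * (n : ℝ) + 1) ^ n ≠ 0 := by positivity
  field_simp
  ring

lemma val_pos (n k : ℕ) (hn : 1 ≤ n) : 0 < val n k := by
  have hn' : (1 : ℝ) ≤ n := by exact_mod_cast hn
  have h1 : 0 < 2 * (n : ℝ) - 1 := by linarith
  have hf : (0 : ℝ) < k.factorial := by exact_mod_cast Nat.factorial_pos _
  have hf2 : (0 : ℝ) < (2 * n).factorial := by exact_mod_cast Nat.factorial_pos _
  have hf3 : (0 : ℝ) < (2 * n - 2 * k).factorial := by exact_mod_cast Nat.factorial_pos _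
  unfold val
  positivity

lemma val_gt (m : ℕ) : 29 / 243 * (727 / 2000) ^ m < val (m + 3) (m + 3) := by
  induction m with
  | zero =>
    unfold val
    norm_num [Nat.factorial]
  | succ m ih =>
    rw [show m + 1 + 3 = (m + 3) + 1 by ring, val_succ (m + 3) (by omega), pow_succ]
    have h1 := ratio_all (m + 3) (by omega)
    have h2 : (0 : ℝ) < 29 / 243 * (727 / 2000) ^ m := by positivity
    calc 29 / 243 * ((727 / 2000) ^ m * (727 / 2000))
        = (29 / 243 * (727 / 2000) ^ m) * (727 / 2000) := by ring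
      _ < val (m + 3) (m + 3) * (727 / 2000) := mul_lt_mul_of_pos_right ih (by norm_num)
      _ ≤ _ := mul_le_mul_of_nonneg_left h1 (h2.trans ih).le

theorem perf (n : ℕ) (hn : 3 ≤ n) : ∃ B ∈ Psi n, khaf n B < khaf n (J n) := by
  refine ⟨rest n (Ch n), rest_Ch n (by omega), ?_⟩
  rw [khaf_J n n le_rfl (by omega)]
  have h1 := khaf_le_MF n n le_rfl (Ch n) (Ch_symm n) (Ch_nonneg n) 0 le_rfl
  rw [Nat.sub_self, pow_zero, mul_one] at h1
  have h2 := MF_bound n hn
  have h3 := val_gt (n - 3)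
  rw [show n - 3 + 3 = n by omega] at h3
  linarith

end Pool.Agent.H32R2.KH
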