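import Pool.Agent.H32R2.KH.Core

set_option autoImplicit false

namespace Pool.Agent.H32R2.KH

open Finset

variable {V : Type*} [DecidableEq V]

/-- Pointwise data on a set `U`: `b` symmetric nonnegative with zero diagonal, row sums on `U`
at most one, `E = b - w` off the diagonal. -/
structure Data (U : Finset V) (b E : V → V → ℝ) (w : ℝ) : Prop where
  bs : ∀ a c, b a c = b c a
  bn : ∀ a c, 0 ≤ b a c
  bd : ∀ a, b a a = 0
  row : ∀ a ∈ U, ∑ c ∈ U, b a c ≤ 1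
  Ed : ∀ a, E a a = 0
  Eb : ∀ a c, a ≠ c → b a c = E a c + w

section

variable {U : Finset V} {b E : V → V → ℝ} {w : ℝ}

lemma Data.Es (h : Data U b E w) (a c : V) : E a c = E c a := by
  by_cases hac : a = c
  · rw [hac]
  · have h1 := h.Eb a c hac
    have h2 := h.Eb c a (Ne.symm hac)
    have h3 := h.bs a c
    linarith

lemma Data.mulb (h : Data U b E w) (a c : V) : E a c * b a c = E a c * (E a c + w) := by
  by_cases hac : a = c
  · rw [hac, h.Ed]; ring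
  · rw [h.Eb a c hac]

/-- Quadratic form bound `z^T b z ≤ z^T z`. -/
lemma Data.qf_le (h : Data U b E w) (z : V → ℝ) :
    ∑ a ∈ U, ∑ c ∈ U, b a c * z a * z c ≤ ∑ a ∈ U, z a ^ 2 := by
  have h1 : ∑ a ∈ U, ∑ c ∈ U, b a c * z a * z c
      ≤ ∑ a ∈ U, ∑ c ∈ U, b a c * ((z a ^ 2 + z c ^ 2) / 2) := by
    refine Finset.sum_le_sum fun a _ => Finset.sum_le_sum fun c _ => ?_
    have := h.bn a c
    nlinarith [sq_nonneg (z a - z c)]
  have h2 : ∑ a ∈ U, ∑ c ∈ U, b a c * ((z a ^ 2 + z c ^ 2) / 2)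
      = ∑ a ∈ U, z a ^ 2 * ∑ c ∈ U, b a c := by
    have e1 : ∑ a ∈ U, ∑ c ∈ U, b a c * z c ^ 2 = ∑ a ∈ U, ∑ c ∈ U, b a c * z a ^ 2 := by
      rw [Finset.sum_comm]
      exact Finset.sum_congr rfl fun a _ => Finset.sum_congr rfl fun c _ => by rw [h.bs]
    calc ∑ a ∈ U, ∑ c ∈ U, b a c * ((z a ^ 2 + z c ^ 2) / 2)
        = (∑ a ∈ U, ∑ c ∈ U, b a c * z a ^ 2 + ∑ a ∈ U, ∑ c ∈ U, b a c * z c ^ 2) / 2 := by
          rw [← Finset.sum_add_distrib, Finset.sum_div]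
          refine Finset.sum_congr rfl fun a _ => ?_
          rw [← Finset.sum_add_distrib, Finset.sum_div]
          exact Finset.sum_congr rfl fun c _ => by ring
      _ = ∑ a ∈ U, ∑ c ∈ U, b a c * z a ^ 2 := by rw [e1]; ring
      _ = _ := by
          refine Finset.sum_congr rfl fun a _ => ?_
          rw [Finset.mul_sum]
          exact Finset.sum_congr rfl fun c _ => by ring
  rw [h2] at h1
  refine h1.trans (Finset.sum_le_sum fun a ha => ?_)
  have := h.row a ha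
  nlinarith [sq_nonneg (z a)]

lemma Data.qf_ge (h : Data U b E w) (z : V → ℝ) :
    -∑ a ∈ U, z a ^ 2 ≤ ∑ a ∈ U, ∑ c ∈ U, b a c * z a * z c := by
  have h1 : -∑ a ∈ U, ∑ c ∈ U, b a c * ((z a ^ 2 + z c ^ 2) / 2)
      ≤ ∑ a ∈ U, ∑ c ∈ U, b a c * z a * z c := by
    rw [← Finset.sum_neg_distrib]
    refine Finset.sum_le_sum fun a _ => ?_
    rw [← Finset.sum_neg_distrib]
    refine Finset.sum_le_sum fun c _ => ?_
    have := h.bn a c
    nlinarith [sq_nonneg (z a + z c)]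
  have h2 : ∑ a ∈ U, ∑ c ∈ U, b a c * ((z a ^ 2 + z c ^ 2) / 2)
      = ∑ a ∈ U, z a ^ 2 * ∑ c ∈ U, b a c := by
    have e1 : ∑ a ∈ U, ∑ c ∈ U, b a c * z c ^ 2 = ∑ a ∈ U, ∑ c ∈ U, b a c * z a ^ 2 := by
      rw [Finset.sum_comm]
      exact Finset.sum_congr rfl fun a _ => Finset.sum_congr rfl fun c _ => by rw [h.bs]
    calc ∑ a ∈ U, ∑ c ∈ U, b a c * ((z a ^ 2 + z c ^ 2) / 2)
        = (∑ a ∈ U, ∑ c ∈ U, b a c * z a ^ 2 + ∑ a ∈ U, ∑ c ∈ U, b a c * z c ^ 2) / 2 := by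
          rw [← Finset.sum_add_distrib, Finset.sum_div]
          refine Finset.sum_congr rfl fun a _ => ?_
          rw [← Finset.sum_add_distrib, Finset.sum_div]
          exact Finset.sum_congr rfl fun c _ => by ring
      _ = ∑ a ∈ U, ∑ c ∈ U, b a c * z a ^ 2 := by rw [e1]; ring
      _ = _ := by
          refine Finset.sum_congr rfl fun a _ => ?_
          rw [Finset.mul_sum]
          exact Finset.sum_congr rfl fun c _ => by ring
  rw [h2] at h1
  refine le_trans (neg_le_neg (Finset.sum_le_sum fun a ha => ?_)) h1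
  have := h.row a ha
  nlinarith [sq_nonneg (z a)]

/-- `z^T b z = z^T E z + w (Σ z)^2 - w Σ z^2`. -/
lemma Data.qf_E (h : Data U b E w) (z : V → ℝ) :
    ∑ a ∈ U, ∑ c ∈ U, b a c * z a * z c
      = ∑ a ∈ U, ∑ c ∈ U, E a c * z a * z c + w * (∑ a ∈ U, z a) ^ 2 - w * ∑ a ∈ U, z a ^ 2 := by
  have e : ∀ a ∈ U, ∑ c ∈ U, b a c * z a * z c
      = ∑ c ∈ U, E a c * z a * z c + w * (z a * ∑ c ∈ U, z c) - w * z a ^ 2 := by
    intro a ha
    have e1 : ∑ c ∈ U, b a c * z a * z c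
        = ∑ c ∈ U, (E a c * z a * z c + w * (z a * z c) - if c = a then w * z a ^ 2 else 0) := by
      refine Finset.sum_congr rfl fun c _ => ?_
      by_cases hac : c = a
      · subst hac; simp only [h.bd, h.Ed, if_true]; ring
      · rw [h.Eb a c (Ne.symm hac), if_neg hac]; ring
    rw [e1, Finset.sum_sub_distrib, Finset.sum_add_distrib, Finset.sum_ite_eq' U a, if_pos ha,
      ← Finset.mul_sum, ← Finset.mul_sum]
  rw [Finset.sum_congr rfl e, Finset.sum_sub_distrib, Finset.sum_add_distrib, ← Finset.mul_sum,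
    ← Finset.mul_sum, ← Finset.sum_mul]
  ring

/-- trace bound. -/
lemma Data.tr_le (h : Data U b E w) (hw : 0 ≤ w) :
    ∑ a ∈ U, ∑ c ∈ U, ∑ x ∈ U, E a c * (E a x * E c x)
      ≤ (1 + w) * ∑ a ∈ U, ∑ c ∈ U, E a c ^ 2 := by
  have e1 : ∑ a ∈ U, ∑ c ∈ U, ∑ x ∈ U, E a c * (E a x * E c x)
      = ∑ x ∈ U, ∑ a ∈ U, ∑ c ∈ U, E a c * E a x * E c x := by
    rw [Finset.sum_comm]
    have : ∀ c ∈ U, ∑ a ∈ U, ∑ x ∈ U, E a c * (E a x * E c x)
        = ∑ x ∈ U, ∑ a ∈ U, E a c * E a x * E c x := by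
      intro c _
      rw [Finset.sum_comm]
      exact Finset.sum_congr rfl fun x _ => Finset.sum_congr rfl fun a _ => by ring
    rw [Finset.sum_congr rfl this, Finset.sum_comm]
    exact Finset.sum_congr rfl fun x _ => by rw [Finset.sum_comm]
  have e2 : ∀ x ∈ U, ∑ a ∈ U, ∑ c ∈ U, E a c * E a x * E c x
      ≤ (1 + w) * ∑ a ∈ U, E a x ^ 2 := by
    intro x _
    have h1 := h.qf_le (fun a => E a x)
    have h2 := h.qf_E (fun a => E a x)
    have h3 : 0 ≤ w * (∑ a ∈ U, E a x) ^ 2 := by positivity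
    linarith
  rw [e1]
  refine (Finset.sum_le_sum e2).trans (le_of_eq ?_)
  rw [← Finset.mul_sum, Finset.sum_comm]

/-- The four point sum. -/
def Q0 (b E : V → V → ℝ) (U : Finset V) : ℝ :=
  ∑ a ∈ U, ∑ c ∈ U.erase a, ∑ x ∈ U \ {a, c}, ∑ y ∈ U \ {a, c, x}, E a c * (b a x * b c y)

lemma sum_sdiff_pair (U : Finset V) (f : V → ℝ) {a c : V} (ha : a ∈ U) (hc : c ∈ U)
    (hac : a ≠ c) : ∑ x ∈ U \ {a, c}, f x = ∑ x ∈ U, f x - f a - f c := by
  have hsub : ({a, c} : Finset V) ⊆ U := by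
    intro x hx
    simp only [mem_insert, mem_singleton] at hx
    rcases hx with rfl | rfl <;> assumption
  have := Finset.sum_sdiff (f := f) hsub
  rw [Finset.sum_pair hac] at this
  linarith

lemma sum_sdiff_triple (U : Finset V) (f : V → ℝ) {a c x : V} (ha : a ∈ U) (hc : c ∈ U)
    (hx : x ∈ U) (hac : a ≠ c) (hax : a ≠ x) (hcx : c ≠ x) :
    ∑ y ∈ U \ {a, c, x}, f y = ∑ y ∈ U, f y - f a - f c - f x := by
  have hsub : ({a, c, x} : Finset V) ⊆ U := by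
    intro y hy
    simp only [mem_insert, mem_singleton] at hy
    rcases hy with rfl | rfl | rfl <;> assumption
  have h1 := Finset.sum_sdiff (f := f) hsub
  have h2 : ∑ y ∈ ({a, c, x} : Finset V), f y = f a + (f c + f x) := by
    rw [Finset.sum_insert (by simp [hac, hax]), Finset.sum_pair hcx]
  rw [h2] at h1
  linarith

lemma Data.inner (h : Data U b E w) {a c : V} (ha : a ∈ U) (hc : c ∈ U) (hac : a ≠ c) :
    ∑ x ∈ U \ {a, c}, ∑ y ∈ U \ {a, c, x}, b a x * b c y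
      = (∑ x ∈ U, b a x - b a c) * (∑ x ∈ U, b c x - b a c) - ∑ x ∈ U, b a x * b c x := by
  have e1 : ∀ x ∈ U \ {a, c}, ∑ y ∈ U \ {a, c, x}, b a x * b c y
      = b a x * (∑ y ∈ U, b c y - b a c) - b a x * b c x := by
    intro x hx
    simp only [mem_sdiff, mem_insert, mem_singleton, not_or] at hx
    rw [← Finset.mul_sum, sum_sdiff_triple U _ ha hc hx.1 hac (Ne.symm hx.2.1) (Ne.symm hx.2.2),
      h.bd c, h.bs c a]
    ring
  rw [Finset.sum_congr rfl e1, Finset.sum_sub_distrib, ← Finset.sum_mul,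
    sum_sdiff_pair U (fun x => b a x) ha hc hac, sum_sdiff_pair U (fun x => b a x * b c x) ha hc hac,
    h.bd a, h.bd c]
  ring

lemma Data.beta (h : Data U b E w) {a : V} (ha : a ∈ U) :
    ∑ c ∈ U, b a c = ∑ c ∈ U, E a c + w * (U.card - 1) := by
  have e1 : ∑ c ∈ U, b a c = ∑ c ∈ U, (E a c + w - if c = a then w else 0) := by
    refine Finset.sum_congr rfl fun c _ => ?_
    by_cases hac : c = a
    · subst hac; simp only [h.bd, h.Ed, if_true]; ring
    · rw [h.Eb a c (Ne.symm hac), if_neg hac]; ring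
  rw [e1, Finset.sum_sub_distrib, Finset.sum_add_distrib, Finset.sum_ite_eq' U a, if_pos ha,
    Finset.sum_const, nsmul_eq_mul]
  ring

lemma Data.bb (h : Data U b E w) {a c : V} (ha : a ∈ U) (hc : c ∈ U) (hac : a ≠ c) :
    ∑ x ∈ U, b a x * b c x = ∑ x ∈ U, E a x * E c x + w * (∑ x ∈ U, E a x - E a c)
      + w * (∑ x ∈ U, E c x - E a c) + w ^ 2 * (U.card - 2) := by
  have e1 : ∑ x ∈ U, b a x * b c x = ∑ x ∈ U, (E a x * E c x + w * E a x + w * E c x + w ^ 2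
      - (if x = a then w * E c a + w ^ 2 else 0) - (if x = c then w * E a c + w ^ 2 else 0)) := by
    refine Finset.sum_congr rfl fun x _ => ?_
    by_cases hxa : x = a
    · subst hxa
      rw [if_pos rfl, if_neg hac, h.bd x, h.Ed x]; ring
    · by_cases hxc : x = c
      · subst hxc
        rw [if_neg hxa, if_pos rfl, h.bd x, h.Ed x]; ring
      · rw [if_neg hxa, if_neg hxc, h.Eb a x (Ne.symm hxa), h.Eb c x (Ne.symm hxc)]; ring
  rw [e1, Finset.sum_sub_distrib, Finset.sum_sub_distrib, Finset.sum_ite_eq' U a, if_pos ha,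
    Finset.sum_ite_eq' U c, if_pos hc, Finset.sum_add_distrib, Finset.sum_add_distrib,
    Finset.sum_add_distrib, Finset.sum_const, nsmul_eq_mul, ← Finset.mul_sum, ← Finset.mul_sum,
    h.Es c a]
  ring

/-- The exact quadratic identity for `Q0`. -/
lemma Data.Q0_eq (h : Data U b E w) :
    Q0 b E U = w ^ 2 * (U.card - 2) * (U.card - 3) * ∑ a ∈ U, ∑ c ∈ U, E a c
      + 2 * w * (U.card - 3) * ∑ a ∈ U, (∑ c ∈ U, E a c) ^ 2
      + ∑ a ∈ U, ∑ c ∈ U, E a c * (∑ x ∈ U, E a x) * (∑ x ∈ U, E c x)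
      - 2 * w * (U.card - 3) * ∑ a ∈ U, ∑ c ∈ U, E a c ^ 2
      - 2 * ∑ a ∈ U, ∑ c ∈ U, E a c ^ 2 * (∑ x ∈ U, E a x)
      + ∑ a ∈ U, ∑ c ∈ U, E a c ^ 3
      - ∑ a ∈ U, ∑ c ∈ U, ∑ x ∈ U, E a c * (E a x * E c x) := by
  have e1 : Q0 b E U = ∑ a ∈ U, ∑ c ∈ U, (w ^ 2 * (U.card - 2) * (U.card - 3) * E a c
      + w * (U.card - 3) * (E a c * ∑ x ∈ U, E a x) + w * (U.card - 3) * (E a c * ∑ x ∈ U, E c x)
      + E a c * (∑ x ∈ U, E a x) * (∑ x ∈ U, E c x)
      - 2 * w * (U.card - 3) * E a c ^ 2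
      - E a c ^ 2 * (∑ x ∈ U, E a x) - E a c ^ 2 * (∑ x ∈ U, E c x) + E a c ^ 3
      - ∑ x ∈ U, E a c * (E a x * E c x)) := by
    unfold Q0
    refine Finset.sum_congr rfl fun a ha => ?_
    have e0 : ∀ c ∈ U.erase a, ∑ x ∈ U \ {a, c}, ∑ y ∈ U \ {a, c, x}, E a c * (b a x * b c y)
        = (w ^ 2 * (U.card - 2) * (U.card - 3) * E a c
      + w * (U.card - 3) * (E a c * ∑ x ∈ U, E a x) + w * (U.card - 3) * (E a c * ∑ x ∈ U, E c x)
      + E a c * (∑ x ∈ U, E a x) * (∑ x ∈ U, E c x)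
      - 2 * w * (U.card - 3) * E a c ^ 2
      - E a c ^ 2 * (∑ x ∈ U, E a x) - E a c ^ 2 * (∑ x ∈ U, E c x) + E a c ^ 3
      - ∑ x ∈ U, E a c * (E a x * E c x)) := by
      intro c hc
      rw [mem_erase] at hc
      have hac : a ≠ c := Ne.symm hc.1
      have e2 : ∑ x ∈ U \ {a, c}, ∑ y ∈ U \ {a, c, x}, E a c * (b a x * b c y)
          = E a c * ∑ x ∈ U \ {a, c}, ∑ y ∈ U \ {a, c, x}, b a x * b c y := by
        rw [Finset.mul_sum]
        exact Finset.sum_congr rfl fun x _ => by rw [Finset.mul_sum]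
      rw [e2, h.inner ha hc.2 hac, h.bb ha hc.2 hac, h.beta ha, h.beta hc.2, h.Eb a c hac,
        ← Finset.mul_sum]
      ring
    rw [Finset.sum_congr rfl e0]
    refine Finset.sum_erase U ?_
    simp [h.Ed a]
  have e2 : ∑ a ∈ U, ∑ c ∈ U, E a c * ∑ x ∈ U, E a x = ∑ a ∈ U, (∑ c ∈ U, E a c) ^ 2 := by
    refine Finset.sum_congr rfl fun a _ => ?_
    rw [← Finset.sum_mul]; ring
  have e3 : ∑ a ∈ U, ∑ c ∈ U, E a c * ∑ x ∈ U, E c x = ∑ a ∈ U, (∑ c ∈ U, E a c) ^ 2 := by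
    rw [Finset.sum_comm, ← e2]
    exact Finset.sum_congr rfl fun a _ => Finset.sum_congr rfl fun c _ => by rw [h.Es c a]
  have e4 : ∑ a ∈ U, ∑ c ∈ U, E a c ^ 2 * (∑ x ∈ U, E c x)
      = ∑ a ∈ U, ∑ c ∈ U, E a c ^ 2 * (∑ x ∈ U, E a x) := by
    rw [Finset.sum_comm]
    exact Finset.sum_congr rfl fun a _ => Finset.sum_congr rfl fun c _ => by rw [h.Es c a]
  rw [e1]
  simp only [Finset.sum_add_distrib, Finset.sum_sub_distrib]
  simp only [← Finset.mul_sum] at *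
  rw [e2, e3, e4]
  ring

end

end Pool.Agent.H32R2.KH
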