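import Pool.Agent.H32R2.KH.Quad

set_option autoImplicit false

namespace Pool.Agent.H32R2.KH

open Finset

variable {V : Type*} [DecidableEq V]

section

variable {U : Finset V} {b E : V → V → ℝ} {w : ℝ}

lemma Data.P4 (h : Data U b E w) (ω : ℝ) (hw0 : 0 < w) (hw : w * (U.card + ω - 1) = 1)
    (hω : 0 ≤ ω) (hM : 4 * ω + 10 ≤ U.card)
    (hD : U.card - ω ≤ ∑ a ∈ U, ∑ c ∈ U, b a c) :
    0 ≤ 2 * w * (U.card - 3) * ∑ a ∈ U, (∑ c ∈ U, E a c) ^ 2
      + ∑ a ∈ U, ∑ c ∈ U, E a c * (∑ x ∈ U, E a x) * (∑ x ∈ U, E c x) := by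
  set s : V → ℝ := fun a => ∑ c ∈ U, E a c with hs
  set M : ℝ := (U.card : ℝ) with hMdef
  have hMpos : 0 < M := by linarith
  set D : ℝ := ∑ a ∈ U, s a with hDdef
  have hDb : ∑ a ∈ U, ∑ c ∈ U, b a c = D + w * (M * (M - 1)) := by
    rw [Finset.sum_congr rfl fun a ha => h.beta ha, Finset.sum_add_distrib, Finset.sum_const,
      nsmul_eq_mul]
    ring
  obtain ⟨q, hq⟩ : ∃ q : ℝ, q = D / M := ⟨_, rfl⟩
  have hqD : M * q = D := by rw [hq]; field_simp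
  set z : V → ℝ := fun a => s a - q with hz
  have hz1 : ∑ a ∈ U, z a = 0 := by
    simp only [hz, Finset.sum_sub_distrib, Finset.sum_const, nsmul_eq_mul]
    rw [← hDdef, ← hMdef, hqD]; ring
  set Z2 : ℝ := ∑ a ∈ U, z a ^ 2 with hZ2
  have hZ2n : 0 ≤ Z2 := Finset.sum_nonneg fun a _ => sq_nonneg _
  have hS2 : ∑ a ∈ U, s a ^ 2 = Z2 + M * q ^ 2 := by
    have : ∀ a ∈ U, s a ^ 2 = z a ^ 2 + 2 * q * z a + q ^ 2 := fun a _ => by
      simp only [hz]; ring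
    rw [Finset.sum_congr rfl this, Finset.sum_add_distrib, Finset.sum_add_distrib,
      ← Finset.mul_sum, hz1, Finset.sum_const, nsmul_eq_mul]
    ring
  have hzs : ∑ a ∈ U, z a * s a = Z2 := by
    have : ∀ a ∈ U, z a * s a = z a ^ 2 + q * z a := fun a _ => by
      simp only [hz]; ring
    rw [Finset.sum_congr rfl this, Finset.sum_add_distrib, ← Finset.mul_sum, hz1]
    ring
  have hEs : ∑ a ∈ U, ∑ c ∈ U, E a c * s a * s c
      = ∑ a ∈ U, ∑ c ∈ U, E a c * z a * z c + 2 * q * Z2 + q ^ 2 * D := by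
    have e1 : ∑ a ∈ U, ∑ c ∈ U, E a c * s a * s c
        = ∑ a ∈ U, ∑ c ∈ U, (E a c * z a * z c + q * (z a * E a c) + q * (E a c * z c)
          + q ^ 2 * E a c) := by
      refine Finset.sum_congr rfl fun a _ => Finset.sum_congr rfl fun c _ => ?_
      simp only [hz]; ring
    have e2 : ∑ a ∈ U, ∑ c ∈ U, z a * E a c = Z2 := by
      rw [← hzs]
      exact Finset.sum_congr rfl fun a _ => by rw [← Finset.mul_sum]
    have e3 : ∑ a ∈ U, ∑ c ∈ U, E a c * z c = Z2 := by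
      rw [Finset.sum_comm, ← e2]
      exact Finset.sum_congr rfl fun a _ => Finset.sum_congr rfl fun c _ => by
        rw [h.Es c a]; ring
    rw [e1]
    simp only [Finset.sum_add_distrib, ← Finset.mul_sum]
    simp only [Finset.mul_sum] at e2 e3 ⊢
    rw [← hDdef.symm]
    simp only [← Finset.mul_sum] at e2 e3 ⊢
    rw [e3]
    rw [show ∑ a ∈ U, z a * ∑ c ∈ U, E a c = Z2 from hzs]
    ring
  have hge := h.qf_ge z
  have hqE := h.qf_E z
  rw [hz1] at hqE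
  -- bounds on q
  have hqge : M * q ≥ M - ω - w * (M * (M - 1)) := by rw [hqD]; linarith
  have hqge2 : M * (q * (M + ω - 1)) ≥ -(ω * (ω - 1)) := by
    have h1 : 0 < M + ω - 1 := by linarith
    have h2 : M * q * (M + ω - 1) ≥ (M - ω - w * (M * (M - 1))) * (M + ω - 1) :=
      mul_le_mul_of_nonneg_right hqge h1.le
    have h3 : (M - ω - w * (M * (M - 1))) * (M + ω - 1)
        = (M - ω) * (M + ω - 1) - (w * (M + ω - 1)) * (M * (M - 1)) := by ring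
    rw [h3, hw] at h2
    nlinarith
  have hq3 : q * (M + ω - 1) ≥ -(ω / 4) := by
    by_contra hcon
    push_neg at hcon
    have : M * (q * (M + ω - 1)) < M * (-(ω / 4)) := mul_lt_mul_of_pos_left hcon hMpos
    nlinarith
  have hq4 : q ≥ -(w * (ω / 4)) := by
    have h1 : w * (q * (M + ω - 1)) ≥ w * (-(ω / 4)) := mul_le_mul_of_nonneg_left hq3 hw0.le
    have h2 : w * (q * (M + ω - 1)) = q * (w * (M + ω - 1)) := by ring
    rw [h2, hw] at h1
    linarith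
  have hA : 0 ≤ 2 * w * (M - 3) + w - 1 + 2 * q := by
    have : (1 : ℝ) = w * (M + ω - 1) := hw.symm
    nlinarith
  have hB : 0 ≤ 2 * w * (M - 3) + q := by nlinarith
  have key : 2 * w * (M - 3) * ∑ a ∈ U, s a ^ 2 + ∑ a ∈ U, ∑ c ∈ U, E a c * s a * s c
      ≥ Z2 * (2 * w * (M - 3) + w - 1 + 2 * q) + M * q ^ 2 * (2 * w * (M - 3) + q) := by
    rw [hS2, hEs, ← hqD]
    nlinarith
  have h1 : 0 ≤ Z2 * (2 * w * (M - 3) + w - 1 + 2 * q) := mul_nonneg hZ2n hA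
  have h2 : 0 ≤ M * q ^ 2 * (2 * w * (M - 3) + q) := by positivity
  exact (add_nonneg h1 h2).trans key

lemma Data.Q0_ge (h : Data U b E w) (ω : ℝ) (hw0 : 0 < w) (hw : w * (U.card + ω - 1) = 1)
    (hω : 0 ≤ ω) (hM : 4 * ω + 10 ≤ U.card)
    (hD : U.card - ω ≤ ∑ a ∈ U, ∑ c ∈ U, b a c) :
    w ^ 2 * (U.card - 2) * (U.card - 3) * ∑ a ∈ U, ∑ c ∈ U, E a c
      - 3 * ∑ a ∈ U, ∑ c ∈ U, E a c ^ 2 ≤ Q0 b E U := by
  have h4 := h.P4 ω hw0 hw hω hM hD
  have h3 := h.tr_le hw0.le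
  have hp : 0 ≤ ∑ a ∈ U, ∑ c ∈ U, E a c ^ 2 :=
    Finset.sum_nonneg fun a _ => Finset.sum_nonneg fun c _ => sq_nonneg _
  have h2 : -(w * ∑ a ∈ U, ∑ c ∈ U, E a c ^ 2) ≤ ∑ a ∈ U, ∑ c ∈ U, E a c ^ 3 := by
    rw [Finset.mul_sum, ← Finset.sum_neg_distrib]
    refine Finset.sum_le_sum fun a _ => ?_
    rw [Finset.mul_sum, ← Finset.sum_neg_distrib]
    refine Finset.sum_le_sum fun c _ => ?_
    by_cases hac : a = c
    · rw [hac, h.Ed]; simp
    · have h5 := h.Eb a c hac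
      have h6 := h.bn a c
      nlinarith [sq_nonneg (E a c), mul_nonneg (sq_nonneg (E a c)) (by linarith : 0 ≤ E a c + w)]
  have h1 : ∑ a ∈ U, ∑ c ∈ U, E a c ^ 2 * (∑ x ∈ U, E a x)
      ≤ (1 - w * (U.card - 1)) * ∑ a ∈ U, ∑ c ∈ U, E a c ^ 2 := by
    rw [Finset.mul_sum]
    refine Finset.sum_le_sum fun a ha => ?_
    rw [Finset.mul_sum]
    refine Finset.sum_le_sum fun c _ => ?_
    have h5 := h.row a ha
    rw [h.beta ha] at h5
    nlinarith [sq_nonneg (E a c)]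
  rw [h.Q0_eq]
  nlinarith [mul_nonneg hw0.le hp]

end

end Pool.Agent.H32R2.KH
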